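import Mathlib

/-!
The greedy procedure for the jump number: definitions, and the basic facts about its runs.
-/

open Finset

namespace GreedyJump

section Defs

variable {α : Type*} [PartialOrder α]

/-- `C` is a chain contained in `Q` which is a down-set of `Q` (in the induced order). -/
structure DownChain (Q C : Finset α) : Prop where
  sub : C ⊆ Q
  chain : IsChain (· ≤ ·) (C : Set α)
  down : ∀ x ∈ C, ∀ w ∈ Q, w ≤ x → w ∈ C

/-- `C` is a greedy chain of `Q`: maximal under inclusion among the chains of `Q` which are
down-sets of `Q`. -/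
def GreedyChain (Q C : Finset α) : Prop :=
  DownChain Q C ∧ ∀ C', DownChain Q C' → C ⊆ C' → C' = C

/-- `Run Q n`: some run of the greedy procedure started at `Q` outputs `n`. -/
inductive Run [DecidableEq α] : Finset α → ℕ → Prop
  | stop (Q : Finset α) : IsChain (· ≤ ·) (Q : Set α) → Run Q 0
  | step (Q C : Finset α) (n : ℕ) : ¬ IsChain (· ≤ ·) (Q : Set α) → GreedyChain Q C →
      Run (Q \ C) n → Run Q (n + 1)

/-- `L` lists the elements of `Q` without repetition, never an element before a smaller one:
a linear extension of the induced order on `Q`. -/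
def LinExtOn (Q : Finset α) (L : List α) : Prop :=
  L.Nodup ∧ (∀ x, x ∈ L ↔ x ∈ Q) ∧ L.Pairwise (fun a b => ¬ b < a)

open Classical in
/-- The number of jumps of a listing: consecutive entries `x, y` where `y` does not cover `x`. -/
noncomputable def jumps : List α → ℕ
  | [] => 0
  | [_] => 0
  | x :: y :: l => (if x ⋖ y then 0 else 1) + jumps (y :: l)

/-- The jump number of `α`. -/
noncomputable def sigma (α : Type*) [PartialOrder α] [Fintype α] : ℕ :=
  sInf {n | ∃ L : List α, LinExtOn univ L ∧ jumps L = n}

/-- `α` is greedy: every run of the greedy procedure on `α` outputs the jump number. -/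
def IsGreedy (α : Type*) [PartialOrder α] [Fintype α] [DecidableEq α] : Prop :=
  ∀ n, Run (univ : Finset α) n → n = sigma α

end Defs

set_option linter.unusedSectionVars false

variable {α : Type*} [PartialOrder α] [DecidableEq α]

lemma DownChain.total {Q C : Finset α} (h : DownChain Q C) {x y : α} (hx : x ∈ C) (hy : y ∈ C) :
    x ≤ y ∨ y ≤ x := by
  by_cases e : x = y
  · exact Or.inl e.le
  · exact h.chain (by exact_mod_cast hx) (by exact_mod_cast hy) e

lemma DownChain.down' {Q C : Finset α} (h : DownChain Q C) {x w : α} (hx : x ∈ C) (hw : w ∈ Q)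
    (hwx : w < x) : w ∈ C := h.down x hx w hw hwx.le

lemma DownChain.mk' {Q C : Finset α} (h1 : C ⊆ Q) (h2 : ∀ x ∈ C, ∀ y ∈ C, x ≤ y ∨ y ≤ x)
    (h3 : ∀ x ∈ C, ∀ w ∈ Q, w < x → w ∈ C) : DownChain Q C where
  sub := h1
  chain := fun x hx y hy _ => h2 x (by exact_mod_cast hx) y (by exact_mod_cast hy)
  down := fun x hx w hw hwx => by
    rcases hwx.eq_or_lt with h | h
    · rw [h]; exact hx
    · exact h3 x hx w hw h

/-- `y` prolongs the chain `A` in `X`. -/
def Prolongs (X A : Finset α) (y : α) : Prop :=
  y ∈ X ∧ y ∉ A ∧ (∀ w ∈ X, w < y → w ∈ A) ∧ ∀ w ∈ A, w < y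

lemma DownChain.insert' {X A : Finset α} (h : DownChain X A) {y : α} (hy : Prolongs X A y) :
    DownChain X (insert y A) := by
  obtain ⟨h1, h2, h3, h4⟩ := hy
  refine DownChain.mk' ?_ ?_ ?_
  · intro x hx
    rcases Finset.mem_insert.1 hx with rfl | hx
    · exact h1
    · exact h.sub hx
  · intro x hx z hz
    rcases Finset.mem_insert.1 hx with hx' | hx'
    · rcases Finset.mem_insert.1 hz with hz' | hz'
      · exact Or.inl (hx'.trans hz'.symm).le
      · exact Or.inr (hx' ▸ (h4 _ hz').le)
    · rcases Finset.mem_insert.1 hz with hz' | hz'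
      · exact Or.inl (hz' ▸ (h4 _ hx').le)
      · exact h.total hx' hz'
  · intro x hx w hw hwx
    rcases Finset.mem_insert.1 hx with rfl | hx
    · exact Finset.mem_insert_of_mem (h3 w hw hwx)
    · exact Finset.mem_insert_of_mem (h.down' hx hw hwx)

/-- If a chain contained in another down-chain is smaller, it can be prolonged inside it. -/
lemma DownChain.exists_prolongs {X A C : Finset α} (hA : DownChain X A) (hC : DownChain X C)
    (hAC : A ⊆ C) (hne : C ≠ A) : ∃ y ∈ C, Prolongs X A y := by
  have hne' : (C \ A).Nonempty := by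
    rw [Finset.sdiff_nonempty]
    intro h
    exact hne (Finset.Subset.antisymm h hAC)
  obtain ⟨y, hy⟩ := (C \ A).exists_minimal hne'
  have hyC : y ∈ C := (Finset.mem_sdiff.1 hy.1).1
  have hyA : y ∉ A := (Finset.mem_sdiff.1 hy.1).2
  refine ⟨y, hyC, hC.sub hyC, hyA, ?_, ?_⟩
  · intro w hw hwy
    by_contra hwA
    have hwC : w ∈ C := hC.down' hyC hw hwy
    have := hy.2 (Finset.mem_sdiff.2 ⟨hwC, hwA⟩) hwy.le
    exact absurd (lt_of_lt_of_le hwy this) (lt_irrefl _)
  · intro w hw
    rcases hC.total (hAC hw) hyC with h | h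
    · rcases h.eq_or_lt with h | h
      · exact absurd (h ▸ hw) hyA
      · exact h
    · exact absurd (hA.down w hw y (hC.sub hyC) h) hyA

lemma greedy_iff {X A : Finset α} :
    GreedyChain X A ↔ DownChain X A ∧ ∀ y, ¬ Prolongs X A y := by
  constructor
  · rintro ⟨h1, h2⟩
    refine ⟨h1, fun y hy => ?_⟩
    have := h2 _ (h1.insert' hy) (Finset.subset_insert _ _)
    exact hy.2.1 (this ▸ Finset.mem_insert_self _ _)
  · rintro ⟨h1, h2⟩
    refine ⟨h1, fun C hC hAC => ?_⟩
    by_contra hne
    obtain ⟨y, -, hy⟩ := h1.exists_prolongs hC hAC hne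
    exact h2 y hy

lemma GreedyChain.dc {X A : Finset α} (h : GreedyChain X A) : DownChain X A := h.1

lemma GreedyChain.not_prolongs {X A : Finset α} (h : GreedyChain X A) (y : α) :
    ¬ Prolongs X A y := (greedy_iff.1 h).2 y

lemma DownChain.exists_greedy {X A : Finset α} (h : DownChain X A) :
    ∃ C, A ⊆ C ∧ GreedyChain X C := by
  obtain ⟨k, hk⟩ : ∃ k, (X \ A).card = k := ⟨_, rfl⟩
  induction k using Nat.strong_induction_on generalizing A with
  | _ k ih =>
    by_cases hg : GreedyChain X A
    · exact ⟨A, Finset.Subset.refl _, hg⟩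
    · have : ∃ y, Prolongs X A y := by
        by_contra hcon
        push Not at hcon
        exact hg (greedy_iff.2 ⟨h, hcon⟩)
      obtain ⟨y, hy⟩ := this
      have hlt : (X \ insert y A).card < k := by
        rw [← hk]
        apply Finset.card_lt_card
        refine ⟨fun z hz => ?_, fun hsub => ?_⟩
        · simp only [Finset.mem_sdiff, Finset.mem_insert, not_or] at hz ⊢
          exact ⟨hz.1, hz.2.2⟩
        · have := hsub (Finset.mem_sdiff.2 ⟨hy.1, hy.2.1⟩)
          simp at this
      obtain ⟨C, hC1, hC2⟩ := ih _ hlt (h.insert' hy) rfl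
      exact ⟨C, (Finset.subset_insert _ _).trans hC1, hC2⟩

lemma DownChain.empty (X : Finset α) : DownChain X ∅ :=
  DownChain.mk' (Finset.empty_subset _) (by simp) (by simp)

lemma GreedyChain.nonempty {X C : Finset α} (h : GreedyChain X C) (hX : X.Nonempty) :
    C.Nonempty := by
  by_contra hC
  rw [Finset.not_nonempty_iff_eq_empty] at hC
  subst hC
  obtain ⟨y, hy⟩ := X.exists_minimal hX
  refine h.not_prolongs y ⟨hy.1, by simp, fun w hw hwy => ?_, by simp⟩
  have := hy.2 hw hwy.le
  exact absurd (lt_of_lt_of_le hwy this) (lt_irrefl _)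

/-- `T X n`: the set `X` can be exhausted by removing `n` greedy chains successively. -/
inductive T : Finset α → ℕ → Prop
  | nil : T ∅ 0
  | cons (X C : Finset α) (n : ℕ) : X.Nonempty → GreedyChain X C → T (X \ C) n → T X (n + 1)

lemma card_sdiff_lt {X C : Finset α} (h : GreedyChain X C) (hX : X.Nonempty) :
    (X \ C).card < X.card := by
  apply Finset.card_lt_card
  refine ⟨Finset.sdiff_subset, fun hsub => ?_⟩
  obtain ⟨x, hx⟩ := h.nonempty hX
  have := hsub (h.dc.sub hx)
  exact (Finset.mem_sdiff.1 this).2 hx

lemma T_exists (X : Finset α) : ∃ n, T X n := by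
  obtain ⟨k, hk⟩ : ∃ k, X.card = k := ⟨_, rfl⟩
  induction k using Nat.strong_induction_on generalizing X with
  | _ k ih =>
    rcases X.eq_empty_or_nonempty with rfl | hX
    · exact ⟨0, T.nil⟩
    · obtain ⟨C, -, hC⟩ := (DownChain.empty X).exists_greedy
      obtain ⟨n, hn⟩ := ih _ (hk ▸ card_sdiff_lt hC hX) (X \ C) rfl
      exact ⟨n + 1, T.cons X C n hX hC hn⟩

lemma T_empty {n : ℕ} (h : T (∅ : Finset α) n) : n = 0 := by
  rcases h with _ | ⟨_, _, _, hX, _, _⟩
  · rfl
  · exact absurd hX (by simp)

lemma T_cases {X : Finset α} {n : ℕ} (h : T X n) (hX : X.Nonempty) :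
    ∃ C m, GreedyChain X C ∧ T (X \ C) m ∧ n = m + 1 := by
  rcases h with _ | ⟨_, C, n, _, hC, hT⟩
  · exact absurd hX (by simp)
  · exact ⟨C, n, hC, hT, rfl⟩

lemma chain_greedy_self {X C : Finset α} (hX : IsChain (· ≤ ·) (X : Set α))
    (hC : GreedyChain X C) : C = X := by
  have hXX : DownChain X X := ⟨Finset.Subset.refl _, hX, fun _ _ w hw _ => hw⟩
  exact (hC.2 X hXX hC.dc.sub).symm

lemma run_T {X : Finset α} {n : ℕ} (h : Run X n) : X.Nonempty → T X (n + 1) := by
  induction h with
  | stop Q hQ =>
    intro hne
    obtain ⟨C, -, hC⟩ := (DownChain.empty Q).exists_greedy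
    have hCQ := chain_greedy_self hQ hC
    subst hCQ
    refine T.cons C C 0 hne hC ?_
    rw [Finset.sdiff_self]
    exact T.nil
  | step Q C n hQ hC _ ih =>
    intro hne
    refine T.cons Q C (n + 1) hne hC (ih ?_)
    rw [Finset.sdiff_nonempty]
    intro hsub
    have : C = Q := Finset.Subset.antisymm hC.dc.sub hsub
    exact hQ (this ▸ hC.dc.chain)

lemma T_run {X : Finset α} {n : ℕ} (h : T X n) : ∀ m, n = m + 1 → Run X m := by
  induction h with
  | nil => intro m hm; omega
  | cons X C n hne hC hT ih =>
    intro m hm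
    have hm' : n = m := by omega
    subst hm'
    by_cases hX : IsChain (· ≤ ·) (X : Set α)
    · have hCX := chain_greedy_self hX hC
      subst hCX
      rw [Finset.sdiff_self] at hT
      rw [T_empty hT]
      exact Run.stop _ hX
    · cases n with
      | zero =>
        exfalso
        have : X \ C = ∅ := by
          by_contra hcon
          obtain ⟨C', m, _, _, h0⟩ := T_cases hT (Finset.nonempty_iff_ne_empty.2 hcon)
          omega
        rw [Finset.sdiff_eq_empty_iff_subset] at this
        have : C = X := Finset.Subset.antisymm hC.dc.sub this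
        exact hX (this ▸ hC.dc.chain)
      | succ k => exact Run.step X C k hX hC (ih k rfl)

/-- All complete runs from `X` use the same number of chains. -/
def AllEq (X : Finset α) : Prop := ∀ n m, T X n → T X m → n = m

/-! ### Runs and linear extensions -/

open Classical in
/-- the number of blocks of a listing -/
noncomputable def blocks : List α → ℕ
  | [] => 0
  | [_] => 1
  | x :: y :: l => (if x ⋖ y then 0 else 1) + blocks (y :: l)

lemma blocks_eq (L : List α) (h : L ≠ []) : blocks L = jumps L + 1 := by
  induction L with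
  | nil => exact absurd rfl h
  | cons x l ih =>
    cases l with
    | nil => rfl
    | cons y l =>
      have := ih (by simp)
      simp only [blocks, jumps, this]
      omega

lemma blocks_cons_le (x : α) (l : List α) : blocks (x :: l) ≤ 1 + blocks l := by
  cases l with
  | nil => simp [blocks]
  | cons y l =>
    simp only [blocks]
    split_ifs <;> omega

lemma blocks_chain_append (l L : List α) (h : l.IsChain (· ⋖ ·)) :
    blocks (l ++ L) ≤ 1 + blocks L := by
  induction l with
  | nil => simp
  | cons x l ih =>
    cases l with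
    | nil => exact blocks_cons_le x L
    | cons y l =>
      rw [List.isChain_cons_cons] at h
      have := ih h.2
      simp only [List.cons_append, blocks, h.1, if_true] at this ⊢
      omega

lemma exists_block (L : List α) (h : L ≠ []) :
    ∃ B R, L = B ++ R ∧ B ≠ [] ∧ B.IsChain (· ⋖ ·) ∧ blocks L = 1 + blocks R := by
  induction L with
  | nil => exact absurd rfl h
  | cons x l ih =>
    cases l with
    | nil => exact ⟨[x], [], rfl, by simp, by simp, by simp [blocks]⟩
    | cons y l =>
      by_cases hxy : x ⋖ y
      · obtain ⟨B, R, h1, h2, h3, h4⟩ := ih (by simp)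
        cases B with
        | nil => exact absurd rfl h2
        | cons b B =>
          have hb : y = b := by
            simp only [List.cons_append, List.cons.injEq] at h1
            exact h1.1
          subst hb
          refine ⟨x :: y :: B, R, ?_, by simp, ?_, ?_⟩
          · rw [h1]; rfl
          · rw [List.isChain_cons_cons]; exact ⟨hxy, h3⟩
          · simp only [blocks, hxy, if_true, zero_add]; exact h4
      · refine ⟨[x], y :: l, rfl, by simp, by simp, ?_⟩
        simp [blocks, hxy]

lemma blocks_filter (p : α → Bool) (L : List α)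
    (h : L.Pairwise (fun a b => p a = true → p b = false → ¬ a ⋖ b)) :
    blocks (L.filter p) ≤ blocks L := by
  induction L with
  | nil => simp
  | cons x l ih =>
    rw [List.pairwise_cons] at h
    have ih' := ih h.2
    by_cases hx : p x = true
    · rw [List.filter_cons_of_pos hx]
      cases l with
      | nil => simp
      | cons y l =>
        by_cases hy : p y = true
        · rw [List.filter_cons_of_pos hy] at ih' ⊢
          simp only [blocks]
          omega
        · have hy' : p y = false := by simpa using hy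
          have hxy : ¬ x ⋖ y := h.1 y (by simp) hx hy'
          have h1 := blocks_cons_le x ((y :: l).filter p)
          simp only [blocks, hxy, if_false]
          omega
    · rw [List.filter_cons_of_neg hx]
      have : blocks l ≤ blocks (x :: l) := by
        cases l with
        | nil => simp [blocks]
        | cons y l => simp only [blocks]; omega
      omega

lemma lt_or_gt_of_pairwise {B : List α} (hB : B.Pairwise (· < ·)) {x y : α} (hx : x ∈ B)
    (hy : y ∈ B) (hxy : x ≠ y) : x < y ∨ y < x := by
  induction B with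
  | nil => simp at hx
  | cons b B ih =>
    rw [List.pairwise_cons] at hB
    rcases List.mem_cons.1 hx with h1 | h1
    · rcases List.mem_cons.1 hy with h2 | h2
      · exact absurd (h1.trans h2.symm) hxy
      · exact Or.inl (h1 ▸ hB.1 y h2)
    · rcases List.mem_cons.1 hy with h2 | h2
      · exact Or.inr (h2 ▸ hB.1 x h1)
      · exact ih hB.2 h1 h2

/-- Any linear extension is at least as costly as some run. -/
lemma T_of_linExt {X : Finset α} {L : List α} (hL : LinExtOn X L) :
    ∃ n, n ≤ blocks L ∧ T X n := by
  obtain ⟨k, hk⟩ : ∃ k, X.card = k := ⟨_, rfl⟩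
  induction k using Nat.strong_induction_on generalizing X L with
  | _ k ih =>
    obtain ⟨hnd, hmem, hpw⟩ := hL
    by_cases hL0 : L = []
    · subst hL0
      have hX : X = ∅ := by
        ext x; rw [← hmem x]; simp
      subst hX
      exact ⟨0, Nat.zero_le _, T.nil⟩
    · obtain ⟨B, R, rfl, hB, hBc, hbl⟩ := exists_block L hL0
      have hBlt : B.Pairwise (· < ·) := by
        have h1 : B.IsChain (· < ·) := hBc.imp (fun a b h => h.lt)
        exact List.isChain_iff_pairwise.1 h1
      rw [List.pairwise_append] at hpw
      have hA : DownChain X B.toFinset := by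
        refine DownChain.mk' ?_ ?_ ?_
        · intro x hx
          rw [List.mem_toFinset] at hx
          exact (hmem x).1 (List.mem_append_left _ hx)
        · intro x hx y hy
          rw [List.mem_toFinset] at hx hy
          by_cases hxy : x = y
          · exact Or.inl hxy.le
          · rcases lt_or_gt_of_pairwise hBlt hx hy hxy with h | h
            · exact Or.inl h.le
            · exact Or.inr h.le
        · intro x hx w hw hwx
          rw [List.mem_toFinset] at hx ⊢
          rcases List.mem_append.1 ((hmem w).2 hw) with h | h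
          · exact h
          · exact absurd hwx (hpw.2.2 x hx w h)
      obtain ⟨C, hAC, hC⟩ := hA.exists_greedy
      have hXne : X.Nonempty := by
        obtain ⟨b, hb⟩ := List.exists_mem_of_ne_nil B hB
        exact ⟨b, (hmem b).1 (List.mem_append_left _ hb)⟩
      set p : α → Bool := fun x => decide (x ∉ C) with hp
      have hL' : LinExtOn (X \ C) (R.filter p) := by
        refine ⟨?_, ?_, ?_⟩
        · exact (List.Nodup.of_append_right hnd).filter _
        · intro x
          rw [List.mem_filter, Finset.mem_sdiff, ← hmem x, List.mem_append]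
          simp only [hp, decide_eq_true_eq]
          constructor
          · rintro ⟨h1, h2⟩; exact ⟨Or.inr h1, h2⟩
          · rintro ⟨h1 | h1, h2⟩
            · exact absurd (hAC (List.mem_toFinset.2 h1)) h2
            · exact ⟨h1, h2⟩
        · exact hpw.2.1.filter _
      have hbf : blocks (R.filter p) ≤ blocks R := by
        apply blocks_filter
        refine List.pairwise_of_forall_mem_list ?_
        intro a ha b hb hpa hpb hab
        simp only [hp, decide_eq_true_eq, decide_eq_false_iff_not, not_not] at hpa hpb
        exact hpa (hC.dc.down' hpb ((hmem a).1 (List.mem_append_right _ ha)) hab.lt)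
      obtain ⟨n, hn, hT⟩ := ih _ (hk ▸ card_sdiff_lt hC hXne) hL' rfl
      exact ⟨n + 1, by omega, T.cons X C n hXne hC hT⟩

/-- listing a down-chain of an upper set -/
lemma DownChain.exists_list {X C : Finset α} (hX : IsUpperSet (X : Set α)) (h : DownChain X C) :
    ∃ l : List α, l.Nodup ∧ (∀ x, x ∈ l ↔ x ∈ C) ∧ l.Pairwise (· < ·) ∧ l.IsChain (· ⋖ ·) := by
  obtain ⟨k, hk⟩ : ∃ k, C.card = k := ⟨_, rfl⟩
  induction k generalizing X C with
  | zero =>
    rw [Finset.card_eq_zero] at hk
    subst hk
    exact ⟨[], by simp, by simp, by simp, by simp⟩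
  | succ k ih =>
    have hne : C.Nonempty := by
      rw [← Finset.card_pos]; omega
    obtain ⟨m, hm⟩ := C.exists_minimal hne
    have hmin : ∀ x ∈ C, x ≠ m → m < x := by
      intro x hx hxm
      rcases h.total hm.1 hx with h1 | h1
      · exact lt_of_le_of_ne h1 (Ne.symm hxm)
      · exact absurd (le_antisymm h1 (hm.2 hx h1)) hxm
    have hminX : ∀ w ∈ X, ¬ w < m := by
      intro w hw hwm
      have := hm.2 (h.down' hm.1 hw hwm) hwm.le
      exact absurd (lt_of_lt_of_le hwm this) (lt_irrefl _)
    have hX' : IsUpperSet ((X.erase m : Finset α) : Set α) := by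
      intro a b hab ha
      simp only [Finset.coe_erase, Set.mem_sdiff, Finset.mem_coe, Set.mem_singleton_iff] at ha ⊢
      refine ⟨hX hab ha.1, ?_⟩
      rintro rfl
      rcases hab.eq_or_lt with h1 | h1
      · exact ha.2 h1
      · exact hminX a ha.1 h1
    have hC' : DownChain (X.erase m) (C.erase m) := by
      refine DownChain.mk' ?_ ?_ ?_
      · exact Finset.erase_subset_erase m h.sub
      · intro x hx y hy
        exact h.total (Finset.mem_of_mem_erase hx) (Finset.mem_of_mem_erase hy)
      · intro x hx w hw hwx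
        rw [Finset.mem_erase] at hw ⊢
        exact ⟨hw.1, h.down' (Finset.mem_of_mem_erase hx) hw.2 hwx⟩
    obtain ⟨l, h1, h2, h3, h4⟩ := ih hX' hC' (by rw [Finset.card_erase_of_mem hm.1]; omega)
    refine ⟨m :: l, ?_, ?_, ?_, ?_⟩
    · rw [List.nodup_cons]
      exact ⟨fun hml => by simpa using (h2 m).1 hml, h1⟩
    · intro x
      rw [List.mem_cons, h2 x, Finset.mem_erase]
      constructor
      · rintro (rfl | h5)
        · exact hm.1
        · exact h5.2
      · intro hx
        by_cases hxm : x = m
        · exact Or.inl hxm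
        · exact Or.inr ⟨hxm, hx⟩
    · rw [List.pairwise_cons]
      refine ⟨fun x hx => ?_, h3⟩
      have := (h2 x).1 hx
      rw [Finset.mem_erase] at this
      exact hmin x this.2 this.1
    · cases l with
      | nil => simp
      | cons y l =>
        rw [List.isChain_cons_cons]
        refine ⟨?_, h4⟩
        have hy := (h2 y).1 (by simp)
        rw [Finset.mem_erase] at hy
        refine ⟨hmin y hy.2 hy.1, fun z hmz hzy => ?_⟩
        have hzX : z ∈ X := hX hmz.le (h.sub hm.1)
        have hzC : z ∈ C := h.down' hy.2 hzX hzy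
        have hzl : z ∈ y :: l := (h2 z).2 (Finset.mem_erase.2 ⟨hmz.ne', hzC⟩)
        rcases List.mem_cons.1 hzl with rfl | hzl
        · exact lt_irrefl _ hzy
        · rw [List.pairwise_cons] at h3
          exact lt_asymm hzy (h3.1 z hzl)

lemma upper_sdiff {X C : Finset α} (hX : IsUpperSet (X : Set α)) (h : DownChain X C) :
    IsUpperSet ((X \ C : Finset α) : Set α) := by
  intro a b hab ha
  simp only [Finset.coe_sdiff, Set.mem_sdiff, Finset.mem_coe] at ha ⊢
  exact ⟨hX hab ha.1, fun hb => ha.2 (h.down b hb a ha.1 hab)⟩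

/-- Every run yields a linear extension which is at most as costly. -/
lemma linExt_of_T {X : Finset α} {n : ℕ} (h : T X n) : IsUpperSet (X : Set α) →
    ∃ L, LinExtOn X L ∧ blocks L ≤ n := by
  induction h with
  | nil => exact fun _ => ⟨[], ⟨by simp, by simp, by simp⟩, by simp [blocks]⟩
  | cons X C n hne hC _ ih =>
    intro hX
    obtain ⟨L, ⟨hL1, hL2, hL3⟩, hb⟩ := ih (upper_sdiff hX hC.dc)
    obtain ⟨l, h1, h2, h3, h4⟩ := hC.dc.exists_list hX
    refine ⟨l ++ L, ⟨?_, ?_, ?_⟩, ?_⟩
    · rw [List.nodup_append]
      refine ⟨h1, hL1, ?_⟩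
      intro a ha b hb hab
      subst hab
      exact (Finset.mem_sdiff.1 ((hL2 a).1 hb)).2 ((h2 a).1 ha)
    · intro x
      rw [List.mem_append, h2, hL2, Finset.mem_sdiff]
      constructor
      · rintro (h5 | h5)
        · exact hC.dc.sub h5
        · exact h5.1
      · intro hx
        by_cases hxC : x ∈ C
        · exact Or.inl hxC
        · exact Or.inr ⟨hx, hxC⟩
    · rw [List.pairwise_append]
      refine ⟨h3.imp (fun h5 h6 => lt_asymm h5 h6), hL3, ?_⟩
      intro a ha b hb hba
      have hb' := Finset.mem_sdiff.1 ((hL2 b).1 hb)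
      exact hb'.2 (hC.dc.down' ((h2 a).1 ha) hb'.1 hba)
    · have := blocks_chain_append l L h4
      omega

lemma isUpperSet_univ' [Fintype α] : IsUpperSet ((univ : Finset α) : Set α) := by
  intro a b _ _; simp

/-- `σ + 1` is attained by a run, and bounds all runs from below. -/
lemma sigma_spec [Fintype α] [Nonempty α] :
    T (univ : Finset α) (sigma α + 1) ∧ ∀ n, T (univ : Finset α) n → sigma α + 1 ≤ n := by
  have hlow : ∀ n, T (univ : Finset α) n → sigma α + 1 ≤ n := by
    intro n hn
    obtain ⟨L, hL, hb⟩ := linExt_of_T hn isUpperSet_univ'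
    have hL0 : L ≠ [] := by
      obtain ⟨x⟩ := ‹Nonempty α›
      intro h
      subst h
      have := (hL.2.1 x).2 (Finset.mem_univ x)
      simp at this
    rw [blocks_eq L hL0] at hb
    have : sigma α ≤ jumps L := Nat.sInf_le ⟨L, hL, rfl⟩
    omega
  refine ⟨?_, hlow⟩
  have hne : {n | ∃ L : List α, LinExtOn univ L ∧ jumps L = n}.Nonempty := by
    obtain ⟨n, hn⟩ := T_exists (univ : Finset α)
    obtain ⟨L, hL, _⟩ := linExt_of_T hn isUpperSet_univ'
    exact ⟨_, L, hL, rfl⟩
  obtain ⟨L, hL, hj⟩ := Nat.sInf_mem hne
  obtain ⟨n, hn, hT⟩ := T_of_linExt hL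
  have hL0 : L ≠ [] := by
    obtain ⟨x⟩ := ‹Nonempty α›
    intro h
    subst h
    have := (hL.2.1 x).2 (Finset.mem_univ x)
    simp at this
  rw [blocks_eq L hL0, hj] at hn
  have h1 := hlow n hT
  have h2 : n = sigma α + 1 := le_antisymm hn h1
  rw [← h2]; exact hT

theorem isGreedy_iff [Fintype α] : IsGreedy α ↔ AllEq (univ : Finset α) := by
  rcases isEmpty_or_nonempty α with he | hne
  · have hu : (univ : Finset α) = ∅ := Finset.univ_eq_empty
    constructor
    · intro _ n m hn hm
      rw [hu] at hn hm
      rw [T_empty hn, T_empty hm]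
    · intro _ n hn
      have h0 : sigma α = 0 := by
        apply Nat.eq_zero_of_le_zero
        exact Nat.sInf_le ⟨[], ⟨by simp, fun x => (he.false x).elim, by simp⟩, rfl⟩
      rw [h0]
      rcases hn with _ | ⟨_, C, n, h1, _, _⟩
      · rfl
      · exfalso
        apply h1
        intro x
        exact (he.false x).elim
  · have hu : (univ : Finset α).Nonempty := Finset.univ_nonempty
    obtain ⟨hs1, hs2⟩ := sigma_spec (α := α)
    constructor
    · intro hg n m hn hm
      obtain ⟨C, n', _, _, rfl⟩ := T_cases hn hu
      obtain ⟨C', m', _, _, rfl⟩ := T_cases hm hu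
      rw [hg n' (T_run hn n' rfl), hg m' (T_run hm m' rfl)]
    · intro ha n hn
      have := ha _ _ (run_T hn hu) hs1
      omega

end GreedyJump
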