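import Pool.Agent.GreedyJump.FO
import Pool.Agent.Work.MP_02c6ed_co.Defs

/-!
The definitions for finite sets and those for sets agree.
-/

open Finset FirstOrder

namespace GreedyJump

open Pool.Agent.Work.MP_02c6ed_co (IsGreedyChain CoversIn IsLinExt jumpNumber)

variable {α : Type} [PartialOrder α]

lemma chain_set_iff {Q C : Finset α} :
    DownChain Q C ↔ ((C : Set α) ⊆ Q ∧ IsChain (· ≤ ·) (C : Set α) ∧
      ∀ x ∈ (C : Set α), ∀ z ∈ (Q : Set α), z ≤ x → z ∈ (C : Set α)) := by
  constructor
  · intro h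
    exact ⟨by exact_mod_cast h.sub, h.chain, fun x hx z hz hzx => h.down x hx z hz hzx⟩
  · rintro ⟨h1, h2, h3⟩
    exact ⟨by exact_mod_cast h1, h2, fun x hx z hz hzx => h3 x hx z hz hzx⟩

lemma greedy_set_iff {Q C : Finset α} :
    IsGreedyChain (Q : Set α) (C : Set α) ↔ GreedyChain Q C := by
  unfold IsGreedyChain GreedyChain
  constructor
  · rintro ⟨h1, h2⟩
    refine ⟨chain_set_iff.2 h1, fun C' hC' hCC' => ?_⟩
    have := h2 (chain_set_iff.1 hC') (by exact_mod_cast hCC')
    exact Finset.Subset.antisymm (by exact_mod_cast this) hCC'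
  · rintro ⟨h1, h2⟩
    refine ⟨chain_set_iff.1 h1, fun S hS hCS => ?_⟩
    have hfin : S.Finite := Q.finite_toSet.subset hS.1
    have hS' : ((hfin.toFinset : Finset α) : Set α) = S := hfin.coe_toFinset
    rw [← hS'] at hS hCS ⊢
    have := h2 hfin.toFinset (chain_set_iff.2 hS) (by exact_mod_cast hCS)
    rw [this]

variable [DecidableEq α]

lemma run_set_of {Q : Finset α} {n : ℕ} (h : Run Q n) :
    Pool.Agent.Work.MP_02c6ed_co.Run (Q : Set α) n := by
  induction h with
  | stop Q h => exact Pool.Agent.Work.MP_02c6ed_co.Run.stop h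
  | step Q C n h1 h2 _ ih =>
    refine Pool.Agent.Work.MP_02c6ed_co.Run.step h1 (greedy_set_iff.2 h2) ?_
    rwa [Finset.coe_sdiff] at ih

lemma run_of_set {S : Set α} {n : ℕ} (h : Pool.Agent.Work.MP_02c6ed_co.Run S n) :
    ∀ Q : Finset α, (Q : Set α) = S → Run Q n := by
  induction h with
  | stop h => rintro Q rfl; exact Run.stop Q h
  | @step S C n h1 h2 _ ih =>
    rintro Q rfl
    have hsub : C ⊆ (Q : Set α) := h2.1.1
    have hfin : C.Finite := Q.finite_toSet.subset hsub
    have hC' : ((hfin.toFinset : Finset α) : Set α) = C := hfin.coe_toFinset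
    rw [← hC'] at h2
    refine Run.step Q hfin.toFinset n h1 (greedy_set_iff.1 h2) (ih _ ?_)
    rw [Finset.coe_sdiff, hC']

lemma jumps_eq_aux (L : List α) :
    Pool.Agent.Work.MP_02c6ed_co.jumps (Set.univ : Set α) L = jumps L := by
  classical
  have hc : ∀ x y : α, CoversIn (Set.univ : Set α) x y ↔ x ⋖ y := by
    intro x y
    exact ⟨fun h => ⟨h.1, fun z h1 h2 => h.2 z trivial h1 h2⟩,
      fun h => ⟨h.1, fun z _ h1 h2 => h.2 h1 h2⟩⟩
  induction L with
  | nil => rfl
  | cons x l ih =>
    cases l with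
    | nil => rfl
    | cons y l =>
      unfold Pool.Agent.Work.MP_02c6ed_co.jumps at ih ⊢
      simp only [List.tail_cons, List.zip_cons_cons, List.countP_cons, jumps, hc] at ih ⊢
      rw [← ih]
      by_cases h : x ⋖ y
      · simp [h]
      · simp [h]; omega

variable [Fintype α]

lemma jumpNumber_eq : jumpNumber (Set.univ : Set α) = sigma α := by
  unfold jumpNumber sigma
  congr 1
  ext k
  simp only [Set.mem_setOf_eq, IsLinExt, LinExtOn, jumps_eq_aux, Set.mem_univ, Finset.mem_univ]

/-- **The two definitions agree.** -/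
theorem isGreedy_set_iff :
    Pool.Agent.Work.MP_02c6ed_co.IsGreedy (Set.univ : Set α) ↔ IsGreedy α := by
  unfold Pool.Agent.Work.MP_02c6ed_co.IsGreedy IsGreedy
  rw [jumpNumber_eq]
  constructor
  · intro h n hn
    refine h n ?_
    have := run_set_of hn
    rwa [Finset.coe_univ] at this
  · intro h n hn
    exact h n (run_of_set hn univ Finset.coe_univ)

attribute [local instance] Language.orderStructure

/-- No first-order sentence describes the greedy posets, even among the finite posets without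
four-element chains. -/
theorem no_sentence_set : ¬ ∃ ψ : Language.order.Sentence,
    ∀ (P : Type) [PartialOrder P] [Finite P], (∀ w x y z : P, w < x → x < y → ¬ y < z) →
      (P ⊨ ψ ↔ Pool.Agent.Work.MP_02c6ed_co.IsGreedy (Set.univ : Set P)) := by
  rintro ⟨ψ, hψ⟩
  apply no_sentence
  refine ⟨ψ, fun β _ _ _ h => ?_⟩
  rw [← isGreedy_set_iff]
  exact hψ β (fun w x y z h1 h2 h3 => h w x y z ⟨h1, h2, h3⟩)

end GreedyJump
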