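import Pool.Agent.GreedyJump.Basic

/-!
Local confluence of the greedy procedure.
-/

open Finset

namespace GreedyJump

set_option linter.unusedSectionVars false

variable {α : Type*} [PartialOrder α] [DecidableEq α]

/-- `X` is left by some partial run of the greedy procedure started at `X₀`. -/
inductive ReachFrom (X₀ : Finset α) : Finset α → Prop
  | base : ReachFrom X₀ X₀
  | step (X C : Finset α) : ReachFrom X₀ X → X.Nonempty → GreedyChain X C →
      ReachFrom X₀ (X \ C)

/-- After the removal of `C`, the rest of `C'` can be prolonged. -/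
def Ext (X C C' : Finset α) : Prop := ∃ y, Prolongs (X \ C) (C' \ C) y

/-- The local condition. -/
def Loc (X : Finset α) : Prop :=
  ∀ C C', GreedyChain X C → GreedyChain X C' → C ≠ C' → Ext X C C' → Ext X C' C

lemma AllEq.sdiff {X C : Finset α} (h : AllEq X) (hX : X.Nonempty) (hC : GreedyChain X C) :
    AllEq (X \ C) := by
  intro n m hn hm
  have := h _ _ (T.cons X C n hX hC hn) (T.cons X C m hX hC hm)
  omega

lemma AllEq.reach {X Y : Finset α} (h : AllEq X) (hY : ReachFrom X Y) : AllEq Y := by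
  induction hY with
  | base => exact h
  | step Z C _ hne hC ih => exact ih.sdiff hne hC

lemma ReachFrom.trans {X Y Z : Finset α} (h1 : ReachFrom X Y) (h2 : ReachFrom Y Z) :
    ReachFrom X Z := by
  induction h2 with
  | base => exact h1
  | step W C _ hne hC ih => exact ReachFrom.step W C ih hne hC

/-- the part of a greedy chain outside another one -/
lemma diff_downChain {X C C' : Finset α} (hC : GreedyChain X C) (hC' : GreedyChain X C') :
    DownChain (X \ C) (C' \ C) := by
  refine DownChain.mk' ?_ ?_ ?_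
  · exact Finset.sdiff_subset_sdiff hC'.dc.sub (Finset.Subset.refl _)
  · intro x hx y hy
    exact hC'.dc.total (Finset.mem_sdiff.1 hx).1 (Finset.mem_sdiff.1 hy).1
  · intro x hx w hw hwx
    rw [Finset.mem_sdiff] at hx hw ⊢
    exact ⟨hC'.dc.down' hx.1 hw.1 hwx, hw.2⟩

lemma diff_nonempty {X C C' : Finset α} (hC : GreedyChain X C) (hC' : GreedyChain X C')
    (hne : C ≠ C') : (C' \ C).Nonempty := by
  rw [Finset.sdiff_nonempty]
  intro hsub
  exact hne (hC'.2 C hC.dc hsub)

lemma union_sdiff_comm (X C C' : Finset α) :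
    (X \ C) \ (C' \ C) = (X \ C') \ (C \ C') := by
  ext x
  simp only [Finset.mem_sdiff, not_and, not_not]
  tauto

/-- Necessity of the local condition. -/
lemma AllEq.loc {X : Finset α} (h : AllEq X) : Loc X := by
  intro C C' hC hC' hne hExt
  by_contra hcon
  have hXne : X.Nonempty := by
    obtain ⟨x, hx⟩ := diff_nonempty hC hC' hne
    exact ⟨x, hC'.dc.sub (Finset.mem_sdiff.1 hx).1⟩
  have hD1 := diff_downChain hC hC'
  have hD2 := diff_downChain hC' hC
  have hG2 : GreedyChain (X \ C') (C \ C') := by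
    rw [greedy_iff]
    refine ⟨hD2, fun y hy => hcon ⟨y, hy⟩⟩
  obtain ⟨y, hy⟩ := hExt
  obtain ⟨E, hE1, hE2⟩ := (hD1.insert' hy).exists_greedy
  have hyE : y ∈ E := hE1 (Finset.mem_insert_self _ _)
  have hCE : C' \ C ⊆ E := (Finset.subset_insert _ _).trans hE1
  set R := (X \ C) \ (C' \ C) with hR
  have hR2 : R = (X \ C') \ (C \ C') := union_sdiff_comm X C C'
  -- F = E \ (C' \ C) is greedy in R
  have hltE : ∀ x ∈ E, x ∉ C' \ C → ∀ w ∈ C' \ C, w < x := by
    intro x hx hx' w hw
    rcases hE2.dc.total (hCE hw) hx with h1 | h1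
    · exact lt_of_le_of_ne h1 (fun h2 => hx' (h2 ▸ hw))
    · exact absurd (hD1.down w hw x (hE2.dc.sub hx) h1) hx'
  have hF : GreedyChain R (E \ (C' \ C)) := by
    rw [greedy_iff]
    refine ⟨DownChain.mk' ?_ ?_ ?_, ?_⟩
    · exact Finset.sdiff_subset_sdiff hE2.dc.sub (Finset.Subset.refl _)
    · intro x hx z hz
      exact hE2.dc.total (Finset.mem_sdiff.1 hx).1 (Finset.mem_sdiff.1 hz).1
    · intro x hx w hw hwx
      rw [Finset.mem_sdiff] at hx ⊢
      rw [hR, Finset.mem_sdiff] at hw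
      exact ⟨hE2.dc.down' hx.1 hw.1 hwx, hw.2⟩
    · rintro z ⟨h1, h2, h3, h4⟩
      rw [hR, Finset.mem_sdiff] at h1
      refine hE2.not_prolongs z ⟨h1.1, fun hz => h2 (Finset.mem_sdiff.2 ⟨hz, h1.2⟩), ?_, ?_⟩
      · intro w hw hwz
        by_cases hwC : w ∈ C' \ C
        · exact hCE hwC
        · exact (Finset.mem_sdiff.1 (h3 w (Finset.mem_sdiff.2 ⟨hw, hwC⟩) hwz)).1
      · intro w hw
        by_cases hwC : w ∈ C' \ C
        · have hyF : y ∈ E \ (C' \ C) := Finset.mem_sdiff.2 ⟨hyE, hy.2.1⟩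
          exact (hy.2.2.2 w hwC).trans (h4 y hyF)
        · exact h4 w (Finset.mem_sdiff.2 ⟨hw, hwC⟩)
  obtain ⟨n, hn⟩ := T_exists ((X \ C) \ E)
  have hXC : (X \ C).Nonempty := ⟨y, hy.1⟩
  have hRne : R.Nonempty := ⟨y, by rw [hR, Finset.mem_sdiff]; exact ⟨hy.1, hy.2.1⟩⟩
  have hRE : R \ (E \ (C' \ C)) = (X \ C) \ E := by
    ext x
    simp only [hR, Finset.mem_sdiff]
    constructor
    · rintro ⟨⟨h1, h2⟩, h3⟩
      exact ⟨h1, fun h4 => h3 ⟨h4, h2⟩⟩
    · rintro ⟨h1, h2⟩
      refine ⟨⟨h1, fun h3 => h2 (hCE (Finset.mem_sdiff.2 h3))⟩, fun h3 => h2 h3.1⟩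
  have hT1 : T X (n + 1 + 1) := T.cons X C _ hXne hC (T.cons _ E n hXC hE2 hn)
  have hTR : T R (n + 1) := T.cons R _ n hRne hF (by rw [hRE]; exact hn)
  have hXC' : (X \ C').Nonempty := by
    obtain ⟨x, hx⟩ := diff_nonempty hC' hC (Ne.symm hne)
    exact ⟨x, hD2.sub hx⟩
  have hT2 : T X (n + 1 + 1 + 1) :=
    T.cons X C' _ hXne hC' (T.cons _ _ _ hXC' hG2 (by rw [← hR2]; exact hTR))
  have := h _ _ hT1 hT2
  omega

/-- The configuration used for the sufficiency of the local condition. -/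
structure Pair (A B W : Finset α) : Prop where
  disjAB : Disjoint A B
  disjAW : Disjoint A W
  disjBW : Disjoint B W
  neA : A.Nonempty
  neB : B.Nonempty
  chA : DownChain (A ∪ B ∪ W) A
  chB : DownChain (A ∪ B ∪ W) B
  noA : ∀ x, ¬ Prolongs (A ∪ B ∪ W) A x
  noB : ∀ x, ¬ Prolongs (A ∪ B ∪ W) B x

/-- `A` can be prolonged by an element of `W` once `B` is away -/
def PExt (A B W : Finset α) : Prop :=
  ∃ x ∈ W, (∀ w ∈ W, ¬ w < x) ∧ ∀ w ∈ A, w < x

lemma Pair.symm {A B W : Finset α} (h : Pair A B W) : Pair B A W where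
  disjAB := h.disjAB.symm
  disjAW := h.disjBW
  disjBW := h.disjAW
  neA := h.neB
  neB := h.neA
  chA := by rw [Finset.union_comm B A]; exact h.chB
  chB := by rw [Finset.union_comm B A]; exact h.chA
  noA := by rw [Finset.union_comm B A]; exact h.noB
  noB := by rw [Finset.union_comm B A]; exact h.noA

lemma Pair.dcA {A B W : Finset α} (h : Pair A B W) : DownChain (A ∪ W) A := by
  refine DownChain.mk' Finset.subset_union_left (fun x hx y hy => h.chA.total hx hy) ?_
  intro x hx w hw hwx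
  refine h.chA.down' hx ?_ hwx
  rcases Finset.mem_union.1 hw with h1 | h1
  · exact Finset.mem_union_left _ (Finset.mem_union_left _ h1)
  · exact Finset.mem_union_right _ h1

/-- the data of the inductive step -/
structure Cfg (A B W : Finset α) (x1 x2 : α) (G' G : Finset α) : Prop where
  pair : Pair A B W
  x1W : x1 ∈ W
  x1min : ∀ w ∈ W, ¬ w < x1
  x1A : ∀ a ∈ A, a < x1
  x2W : x2 ∈ W
  x2min : ∀ w ∈ W, ¬ w < x2
  x2B : ∀ b ∈ B, b < x2
  noc : ∀ z ∈ W, (∀ w ∈ W, ¬ w < z) → (∀ a ∈ A, a < z) → (∀ b ∈ B, b < z) → False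
  gG' : GreedyChain (B ∪ W) G'
  x1G' : x1 ∈ G'
  hG' : ∀ b ∈ B, b ∈ G' → b < x1
  gG : GreedyChain (A ∪ W) G
  x2G : x2 ∈ G
  hG : ∀ a ∈ A, a ∈ G → a < x2

lemma Cfg.symm {A B W : Finset α} {x1 x2 : α} {G' G : Finset α} (h : Cfg A B W x1 x2 G' G) :
    Cfg B A W x2 x1 G G' where
  pair := h.pair.symm
  x1W := h.x2W
  x1min := h.x2min
  x1A := h.x2B
  x2W := h.x1W
  x2min := h.x1min
  x2B := h.x1A
  noc := fun z h1 h2 h3 h4 => h.noc z h1 h2 h4 h3
  gG' := h.gG
  x1G' := h.x2G
  hG' := h.hG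
  gG := h.gG'
  x2G := h.x1G'
  hG := h.hG'

section cfg

variable {A B W : Finset α} {x1 x2 : α} {G' G : Finset α}

lemma Pair.not_mem_AW (h : Pair A B W) {x : α} (hx : x ∈ A) : x ∉ W :=
  Finset.disjoint_left.1 h.disjAW hx

lemma Pair.not_mem_BW (h : Pair A B W) {x : α} (hx : x ∈ B) : x ∉ W :=
  Finset.disjoint_left.1 h.disjBW hx

lemma Pair.not_mem_AB (h : Pair A B W) {x : α} (hx : x ∈ A) : x ∉ B :=
  Finset.disjoint_left.1 h.disjAB hx

/-- elements of `G' ∖ B` lie in `W` and above `x1` -/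
lemma Cfg.F1 (h : Cfg A B W x1 x2 G' G) {x : α} (hx : x ∈ G') (hxB : x ∉ B) :
    x ∈ W ∧ x1 ≤ x := by
  have hxW : x ∈ W := (Finset.mem_union.1 (h.gG'.dc.sub hx)).resolve_left hxB
  refine ⟨hxW, ?_⟩
  rcases h.gG'.dc.total hx h.x1G' with h1 | h1
  · rcases h1.eq_or_lt with h2 | h2
    · exact h2.ge
    · exact absurd h2 (h.x1min x hxW)
  · exact h1

lemma Cfg.x1B (h : Cfg A B W x1 x2 G' G) : x1 ∉ B := fun hb => h.pair.not_mem_BW hb h.x1W
lemma Cfg.x2A (h : Cfg A B W x1 x2 G' G) : x2 ∉ A := fun hb => h.pair.not_mem_AW hb h.x2W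
lemma Cfg.x1nA (h : Cfg A B W x1 x2 G' G) : x1 ∉ A := fun hb => h.pair.not_mem_AW hb h.x1W
lemma Cfg.x2nB (h : Cfg A B W x1 x2 G' G) : x2 ∉ B := fun hb => h.pair.not_mem_BW hb h.x2W

lemma Cfg.ne (h : Cfg A B W x1 x2 G' G) : x1 ≠ x2 := by
  intro e
  exact h.noc x1 h.x1W h.x1min h.x1A (e ▸ h.x2B)

/-- `G' ∖ B` and `G ∖ A` are disjoint -/
lemma Cfg.disj (h : Cfg A B W x1 x2 G' G) {x : α} (hx : x ∈ G') (hxB : x ∉ B) (hx' : x ∈ G)
    (hxA : x ∉ A) : False := by
  obtain ⟨hW, h1⟩ := h.F1 hx hxB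
  obtain ⟨-, h2⟩ := h.symm.F1 hx' hxA
  have h3 : x2 ∈ G' := h.gG'.dc.down x hx x2 (Finset.mem_union_right _ h.x2W) h2
  obtain ⟨-, h4⟩ := h.F1 h3 h.x2nB
  rcases h4.eq_or_lt with h5 | h5
  · exact h.ne h5
  · exact h.x2min x1 h.x1W h5

lemma Cfg.aF1 (h : Cfg A B W x1 x2 G' G) {x a : α} (hx : x ∈ G') (hxB : x ∉ B) (ha : a ∈ A) :
    a < x := (h.x1A a ha).trans_le (h.F1 hx hxB).2

/-- `A ∪ (G' ∖ B)` is a down-chain of `A ∪ W` -/
lemma Cfg.dcAF (h : Cfg A B W x1 x2 G' G) : DownChain (A ∪ W) (A ∪ (G' \ B)) := by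
  refine DownChain.mk' ?_ ?_ ?_
  · intro x hx
    rcases Finset.mem_union.1 hx with h1 | h1
    · exact Finset.mem_union_left _ h1
    · rw [Finset.mem_sdiff] at h1
      exact Finset.mem_union_right _ (h.F1 h1.1 h1.2).1
  · intro x hx y hy
    rw [Finset.mem_union, Finset.mem_sdiff] at hx hy
    rcases hx with hx | hx <;> rcases hy with hy | hy
    · exact h.pair.chA.total hx hy
    · exact Or.inl (h.aF1 hy.1 hy.2 hx).le
    · exact Or.inr (h.aF1 hx.1 hx.2 hy).le
    · exact h.gG'.dc.total hx.1 hy.1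
  · intro x hx w hw hwx
    rw [Finset.mem_union, Finset.mem_sdiff] at hx ⊢
    rcases hx with hx | hx
    · exact Or.inl (h.pair.dcA.down' hx hw hwx)
    · rcases Finset.mem_union.1 hw with h1 | h1
      · exact Or.inl h1
      · refine Or.inr ⟨h.gG'.dc.down' hx.1 (Finset.mem_union_right _ h1) hwx, ?_⟩
        exact fun hb => h.pair.not_mem_BW hb h1

/-- a prolongation of `A ∪ (G' ∖ B)` avoids `G` -/
lemma Cfg.prol_notG (h : Cfg A B W x1 x2 G' G) {x : α}
    (hx : Prolongs (A ∪ W) (A ∪ (G' \ B)) x) : x ∉ G := by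
  intro hxG
  obtain ⟨h1, h2, h3, h4⟩ := hx
  rw [Finset.mem_union, Finset.mem_sdiff] at h2
  push Not at h2
  obtain ⟨-, h5⟩ := h.symm.F1 hxG h2.1
  rcases h5.eq_or_lt with h6 | h6
  · subst h6
    exact h.noc x2 h.x2W h.x2min (fun a ha => h4 a (Finset.mem_union_left _ ha)) h.x2B
  · have := h3 x2 (Finset.mem_union_right _ h.x2W) h6
    rw [Finset.mem_union, Finset.mem_sdiff] at this
    rcases this with h7 | h7
    · exact h.x2A h7
    · exact h.disj h7.1 h7.2 h.x2G h.x2A

lemma Cfg.newPair (h : Cfg A B W x1 x2 G' G) :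
    Pair ((A \ G) ∪ (G' \ B)) ((B \ G') ∪ (G \ A)) ((W \ G') \ G) := by
  have key : ∀ {A B W : Finset α} {x1 x2 : α} {G' G : Finset α}, Cfg A B W x1 x2 G' G →
      DownChain (((A \ G) ∪ (G' \ B)) ∪ ((B \ G') ∪ (G \ A)) ∪ ((W \ G') \ G))
        ((A \ G) ∪ (G' \ B)) ∧
      ∀ x, ¬ Prolongs (((A \ G) ∪ (G' \ B)) ∪ ((B \ G') ∪ (G \ A)) ∪ ((W \ G') \ G))
        ((A \ G) ∪ (G' \ B)) x := by
    intro A B W x1 x2 G' G h
    refine ⟨DownChain.mk' ?_ ?_ ?_, ?_⟩
    · intro x hx
      exact Finset.mem_union_left _ (Finset.mem_union_left _ hx)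
    · intro x hx y hy
      have hx' : x ∈ A ∪ (G' \ B) := by
        rcases Finset.mem_union.1 hx with h1 | h1
        · exact Finset.mem_union_left _ (Finset.mem_sdiff.1 h1).1
        · exact Finset.mem_union_right _ h1
      have hy' : y ∈ A ∪ (G' \ B) := by
        rcases Finset.mem_union.1 hy with h1 | h1
        · exact Finset.mem_union_left _ (Finset.mem_sdiff.1 h1).1
        · exact Finset.mem_union_right _ h1
      exact h.dcAF.total hx' hy'
    · intro x hx w hw hwx
      simp only [Finset.mem_union, Finset.mem_sdiff] at hx hw ⊢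
      rcases hx with hx | hx
      · have hwZ : w ∈ A ∪ B ∪ W := by
          simp only [Finset.mem_union]
          rcases hw with (h1 | h1) | h1
          · rcases h1 with h1 | h1
            · exact Or.inl (Or.inl h1.1)
            · exact Or.inr (h.F1 h1.1 h1.2).1
          · rcases h1 with h1 | h1
            · exact Or.inl (Or.inr h1.1)
            · exact Or.inr (h.symm.F1 h1.1 h1.2).1
          · exact Or.inr h1.1.1
        have hwA : w ∈ A := h.pair.chA.down' hx.1 hwZ hwx
        rcases hw with (h1 | h1) | h1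
        · exact h1
        · rcases h1 with h1 | h1
          · exact absurd h1.1 (h.pair.not_mem_AB hwA)
          · exact absurd hwA h1.2
        · exact absurd h1.1.1 (h.pair.not_mem_AW hwA)
      · rcases hw with (h1 | h1) | h1
        · exact h1
        · exfalso
          rcases h1 with h1 | h1
          · exact h1.2 (h.gG'.dc.down' hx.1 (Finset.mem_union_left _ h1.1) hwx)
          · have hwW := (h.symm.F1 h1.1 h1.2).1
            have hwG' := h.gG'.dc.down' hx.1 (Finset.mem_union_right _ hwW) hwx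
            exact h.disj hwG' (fun hb => h.pair.not_mem_BW hb hwW) h1.1 h1.2
        · exact absurd (h.gG'.dc.down' hx.1 (Finset.mem_union_right _ h1.1.1) hwx) h1.1.2
    · rintro x ⟨h1, h2, h3, h4⟩
      simp only [Finset.mem_union, Finset.mem_sdiff] at h1 h2 h3 h4
      have hx1 : x1 < x := h4 x1 (Or.inr ⟨h.x1G', h.x1B⟩)
      refine h.gG'.not_prolongs x ⟨?_, ?_, ?_, ?_⟩
      · rw [Finset.mem_union]
        rcases h1 with (h5 | h5) | h5
        · exact absurd h5 h2
        · rcases h5 with h5 | h5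
          · exact Or.inl h5.1
          · exact Or.inr (h.symm.F1 h5.1 h5.2).1
        · exact Or.inr h5.1.1
      · intro hxG'
        by_cases hxB : x ∈ B
        · exact lt_asymm hx1 (h.hG' x hxB hxG')
        · exact h2 (Or.inr ⟨hxG', hxB⟩)
      · intro w hw hwx
        by_contra hwG'
        have hw1 : w ∉ A := by
          intro hwA
          rcases Finset.mem_union.1 hw with h5 | h5
          · exact h.pair.not_mem_AB hwA h5
          · exact h.pair.not_mem_AW hwA h5
        have hwA1 : ¬ ((w ∈ A ∧ w ∉ G) ∨ (w ∈ G' ∧ w ∉ B)) := by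
          rintro (h5 | h5)
          · exact hw1 h5.1
          · exact hwG' h5.1
        apply hwA1
        apply h3 w _ hwx
        rcases Finset.mem_union.1 hw with h5 | h5
        · exact Or.inl (Or.inr (Or.inl ⟨h5, hwG'⟩))
        · by_cases hwG : w ∈ G
          · exact Or.inl (Or.inr (Or.inr ⟨hwG, hw1⟩))
          · exact Or.inr ⟨⟨h5, hwG'⟩, hwG⟩
      · intro w hw
        by_cases hwB : w ∈ B
        · exact (h.hG' w hwB hw).trans hx1
        · exact h4 w (Or.inr ⟨hw, hwB⟩)
  obtain ⟨k1, k2⟩ := key h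
  obtain ⟨k3, k4⟩ := key h.symm
  have e : ((B \ G') ∪ (G \ A)) ∪ ((A \ G) ∪ (G' \ B)) ∪ ((W \ G) \ G') =
      ((A \ G) ∪ (G' \ B)) ∪ ((B \ G') ∪ (G \ A)) ∪ ((W \ G') \ G) := by
    ext x
    simp only [Finset.mem_union, Finset.mem_sdiff]
    tauto
  rw [e] at k3 k4
  refine ⟨?_, ?_, ?_, ?_, ?_, k1, k3, k2, k4⟩
  · rw [Finset.disjoint_left]
    intro x hx hx'
    simp only [Finset.mem_union, Finset.mem_sdiff] at hx hx'
    rcases hx with hx | hx <;> rcases hx' with hx' | hx'
    · exact h.pair.not_mem_AB hx.1 hx'.1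
    · exact hx'.2 hx.1
    · exact hx.2 hx'.1
    · exact h.disj hx.1 hx.2 hx'.1 hx'.2
  · rw [Finset.disjoint_left]
    intro x hx hx'
    simp only [Finset.mem_union, Finset.mem_sdiff] at hx hx'
    rcases hx with hx | hx
    · exact h.pair.not_mem_AW hx.1 hx'.1.1
    · exact hx'.1.2 hx.1
  · rw [Finset.disjoint_left]
    intro x hx hx'
    simp only [Finset.mem_union, Finset.mem_sdiff] at hx hx'
    rcases hx with hx | hx
    · exact h.pair.not_mem_BW hx.1 hx'.1.1
    · exact hx'.2 hx.1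
  · exact ⟨x1, by simp only [Finset.mem_union, Finset.mem_sdiff]; exact Or.inr ⟨h.x1G', h.x1B⟩⟩
  · exact ⟨x2, by simp only [Finset.mem_union, Finset.mem_sdiff]; exact Or.inr ⟨h.x2G, h.x2A⟩⟩

lemma Cfg.pext (h : Cfg A B W x1 x2 G' G) (lA : Loc (A ∪ W)) (lB : Loc (B ∪ W))
    (hP : PExt ((A \ G) ∪ (G' \ B)) ((B \ G') ∪ (G \ A)) ((W \ G') \ G)) :
    PExt ((B \ G') ∪ (G \ A)) ((A \ G) ∪ (G' \ B)) ((W \ G') \ G) := by
  by_contra hcon
  have hno : ∀ x, x ∈ W → x ∉ G' → x ∉ G → (∀ w, w ∈ W → w ∉ G' → w ∉ G → ¬ w < x) →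
      (∀ b ∈ B, b ∉ G' → b < x) → (∀ f ∈ G, f ∉ A → f < x) → False := by
    intro x h1 h2 h3 h4 h5 h6
    apply hcon
    refine ⟨x, ?_, ?_, ?_⟩
    · simp only [Finset.mem_sdiff]; exact ⟨⟨h1, h2⟩, h3⟩
    · intro w hw
      simp only [Finset.mem_sdiff] at hw
      exact h4 w hw.1.1 hw.1.2 hw.2
    · intro w hw
      simp only [Finset.mem_union, Finset.mem_sdiff] at hw
      rcases hw with hw | hw
      · exact h5 w hw.1 hw.2
      · exact h6 w hw.1 hw.2
  obtain ⟨x, hxW, hxmin, hxA⟩ := hP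
  simp only [Finset.mem_sdiff] at hxW
  -- B ∪ (G \ A) is greedy in B ∪ W
  have hBF : GreedyChain (B ∪ W) (B ∪ (G \ A)) := by
    rw [greedy_iff]
    refine ⟨h.symm.dcAF, fun y hy => ?_⟩
    have hyG' := h.symm.prol_notG hy
    obtain ⟨h1, h2, h3, h4⟩ := hy
    simp only [Finset.mem_union, Finset.mem_sdiff, not_or, not_and, not_not] at h1 h2 h3 h4
    have hyW : y ∈ W := h1.resolve_left h2.1
    have hyA : y ∉ A := fun ha => h.pair.not_mem_AW ha hyW
    refine hno y hyW hyG' (fun hG => hyA (h2.2 hG)) ?_ ?_ ?_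
    · intro w hw _ hwG hwy
      rcases h3 w (Or.inr hw) hwy with h5 | h5
      · exact h.pair.not_mem_BW h5 hw
      · exact hwG h5.1
    · intro b hb _
      exact h4 b (Or.inl hb)
    · intro f hf hfA
      exact h4 f (Or.inr ⟨hf, hfA⟩)
  by_cases hAF : GreedyChain (A ∪ W) (A ∪ (G' \ B))
  · have hne : G ≠ A ∪ (G' \ B) := by
      intro e
      have : x1 ∈ G := by
        rw [e]
        exact Finset.mem_union_right _ (Finset.mem_sdiff.2 ⟨h.x1G', h.x1B⟩)
      exact h.disj h.x1G' h.x1B this h.x1nA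
    have hE : Ext (A ∪ W) G (A ∪ (G' \ B)) := by
      refine ⟨x, ?_, ?_, ?_, ?_⟩
      · simp only [Finset.mem_sdiff, Finset.mem_union]
        exact ⟨Or.inr hxW.1.1, hxW.2⟩
      · simp only [Finset.mem_sdiff, Finset.mem_union, not_and, not_not]
        rintro (h1 | h1)
        · exact absurd hxW.1.1 (h.pair.not_mem_AW h1)
        · exact absurd h1.1 hxW.1.2
      · intro w hw hwx
        simp only [Finset.mem_sdiff, Finset.mem_union] at hw ⊢
        refine ⟨?_, hw.2⟩
        rcases hw.1 with h1 | h1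
        · exact Or.inl h1
        · by_cases hwG' : w ∈ G'
          · exact Or.inr ⟨hwG', fun hb => h.pair.not_mem_BW hb h1⟩
          · exact absurd hwx (hxmin w (by simp only [Finset.mem_sdiff]; exact ⟨⟨h1, hwG'⟩, hw.2⟩))
      · intro w hw
        simp only [Finset.mem_sdiff, Finset.mem_union] at hw
        apply hxA
        simp only [Finset.mem_sdiff, Finset.mem_union]
        rcases hw.1 with h1 | h1
        · exact Or.inl ⟨h1, hw.2⟩
        · exact Or.inr h1
    obtain ⟨y, h1, h2, h3, h4⟩ := lA G _ h.gG hAF hne hE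
    simp only [Finset.mem_sdiff, Finset.mem_union, not_or, not_and, not_not] at h1 h2 h3 h4
    have hyW : y ∈ W := h1.1.resolve_left h1.2.1
    have hyB : y ∉ B := fun hb => h.pair.not_mem_BW hb hyW
    have hyG : y ∉ G := fun hyG => h2 hyG h1.2.1 h1.2.2
    have hyG' : y ∉ G' := fun hg => hyB (h1.2.2 hg)
    refine hno y hyW hyG' hyG ?_ ?_ ?_
    · intro w hw hwG' hwG hwy
      have := h3 w ⟨Or.inr hw, ?_⟩ hwy
      · exact hwG this.1
      · exact ⟨fun ha => h.pair.not_mem_AW ha hw, fun hg => absurd hg hwG'⟩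
    · intro b hb _
      refine (h.x2B b hb).trans (h4 x2 ⟨h.x2G, h.x2A, ?_⟩)
      intro hx2
      exact absurd hx2 (fun hg => h.disj hg h.x2nB h.x2G h.x2A)
    · intro f hf hfA
      refine h4 f ⟨hf, hfA, ?_⟩
      intro hfG'
      by_contra hfB
      exact h.disj hfG' hfB hf hfA
  · have hx3 : ∃ x3, Prolongs (A ∪ W) (A ∪ (G' \ B)) x3 := by
      by_contra hc
      push Not at hc
      exact hAF (greedy_iff.2 ⟨h.dcAF, hc⟩)
    obtain ⟨x3, hp3⟩ := hx3
    have hx3G := h.prol_notG hp3
    obtain ⟨h1, h2, h3, h4⟩ := hp3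
    simp only [Finset.mem_union, Finset.mem_sdiff, not_or, not_and, not_not] at h1 h2 h3 h4
    have hx3W : x3 ∈ W := h1.resolve_left h2.1
    have hx3B : x3 ∉ B := fun hb => h.pair.not_mem_BW hb hx3W
    have hx3G' : x3 ∉ G' := fun hg => hx3B (h2.2 hg)
    have hne : B ∪ (G \ A) ≠ G' := by
      intro e
      have : x2 ∈ G' := by
        rw [← e]
        exact Finset.mem_union_right _ (Finset.mem_sdiff.2 ⟨h.x2G, h.x2A⟩)
      exact h.disj this h.x2nB h.x2G h.x2A
    have hE : Ext (B ∪ W) (B ∪ (G \ A)) G' := by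
      refine ⟨x3, ?_, ?_, ?_, ?_⟩
      · simp only [Finset.mem_sdiff, Finset.mem_union, not_or, not_and, not_not]
        exact ⟨Or.inr hx3W, hx3B, fun hg => absurd hg hx3G⟩
      · simp only [Finset.mem_sdiff, not_and]
        intro hg
        exact absurd hg hx3G'
      · intro w hw hwx
        simp only [Finset.mem_sdiff, Finset.mem_union, not_or, not_and, not_not] at hw ⊢
        have hwW : w ∈ W := hw.1.resolve_left hw.2.1
        have hwA : w ∉ A := fun ha => h.pair.not_mem_AW ha hwW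
        have := h3 w (Or.inr hwW) hwx
        rcases this with h5 | h5
        · exact absurd h5 hwA
        · exact ⟨h5.1, hw.2⟩
      · intro w hw
        simp only [Finset.mem_sdiff, Finset.mem_union, not_or] at hw
        exact h4 w (Or.inr ⟨hw.1, hw.2.1⟩)
    obtain ⟨x4, g1, g2, g3, g4⟩ := lB _ _ hBF h.gG' hne hE
    simp only [Finset.mem_union, Finset.mem_sdiff, not_and, not_not] at g1 g2 g3 g4
    have hx4 : ¬ (x4 ∈ B ∨ (x4 ∈ G ∧ x4 ∉ A)) := fun hh => g1.2 (g2 hh)
    push Not at hx4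
    have hx4W : x4 ∈ W := g1.1.resolve_left hx4.1
    have hx4A : x4 ∉ A := fun ha => h.pair.not_mem_AW ha hx4W
    refine hno x4 hx4W g1.2 (fun hg => hx4A (hx4.2 hg)) ?_ ?_ ?_
    · intro w hw hwG' hwG hwx
      have := g3 w ⟨Or.inr hw, hwG'⟩ hwx
      rcases this.1 with h5 | h5
      · exact h.pair.not_mem_BW h5 hw
      · exact hwG h5.1
    · intro b hb hbG'
      exact g4 b ⟨Or.inl hb, hbG'⟩
    · intro f hf hfA
      refine g4 f ⟨Or.inr ⟨hf, hfA⟩, fun hfG' => ?_⟩
      by_cases hfB : f ∈ B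
      · have hfW := (h.symm.F1 hf hfA).1
        exact h.pair.not_mem_BW hfB hfW
      · exact h.disj hfG' hfB hf hfA

lemma Cfg.sdiff_eq (h : Cfg A B W x1 x2 G' G) :
    (A ∪ W) \ G = ((A \ G) ∪ (G' \ B)) ∪ ((W \ G') \ G) := by
  ext x
  simp only [Finset.mem_union, Finset.mem_sdiff]
  constructor
  · rintro ⟨h1 | h1, h2⟩
    · exact Or.inl (Or.inl ⟨h1, h2⟩)
    · by_cases hx : x ∈ G'
      · exact Or.inl (Or.inr ⟨hx, fun hb => h.pair.not_mem_BW hb h1⟩)
      · exact Or.inr ⟨⟨h1, hx⟩, h2⟩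
  · rintro ((h1 | h1) | h1)
    · exact ⟨Or.inl h1.1, h1.2⟩
    · have hW := (h.F1 h1.1 h1.2).1
      exact ⟨Or.inr hW, fun hg => h.disj h1.1 h1.2 hg (fun ha => h.pair.not_mem_AW ha hW)⟩
    · exact ⟨Or.inr h1.1.1, h1.2⟩

end cfg

lemma union_greedy {A W F : Finset α} {z : α} (hd : Disjoint A W) (hA : DownChain (A ∪ W) A)
    (hF : GreedyChain W F) (hzF : z ∈ F) (hz : ∀ w ∈ W, ¬ w < z) (hAz : ∀ a ∈ A, a < z) :
    GreedyChain (A ∪ W) (A ∪ F) := by
  have hzx : ∀ x ∈ F, ∀ a ∈ A, a < x := by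
    intro x hx a ha
    rcases hF.dc.total hx hzF with h | h
    · rcases h.eq_or_lt with h1 | h1
      · rw [h1]; exact hAz a ha
      · exact absurd h1 (hz x (hF.dc.sub hx))
    · exact (hAz a ha).trans_le h
  rw [greedy_iff]
  refine ⟨DownChain.mk' ?_ ?_ ?_, ?_⟩
  · exact Finset.union_subset_union (Finset.Subset.refl _) hF.dc.sub
  · intro x hx y hy
    rcases Finset.mem_union.1 hx with hx | hx <;> rcases Finset.mem_union.1 hy with hy | hy
    · exact hA.total hx hy
    · exact Or.inl (hzx y hy x hx).le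
    · exact Or.inr (hzx x hx y hy).le
    · exact hF.dc.total hx hy
  · intro x hx w hw hwx
    rcases Finset.mem_union.1 hx with hx | hx
    · exact Finset.mem_union_left _ (hA.down' hx hw hwx)
    · rcases Finset.mem_union.1 hw with hw | hw
      · exact Finset.mem_union_left _ hw
      · exact Finset.mem_union_right _ (hF.dc.down' hx hw hwx)
  · rintro y ⟨h1, h2, h3, h4⟩
    rw [Finset.mem_union, not_or] at h2
    have hyW : y ∈ W := (Finset.mem_union.1 h1).resolve_left h2.1
    refine hF.not_prolongs y ⟨hyW, h2.2, ?_, ?_⟩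
    · intro w hw hwy
      refine (Finset.mem_union.1 (h3 w (Finset.mem_union_right _ hw) hwy)).resolve_left ?_
      exact fun ha => Finset.disjoint_left.1 hd ha hw
    · intro w hw
      exact h4 w (Finset.mem_union_right _ hw)

lemma union_sdiff_union {A W F : Finset α} (hd : Disjoint A W) : (A ∪ W) \ (A ∪ F) = W \ F := by
  ext x
  simp only [Finset.mem_union, Finset.mem_sdiff, not_or]
  constructor
  · rintro ⟨h1 | h1, h2, h3⟩
    · exact absurd h1 h2
    · exact ⟨h1, h3⟩
  · rintro ⟨h1, h2⟩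
    exact ⟨Or.inr h1, fun ha => Finset.disjoint_left.1 hd ha h1, h2⟩

theorem pair_eq {A B W : Finset α} (hp : Pair A B W) (he : PExt A B W ↔ PExt B A W)
    (hA : ∀ Y, ReachFrom (A ∪ W) Y → Loc Y ∧ AllEq Y)
    (hB : ∀ Y, ReachFrom (B ∪ W) Y → Loc Y ∧ AllEq Y) :
    ∀ n m, T (A ∪ W) n → T (B ∪ W) m → n = m := by
  obtain ⟨k, hk⟩ : ∃ k, W.card = k := ⟨_, rfl⟩
  induction k using Nat.strong_induction_on generalizing A B W with
  | _ k ih =>
    intro n m hn hm
    have hAne : (A ∪ W).Nonempty := hp.neA.mono Finset.subset_union_left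
    have hBne : (B ∪ W).Nonempty := hp.neB.mono Finset.subset_union_left
    have aA := (hA _ ReachFrom.base).2
    have aB := (hB _ ReachFrom.base).2
    by_cases h1 : PExt A B W
    · by_cases hz : ∃ z ∈ W, (∀ w ∈ W, ¬ w < z) ∧ (∀ a ∈ A, a < z) ∧ ∀ b ∈ B, b < z
      · obtain ⟨z, hzW, hz1, hz2, hz3⟩ := hz
        have hzd : DownChain W {z} := by
          refine DownChain.mk' (by simpa using hzW) ?_ ?_
          · intro x hx y hy
            rw [Finset.mem_singleton] at hx hy
            rw [hx, hy]; exact Or.inl le_rfl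
          · intro x hx w hw hwx
            rw [Finset.mem_singleton] at hx
            rw [hx] at hwx
            exact absurd hwx (hz1 w hw)
        obtain ⟨F, hzF, hF⟩ := hzd.exists_greedy
        rw [Finset.singleton_subset_iff] at hzF
        have g1 := union_greedy hp.disjAW hp.dcA hF hzF hz1 hz2
        have g2 := union_greedy hp.disjBW hp.symm.dcA hF hzF hz1 hz3
        obtain ⟨j, hj⟩ := T_exists (W \ F)
        have t1 : T (A ∪ W) (j + 1) :=
          T.cons _ _ _ hAne g1 (by rw [union_sdiff_union hp.disjAW]; exact hj)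
        have t2 : T (B ∪ W) (j + 1) :=
          T.cons _ _ _ hBne g2 (by rw [union_sdiff_union hp.disjBW]; exact hj)
        rw [aA _ _ hn t1, aB _ _ hm t2]
      · have h2 := he.1 h1
        obtain ⟨x1, x1W, x1min, x1A⟩ := h1
        obtain ⟨x2, x2W, x2min, x2B⟩ := h2
        -- the greedy chain G' of B ∪ W
        have build : ∀ {A B : Finset α} {x : α}, Pair A B W → x ∈ W → (∀ w ∈ W, ¬ w < x) →
            ∃ G, GreedyChain (B ∪ W) G ∧ x ∈ G ∧ ∀ b ∈ B, b ∈ G → b < x := by
          intro A B x hp hxW hxmin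
          classical
          have hK : DownChain (B ∪ W) (B.filter (· < x)) := by
            refine DownChain.mk' ?_ ?_ ?_
            · exact (Finset.filter_subset _ _).trans Finset.subset_union_left
            · intro a ha b hb
              exact hp.symm.dcA.total (Finset.mem_filter.1 ha).1 (Finset.mem_filter.1 hb).1
            · intro a ha w hw hwa
              rw [Finset.mem_filter] at ha ⊢
              exact ⟨hp.symm.dcA.down' ha.1 hw hwa, hwa.trans ha.2⟩
          have hpr : Prolongs (B ∪ W) (B.filter (· < x)) x := by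
            refine ⟨Finset.mem_union_right _ hxW, ?_, ?_, ?_⟩
            · intro h; exact lt_irrefl _ (Finset.mem_filter.1 h).2
            · intro w hw hwx
              rw [Finset.mem_filter]
              rcases Finset.mem_union.1 hw with h | h
              · exact ⟨h, hwx⟩
              · exact absurd hwx (hxmin w h)
            · intro w hw; exact (Finset.mem_filter.1 hw).2
          obtain ⟨G, hG1, hG2⟩ := (hK.insert' hpr).exists_greedy
          have hxG : x ∈ G := hG1 (Finset.mem_insert_self _ _)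
          refine ⟨G, hG2, hxG, ?_⟩
          intro b hb hbG
          rcases hG2.dc.total hbG hxG with h | h
          · rcases h.eq_or_lt with h | h
            · exact absurd hxW (hp.not_mem_BW (h ▸ hb))
            · exact h
          · exfalso
            have : x ∈ B := hp.symm.dcA.down b hb x (Finset.mem_union_right _ hxW) h
            exact hp.not_mem_BW this hxW
        obtain ⟨G', c1, c2, c3⟩ := build hp x1W x1min
        obtain ⟨G, d1, d2, d3⟩ := build hp.symm x2W x2min
        have hc : Cfg A B W x1 x2 G' G :=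
          { pair := hp, x1W := x1W, x1min := x1min, x1A := x1A, x2W := x2W, x2min := x2min,
            x2B := x2B, noc := fun z h1 h2 h3 h4 => hz ⟨z, h1, h2, h3, h4⟩, gG' := c1,
            x1G' := c2, hG' := c3, gG := d1, x2G := d2, hG := d3 }
        have lA := (hA _ ReachFrom.base).1
        have lB := (hB _ ReachFrom.base).1
        have eW : (W \ G) \ G' = (W \ G') \ G := by
          ext x; simp only [Finset.mem_sdiff]; tauto
        have he' : PExt ((A \ G) ∪ (G' \ B)) ((B \ G') ∪ (G \ A)) ((W \ G') \ G) ↔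
            PExt ((B \ G') ∪ (G \ A)) ((A \ G) ∪ (G' \ B)) ((W \ G') \ G) := by
          refine ⟨hc.pext lA lB, fun hh => ?_⟩
          have := hc.symm.pext lB lA
          rw [eW] at this
          exact this hh
        have e1 := hc.sdiff_eq
        have e2 := hc.symm.sdiff_eq
        rw [eW] at e2
        have r1 : ReachFrom (A ∪ W) ((A ∪ W) \ G) := ReachFrom.step _ _ ReachFrom.base hAne d1
        have r2 : ReachFrom (B ∪ W) ((B ∪ W) \ G') := ReachFrom.step _ _ ReachFrom.base hBne c1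
        obtain ⟨p, hpT⟩ := T_exists ((A ∪ W) \ G)
        obtain ⟨q, hqT⟩ := T_exists ((B ∪ W) \ G')
        have t1 : T (A ∪ W) (p + 1) := T.cons _ _ _ hAne d1 hpT
        have t2 : T (B ∪ W) (q + 1) := T.cons _ _ _ hBne c1 hqT
        have hlt : ((W \ G') \ G).card < k := by
          rw [← hk]
          apply Finset.card_lt_card
          refine ⟨fun z hz => ?_, fun hsub => ?_⟩
          · exact (Finset.mem_sdiff.1 (Finset.mem_sdiff.1 hz).1).1
          · have := hsub x1W
            exact (Finset.mem_sdiff.1 (Finset.mem_sdiff.1 this).1).2 c2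
        have hpq : p = q := by
          refine ih _ hlt hc.newPair he' ?_ ?_ rfl p q ?_ ?_
          · intro Y hY
            rw [← e1] at hY
            exact hA Y (r1.trans hY)
          · intro Y hY
            rw [← e2] at hY
            exact hB Y (r2.trans hY)
          · rw [← e1]; exact hpT
          · rw [← e2]; exact hqT
        rw [aA _ _ hn t1, aB _ _ hm t2, hpq]
    · have h2 : ¬ PExt B A W := fun h => h1 (he.2 h)
      have g : ∀ {A B : Finset α}, Pair A B W → ¬ PExt A B W → GreedyChain (A ∪ W) A := by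
        intro A B hp h
        rw [greedy_iff]
        refine ⟨hp.dcA, ?_⟩
        rintro y ⟨h1, h2, h3, h4⟩
        have hyW : y ∈ W := (Finset.mem_union.1 h1).resolve_left h2
        refine h ⟨y, hyW, ?_, h4⟩
        intro w hw hwy
        exact hp.not_mem_AW (h3 w (Finset.mem_union_right _ hw) hwy) hw
      have g1 := g hp h1
      have g2 := g hp.symm h2
      obtain ⟨j, hj⟩ := T_exists W
      have s1 : (A ∪ W) \ A = W := by
        rw [Finset.union_sdiff_cancel_left hp.disjAW]
      have s2 : (B ∪ W) \ B = W := by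
        rw [Finset.union_sdiff_cancel_left hp.disjBW]
      have t1 : T (A ∪ W) (j + 1) := T.cons _ _ _ hAne g1 (by rw [s1]; exact hj)
      have t2 : T (B ∪ W) (j + 1) := T.cons _ _ _ hBne g2 (by rw [s2]; exact hj)
      rw [aA _ _ hn t1, aB _ _ hm t2]

/-- **Local characterisation.** All runs from `X₀` use the same number of chains iff the local
condition holds at every set left by a partial run. -/
theorem allEq_iff_loc (X₀ : Finset α) : AllEq X₀ ↔ ∀ X, ReachFrom X₀ X → Loc X := by
  constructor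
  · intro h X hX
    exact (h.reach hX).loc
  · intro h
    obtain ⟨k, hk⟩ : ∃ k, X₀.card = k := ⟨_, rfl⟩
    induction k using Nat.strong_induction_on generalizing X₀ with
    | _ k ih =>
      have sub : ∀ C, GreedyChain X₀ C → X₀.Nonempty →
          ∀ Y, ReachFrom (X₀ \ C) Y → Loc Y ∧ AllEq Y := by
        intro C hC hne Y hY
        have hr : ReachFrom X₀ (X₀ \ C) := ReachFrom.step _ _ ReachFrom.base hne hC
        have h1 : AllEq (X₀ \ C) :=
          ih _ (hk ▸ card_sdiff_lt hC hne) (X₀ \ C) (fun Z hZ => h Z (hr.trans hZ)) rfl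
        exact ⟨h Y (hr.trans hY), h1.reach hY⟩
      intro n m hn hm
      rcases X₀.eq_empty_or_nonempty with rfl | hne
      · rw [T_empty hn, T_empty hm]
      obtain ⟨C, n', hC, hn', rfl⟩ := T_cases hn hne
      obtain ⟨C', m', hC', hm', rfl⟩ := T_cases hm hne
      by_cases hCC : C = C'
      · subst hCC
        have := (sub C hC hne _ ReachFrom.base).2 _ _ hn' hm'
        omega
      have l0 := h X₀ ReachFrom.base
      -- A = C' \ C, B = C \ C', W the rest
      set W := (X₀ \ C) \ (C' \ C) with hW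
      have eA : X₀ \ C = (C' \ C) ∪ W := by
        ext x
        simp only [hW, Finset.mem_union, Finset.mem_sdiff]
        constructor
        · rintro ⟨h1, h2⟩
          by_cases h3 : x ∈ C'
          · exact Or.inl ⟨h3, h2⟩
          · exact Or.inr ⟨⟨h1, h2⟩, fun h4 => h3 h4.1⟩
        · rintro (h1 | h1)
          · exact ⟨hC'.dc.sub h1.1, h1.2⟩
          · exact h1.1
      have eB : X₀ \ C' = (C \ C') ∪ W := by
        ext x
        simp only [hW, Finset.mem_union, Finset.mem_sdiff]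
        constructor
        · rintro ⟨h1, h2⟩
          by_cases h3 : x ∈ C
          · exact Or.inl ⟨h3, h2⟩
          · exact Or.inr ⟨⟨h1, h3⟩, fun h4 => h2 h4.1⟩
        · rintro (h1 | h1)
          · exact ⟨hC.dc.sub h1.1, h1.2⟩
          · refine ⟨h1.1.1, fun h2 => h1.2 ⟨h2, h1.1.2⟩⟩
      have pext_iff : ∀ {C C' : Finset α}, GreedyChain X₀ C → GreedyChain X₀ C' →
          W = (X₀ \ C) \ (C' \ C) → (PExt (C' \ C) (C \ C') W ↔ Ext X₀ C C') := by
        intro C C' hC hC' hW
        constructor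
        · rintro ⟨x, h1, h2, h3⟩
          rw [hW, Finset.mem_sdiff] at h1
          refine ⟨x, h1.1, h1.2, ?_, h3⟩
          intro w hw hwx
          by_contra hcon
          exact h2 w (by rw [hW, Finset.mem_sdiff]; exact ⟨hw, hcon⟩) hwx
        · rintro ⟨x, h1, h2, h3, h4⟩
          refine ⟨x, by rw [hW, Finset.mem_sdiff]; exact ⟨h1, h2⟩, ?_, h4⟩
          intro w hw hwx
          rw [hW, Finset.mem_sdiff] at hw
          exact hw.2 (h3 w hw.1 hwx)
      have hW' : W = (X₀ \ C') \ (C \ C') := by rw [hW, union_sdiff_comm]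
      have he : PExt (C' \ C) (C \ C') W ↔ PExt (C \ C') (C' \ C) W := by
        rw [pext_iff hC hC' hW, pext_iff hC' hC hW']
        exact ⟨l0 C C' hC hC' hCC, l0 C' C hC' hC (Ne.symm hCC)⟩
      have hpair : Pair (C' \ C) (C \ C') W := by
        have eZ : ∀ x, x ∈ (C' \ C) ∪ (C \ C') ∪ W ↔ x ∈ X₀ ∧ ¬ (x ∈ C ∧ x ∈ C') := by
          intro x
          simp only [hW, Finset.mem_union, Finset.mem_sdiff]
          have h1 : x ∈ C → x ∈ X₀ := fun h => hC.dc.sub h
          have h2 : x ∈ C' → x ∈ X₀ := fun h => hC'.dc.sub h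
          tauto
        have dA : ∀ {C C' Z : Finset α}, GreedyChain X₀ C → GreedyChain X₀ C' → C ≠ C' →
            (∀ x, x ∈ Z ↔ x ∈ X₀ ∧ ¬ (x ∈ C ∧ x ∈ C')) →
            DownChain Z (C' \ C) ∧ ∀ x, ¬ Prolongs Z (C' \ C) x := by
          intro C C' Z hC hC' hCC hZ
          refine ⟨DownChain.mk' ?_ ?_ ?_, ?_⟩
          · intro x hx
            rw [Finset.mem_sdiff] at hx
            exact (hZ x).2 ⟨hC'.dc.sub hx.1, fun h => hx.2 h.1⟩
          · intro x hx y hy
            exact hC'.dc.total (Finset.mem_sdiff.1 hx).1 (Finset.mem_sdiff.1 hy).1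
          · intro x hx w hw hwx
            rw [Finset.mem_sdiff] at hx ⊢
            have h1 := (hZ w).1 hw
            have h2 := hC'.dc.down' hx.1 h1.1 hwx
            exact ⟨h2, fun h => h1.2 ⟨h, h2⟩⟩
          · rintro x ⟨h1, h2, h3, h4⟩
            have hx := (hZ x).1 h1
            rw [Finset.mem_sdiff] at h2
            refine hC'.not_prolongs x ⟨hx.1, ?_, ?_, ?_⟩
            · intro hxC'
              exact h2 ⟨hxC', fun h => hx.2 ⟨h, hxC'⟩⟩
            · intro w hw hwx
              by_contra hwC'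
              have hwZ : w ∈ Z := (hZ w).2 ⟨hw, fun h => hwC' h.2⟩
              exact hwC' (Finset.mem_sdiff.1 (h3 w hwZ hwx)).1
            · intro w hw
              by_cases hwC : w ∈ C
              · obtain ⟨v, hv⟩ := diff_nonempty hC hC' hCC
                rw [Finset.mem_sdiff] at hv
                have hvx : v < x := h4 v (Finset.mem_sdiff.2 hv)
                rcases hC'.dc.total hw hv.1 with h5 | h5
                · exact h5.trans_lt hvx
                · exact absurd (hC.dc.down w hwC v (hC'.dc.sub hv.1) h5) hv.2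
              · exact h4 w (Finset.mem_sdiff.2 ⟨hw, hwC⟩)
        obtain ⟨p1, p2⟩ := dA hC hC' hCC eZ
        obtain ⟨p3, p4⟩ := dA hC' hC (Ne.symm hCC) (fun x => by rw [eZ x]; tauto)
        refine ⟨?_, ?_, ?_, diff_nonempty hC hC' hCC, diff_nonempty hC' hC (Ne.symm hCC),
          p1, p3, p2, p4⟩
        · rw [Finset.disjoint_left]
          intro x h1 h2
          exact (Finset.mem_sdiff.1 h1).2 (Finset.mem_sdiff.1 h2).1
        · rw [Finset.disjoint_left]
          intro x h1 h2
          rw [hW] at h2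
          exact (Finset.mem_sdiff.1 h2).2 h1
        · rw [Finset.disjoint_left]
          intro x h1 h2
          rw [hW'] at h2
          exact (Finset.mem_sdiff.1 h2).2 h1
      have := pair_eq hpair he (fun Y hY => sub C hC hne Y (by rw [eA]; exact hY))
        (fun Y hY => sub C' hC' hne Y (by rw [eB]; exact hY)) n' m'
        (by rw [← eA]; exact hn') (by rw [← eB]; exact hm')
      omega

end GreedyJump
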