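import Mathlib

/-!
Infinitary formulas with finitely many variables and counting quantifiers over partially ordered
sets.
-/

set_option autoImplicit false

namespace GreedyJump

/-- Formulas in the variables `0, ..., k - 1` over ordered sets: built from `i ≤ j` and `i = j` by
negation, conjunctions of arbitrary (also infinite) families and the counting quantifiers
`there are at least m values of variable i such that ...`. -/
inductive CountFormula (k : ℕ) : Type 1
  | le (i j : Fin k) : CountFormula k
  | eq (i j : Fin k) : CountFormula k
  | neg (φ : CountFormula k) : CountFormula k
  | conj (ι : Type) (φ : ι → CountFormula k) : CountFormula k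
  | atLeast (m : ℕ) (i : Fin k) (φ : CountFormula k) : CountFormula k

/-- Truth of a formula in the poset `P` under an assignment of the variables. -/
def CountFormula.Holds {k : ℕ} (P : Type) [PartialOrder P] :
    CountFormula k → (Fin k → P) → Prop
  | .le i j, v => v i ≤ v j
  | .eq i j, v => v i = v j
  | .neg φ, v => ¬ φ.Holds P v
  | .conj _ φ, v => ∀ i, (φ i).Holds P v
  | .atLeast m i φ, v =>
      ∃ s : Finset P, s.card = m ∧ ∀ p ∈ s, φ.Holds P (Function.update v i p)

end GreedyJump
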