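import Pool.Agent.GreedyJump.Flip
import Pool.Agent.GreedyJump.Bridge
import Pool.Agent.GreedyJump.CountDefs

/-!
No infinitary sentence with finitely many variables and counting quantifiers describes the greedy
posets: the systems of linear equations over the field with two elements of a complete graph.
-/

open Finset

namespace GreedyJump

set_option linter.unusedSectionVars false
set_option linter.constructorNameAsVariable false

variable {X : Type} [Fintype X] [DecidableEq X]

/-! ### The formulas -/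

/-- the clause `(v, α)` forbids the values `α` on the edges at `v` -/
def rcl (X : Type) [Fintype X] [DecidableEq X] : X × (X → Bool) → Finset (Sym2 X × Bool) :=
  fun i => (univ.erase i.1).image (fun w => (s(i.1, w), !(i.2 w)))

lemma mem_rcl {i : X × (X → Bool)} {l : Sym2 X × Bool} :
    l ∈ rcl X i ↔ ∃ w, w ≠ i.1 ∧ (s(i.1, w), !(i.2 w)) = l := by
  simp [rcl]

/-- a bit as an element of the field with two elements -/
def bit (b : Bool) : ZMod 2 := if b then 1 else 0

lemma bit_xor (a b : Bool) : bit (xor a b) = bit a + bit b := by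
  cases a <;> cases b <;> decide

/-- the parity of the values at `v` -/
def par (v : X) (α : X → Bool) : ZMod 2 := ∑ w ∈ univ.erase v, bit (α w)

lemma par_xor (v : X) (α β : X → Bool) : par v (fun w => xor (α w) (β w)) = par v α + par v β := by
  simp only [par, bit_xor, Finset.sum_add_distrib]

/-- the change of signs -/
def flipOf (F : Sym2 X → Bool) : Flip (rcl X) where
  σ i := (i.1, fun w => xor (i.2 w) (F s(i.1, w)))
  F := F
  inv i := by
    refine Prod.ext rfl ?_
    funext w
    simp
  mem i x b h := by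
    rw [mem_rcl] at h ⊢
    obtain ⟨w, h1, h2⟩ := h
    rw [Prod.mk.injEq] at h2
    refine ⟨w, h1, ?_⟩
    rw [← h2.1, ← h2.2]
    refine Prod.ext rfl ?_
    simp

/-- the boundary -/
def bd (F : Sym2 X → Bool) (v : X) : ZMod 2 := par v (fun w => F s(v, w))

lemma sum_bd (F : Sym2 X → Bool) : ∑ v, bd F v = 0 := by
  unfold bd par
  rw [Finset.sum_sigma']
  refine Finset.sum_involution (fun a _ => ⟨a.2, a.1⟩) ?_ ?_ ?_ ?_
  · intro a _
    change bit (F s(a.1, a.2)) + bit (F s(a.2, a.1)) = 0
    rw [show s(a.2, a.1) = s(a.1, a.2) from Sym2.eq_swap]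
    exact CharTwo.add_self_eq_zero _
  · intro a ha _ h
    simp only [Finset.mem_sigma, Finset.mem_erase] at ha
    have := congrArg Sigma.fst h
    exact ha.2.1 this
  · intro a ha
    simp only [Finset.mem_sigma, Finset.mem_univ, Finset.mem_erase, true_and, and_true] at ha ⊢
    exact Ne.symm ha
  · intro a _; rfl

/-- the kept clauses -/
def Keep (b : X → ZMod 2) (i : X × (X → Bool)) : Prop := par i.1 i.2 ≠ b i.1

/-- the posets -/
abbrev Pos (b : X → ZMod 2) : Type := Elt (subCl (Keep b) (rcl X))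

/-- the vertices of an element -/
def verts (x : Elt (rcl X)) : Finset X := (x.cls.map Prod.fst).toFinset

lemma card_verts (x : Elt (rcl X)) : (verts x).card ≤ 4 := by
  refine (List.toFinset_card_le _).trans ?_
  rw [List.length_map]
  exact length_cls x

lemma mem_verts {x : Elt (rcl X)} {i : X × (X → Bool)} (h : i ∈ x.cls) : i.1 ∈ verts x := by
  rw [verts, List.mem_toFinset, List.mem_map]
  exact ⟨i, h, rfl⟩

/-- change of signs of elements -/
def fl (F : Sym2 X → Bool) (x : Elt (rcl X)) : Elt (rcl X) := eltFlip (flipOf F) x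

lemma fl_fl (F : Sym2 X → Bool) (x : Elt (rcl X)) : fl F (fl F x) = x := eltFlip_flip _ _

lemma verts_fl (F : Sym2 X → Bool) (x : Elt (rcl X)) : verts (fl F x) = verts x := by
  unfold verts fl
  rw [cls_eltFlip, List.map_map]
  rfl

lemma keep_fl {b b' : X → ZMod 2} {F : Sym2 X → Bool} {x : Elt (rcl X)}
    (h : ∀ v ∈ verts x, b v + bd F v = b' v) (hx : ∀ i ∈ x.cls, Keep b i) :
    ∀ i ∈ (fl F x).cls, Keep b' i := by
  unfold fl
  rw [cls_eltFlip]
  intro i hi
  obtain ⟨j, hj, rfl⟩ := List.mem_map.1 hi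
  have h1 := hx j hj
  have h2 := h j.1 (mem_verts hj)
  unfold Keep at h1 ⊢
  change par j.1 (fun w => xor (j.2 w) (F s(j.1, w))) ≠ b' j.1
  rw [par_xor, ← h2]
  intro e
  exact h1 (add_right_cancel e)

/-- add an edge -/
def addE (F : Sym2 X → Bool) (u u' : X) : Sym2 X → Bool := fun z => xor (F z) (decide (z = s(u, u')))

lemma bd_addE (F : Sym2 X → Bool) {u u' : X} (h : u ≠ u') (v : X) :
    bd (addE F u u') v = bd F v + ((if v = u then 1 else 0) + (if v = u' then 1 else 0)) := by
  unfold bd addE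
  rw [par_xor]
  congr 1
  unfold par
  by_cases h1 : v = u
  · subst h1
    rw [if_pos rfl, if_neg h, add_zero]
    rw [Finset.sum_eq_single u']
    · simp [bit]
    · intro w hw hwu
      have : ¬ (s(v, w) = s(v, u')) := by
        rw [Sym2.eq_iff]
        rintro (⟨-, h2⟩ | ⟨h2, -⟩)
        · exact hwu h2
        · exact h h2
      simp [this, bit]
    · intro h2
      exact absurd (Finset.mem_erase.2 ⟨Ne.symm h, Finset.mem_univ _⟩) h2
  · by_cases h2 : v = u'
    · subst h2
      rw [if_neg h1, if_pos rfl, zero_add]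
      rw [Finset.sum_eq_single u]
      · have : s(v, u) = s(u, v) := Sym2.eq_swap
        simp [this, bit]
      · intro w hw hwu
        have : ¬ (s(v, w) = s(u, v)) := by
          rw [Sym2.eq_iff]
          rintro (⟨h2, -⟩ | ⟨-, h2⟩)
          · exact h1 h2
          · exact hwu h2
        simp [this, bit]
      · intro h2
        exact absurd (Finset.mem_erase.2 ⟨h, Finset.mem_univ _⟩) h2
    · rw [if_neg h1, if_neg h2, add_zero]
      refine Finset.sum_eq_zero (fun w _ => ?_)
      have : ¬ (s(v, w) = s(u, u')) := by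
        rw [Sym2.eq_iff]
        rintro (⟨h3, -⟩ | ⟨h3, -⟩)
        · exact h1 h3
        · exact h2 h3
      simp [this, bit]

lemma fl_addE {F : Sym2 X → Bool} {u u' : X} {x : Elt (rcl X)} (h1 : u ∉ verts x)
    (h2 : u' ∉ verts x) : fl (addE F u u') x = fl F x := by
  have key : ∀ i ∈ x.cls, ∀ w, addE F u u' s(i.1, w) = F s(i.1, w) := by
    intro i hi w
    have : ¬ (s(i.1, w) = s(u, u')) := by
      rw [Sym2.eq_iff]
      rintro (⟨h3, -⟩ | ⟨h3, -⟩)
      · exact h1 (h3 ▸ mem_verts hi)
      · exact h2 (h3 ▸ mem_verts hi)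
    simp [addE, this]
  refine eltFlip_congr _ _ _ (fun i hi => ⟨?_, ?_⟩)
  · refine Prod.ext rfl ?_
    funext w
    change xor (i.2 w) (addE F u u' s(i.1, w)) = xor (i.2 w) (F s(i.1, w))
    rw [key i hi w]
  · intro l hl
    obtain ⟨w, -, rfl⟩ := mem_rcl.1 hl
    exact key i hi w

/-! ### The game -/

/-- matching assignments -/
def CMatch (b b' : X → ZMod 2) {k : ℕ} (v : Fin k → Pos b) (w : Fin k → Pos b') : Prop :=
  ∃ (u : X) (F : Sym2 X → Bool), (∀ x, b x + bd F x = b' x + (if x = u then 1 else 0)) ∧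
    ∀ j, u ∉ verts (eltSub (v j)) ∧ eltSub (w j) = fl F (eltSub (v j))

lemma CMatch.symm {b b' : X → ZMod 2} {k : ℕ} {v : Fin k → Pos b} {w : Fin k → Pos b'}
    (h : CMatch b b' v w) : CMatch b' b w v := by
  obtain ⟨u, F, h1, h2⟩ := h
  refine ⟨u, F, fun x => ?_, fun j => ⟨?_, ?_⟩⟩
  · have h3 := h1 x
    generalize bd F x = c at *
    generalize (if x = u then (1 : ZMod 2) else 0) = d at *
    generalize b x = e at *
    generalize b' x = f at *
    revert c d e f
    decide
  · rw [(h2 j).2, verts_fl]; exact (h2 j).1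
  · rw [(h2 j).2, fl_fl]

/-- one move of the game -/
lemma CMatch.move {b b' : X → ZMod 2} {k : ℕ} {v : Fin k → Pos b} {w : Fin k → Pos b'}
    (h : CMatch b b' v w) (hX : 4 * k + 2 ≤ Fintype.card X) (i : Fin k) :
    ∃ h : Pos b → Pos b', Function.Injective h ∧
      ∀ a, CMatch b b' (Function.update v i a) (Function.update w i (h a)) := by
  obtain ⟨u, F, h1, h2⟩ := h
  have hk : 0 < k := Fin.pos i
  set T : Finset X := (univ.erase i).biUnion (fun j => verts (eltSub (v j))) with hT
  have hcard : T.card ≤ (k - 1) * 4 := by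
    have h3 := Finset.card_biUnion_le_card_mul (univ.erase i) (fun j => verts (eltSub (v j))) 4
      (fun j _ => card_verts _)
    rwa [Finset.card_erase_of_mem (Finset.mem_univ i), Finset.card_univ, Fintype.card_fin] at h3
  have hT' : ∀ j, j ≠ i → ∀ x ∈ verts (eltSub (v j)), x ∈ T := by
    intro j hj x hx
    exact Finset.mem_biUnion.2 ⟨j, Finset.mem_erase.2 ⟨hj, Finset.mem_univ _⟩, hx⟩
  have hpick : ∀ S : Finset X, ∃ u', S.card ≤ 4 → u' ∉ insert u (T ∪ S) := by
    intro S
    by_cases hS : S.card ≤ 4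
    · have h3 : (insert u (T ∪ S)).card < Fintype.card X := by
        have h4 := Finset.card_insert_le u (T ∪ S)
        have h5 := Finset.card_union_le T S
        omega
      obtain ⟨u', hu'⟩ := Finset.exists_mem_notMem_of_card_lt_card
        (s := insert u (T ∪ S)) (t := univ) (by rwa [Finset.card_univ])
      exact ⟨u', fun _ => hu'.2⟩
    · exact ⟨u, fun h => absurd h hS⟩
  choose g hg using hpick
  have hg1 : ∀ x : Elt (rcl X), g (verts x) ≠ u ∧ g (verts x) ∉ T ∧ g (verts x) ∉ verts x := by
    intro x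
    have h3 := hg _ (card_verts x)
    rw [Finset.mem_insert, Finset.mem_union] at h3
    push Not at h3
    exact ⟨h3.1, h3.2.1, h3.2.2⟩
  -- the bijection
  set H : Elt (rcl X) → Elt (rcl X) := fun x =>
    if u ∈ verts x then fl (addE F u (g (verts x))) x else fl F x with hH
  have H1 : ∀ x, verts (H x) = verts x := by
    intro x
    by_cases hx : u ∈ verts x
    · simp only [hH, if_pos hx, verts_fl]
    · simp only [hH, if_neg hx, verts_fl]
  have H2 : ∀ x, H (H x) = x := by
    intro x
    by_cases hx : u ∈ verts x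
    · have h3 : H x = fl (addE F u (g (verts x))) x := by simp only [hH, if_pos hx]
      have h4 : H (H x) = fl (addE F u (g (verts (H x)))) (H x) := by
        have : u ∈ verts (H x) := by rw [H1]; exact hx
        simp only [hH] at this ⊢
        rw [if_pos this]
      rw [h4, H1, h3, fl_fl]
    · have h3 : H x = fl F x := by simp only [hH, if_neg hx]
      have h4 : H (H x) = fl F (H x) := by
        have : u ∉ verts (H x) := by rw [H1]; exact hx
        simp only [hH] at this ⊢
        rw [if_neg this]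
      rw [h4, h3, fl_fl]
  have hF' : ∀ u' : X, u ≠ u' → ∀ x,
      b x + bd (addE F u u') x = b' x + (if x = u' then 1 else 0) := by
    intro u' hu' x
    rw [bd_addE F hu', ← add_assoc, h1 x]
    generalize (if x = u then (1 : ZMod 2) else 0) = d
    generalize (if x = u' then (1 : ZMod 2) else 0) = c
    generalize b' x = e
    revert c d e
    decide
  have H3 : ∀ x : Elt (rcl X), (∀ i ∈ x.cls, Keep b i) → ∀ i ∈ (H x).cls, Keep b' i := by
    intro x hx
    by_cases hxu : u ∈ verts x
    · have h3 : H x = fl (addE F u (g (verts x))) x := by simp only [hH, if_pos hxu]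
      rw [h3]
      refine keep_fl (fun y hy => ?_) hx
      rw [hF' _ (Ne.symm (hg1 x).1) y, if_neg, add_zero]
      rintro rfl
      exact (hg1 x).2.2 hy
    · have h3 : H x = fl F x := by simp only [hH, if_neg hxu]
      rw [h3]
      refine keep_fl (fun y hy => ?_) hx
      rw [h1 y, if_neg, add_zero]
      rintro rfl
      exact hxu hy
  have hex : ∀ a : Pos b, ∃ a' : Pos b', eltSub a' = H (eltSub a) := by
    intro a
    exact (exists_eltSub _).1 (H3 _ ((exists_eltSub _).2 ⟨a, rfl⟩))
  choose h hh using hex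
  refine ⟨h, ?_, ?_⟩
  · intro a a' e
    have h3 := hh a
    rw [e, hh a'] at h3
    have h4 := congrArg H h3
    rw [H2, H2] at h4
    exact (eltSub_inj h4).symm
  · intro a
    by_cases ha : u ∈ verts (eltSub a)
    · refine ⟨g (verts (eltSub a)), addE F u (g (verts (eltSub a))),
        hF' _ (Ne.symm (hg1 _).1), fun j => ?_⟩
      by_cases hj : j = i
      · subst hj
        simp only [Function.update_self]
        refine ⟨(hg1 _).2.2, ?_⟩
        rw [hh a]
        simp only [hH, if_pos ha]
      · simp only [Function.update_of_ne hj]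
        have h3 : g (verts (eltSub a)) ∉ verts (eltSub (v j)) :=
          fun h4 => (hg1 _).2.1 (hT' j hj _ h4)
        refine ⟨h3, ?_⟩
        rw [(h2 j).2, fl_addE (h2 j).1 h3]
    · refine ⟨u, F, h1, fun j => ?_⟩
      by_cases hj : j = i
      · subst hj
        simp only [Function.update_self]
        refine ⟨ha, ?_⟩
        rw [hh a]
        simp only [hH, if_neg ha]
      · simp only [Function.update_of_ne hj]
        exact h2 j

lemma CMatch.holds {k : ℕ} (hX : 4 * k + 2 ≤ Fintype.card X) (φ : CountFormula k) :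
    ∀ {b b' : X → ZMod 2} {v : Fin k → Pos b} {w : Fin k → Pos b'}, CMatch b b' v w →
      (φ.Holds (Pos b) v ↔ φ.Holds (Pos b') w) := by
  induction φ with
  | le i j =>
    rintro b b' v w ⟨u, F, -, h2⟩
    simp only [CountFormula.Holds]
    rw [← eltSub_le, ← eltSub_le (x := w i), (h2 i).2, (h2 j).2]
    exact (eltFlip_le _).symm
  | eq i j =>
    rintro b b' v w ⟨u, F, -, h2⟩
    simp only [CountFormula.Holds]
    rw [← eltSub_inj.eq_iff, ← eltSub_inj.eq_iff (a := w i), (h2 i).2, (h2 j).2]
    exact (eltFlip_inj _).eq_iff.symm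
  | neg φ ih =>
    intro b b' v w h
    simp only [CountFormula.Holds]
    rw [ih h]
  | conj ι φ ih =>
    intro b b' v w h
    simp only [CountFormula.Holds]
    exact forall_congr' fun i => ih i h
  | atLeast m i φ ih =>
    have one : ∀ {b b' : X → ZMod 2} {v : Fin k → Pos b} {w : Fin k → Pos b'}, CMatch b b' v w →
        (CountFormula.atLeast m i φ).Holds (Pos b) v →
        (CountFormula.atLeast m i φ).Holds (Pos b') w := by
      rintro b b' v w h ⟨s, hs, hs'⟩
      obtain ⟨f, hf, hf'⟩ := h.move hX i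
      refine ⟨s.map ⟨f, hf⟩, by rw [Finset.card_map, hs], fun p hp => ?_⟩
      obtain ⟨a, ha, rfl⟩ := Finset.mem_map.1 hp
      exact (ih (hf' a)).1 (hs' a ha)
    intro b b' v w h
    exact ⟨one h, one h.symm⟩

/-- the systems differ at one vertex -/
def Adj (b b' : X → ZMod 2) : Prop := ∃ x₀, ∀ x, b x + (if x = x₀ then 1 else 0) = b' x

lemma Adj.symm {b b' : X → ZMod 2} (h : Adj b b') : Adj b' b := by
  obtain ⟨x₀, h⟩ := h
  refine ⟨x₀, fun x => ?_⟩
  rw [← h x]
  generalize (if x = x₀ then (1 : ZMod 2) else 0) = c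
  generalize b x = e
  revert c e
  decide

lemma exists_cmatch {b b' : X → ZMod 2} (hb : Adj b b') {k : ℕ}
    (hX : 4 * k + 2 ≤ Fintype.card X) (v : Fin k → Pos b) :
    ∃ w : Fin k → Pos b', CMatch b b' v w := by
  obtain ⟨x₀, hx₀⟩ := hb
  set T : Finset X := univ.biUnion (fun j => verts (eltSub (v j))) with hT
  have hcard : T.card ≤ k * 4 := by
    have h3 := Finset.card_biUnion_le_card_mul univ (fun j => verts (eltSub (v j))) 4
      (fun j _ => card_verts _)
    rwa [Finset.card_univ, Fintype.card_fin] at h3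
  obtain ⟨u, hu⟩ : ∃ u, u ∉ insert x₀ T := by
    have h3 : (insert x₀ T).card < Fintype.card X := by
      have h4 := Finset.card_insert_le x₀ T
      omega
    obtain ⟨u', hu'⟩ := Finset.exists_mem_notMem_of_card_lt_card
      (s := insert x₀ T) (t := univ) (by rwa [Finset.card_univ])
    exact ⟨u', hu'.2⟩
  rw [Finset.mem_insert] at hu
  push Not at hu
  have hbd0 : ∀ x : X, bd (fun _ => false) x = 0 := by
    intro x
    simp [bd, par, bit]
  set F : Sym2 X → Bool := addE (fun _ => false) x₀ u with hF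
  have h1 : ∀ x, b x + bd F x = b' x + (if x = u then 1 else 0) := by
    intro x
    rw [hF, bd_addE _ (Ne.symm hu.1), hbd0, zero_add, ← add_assoc, hx₀ x]
  have hex : ∀ j, ∃ z : Pos b', eltSub z = fl F (eltSub (v j)) := by
    intro j
    refine (exists_eltSub _).1 (keep_fl (fun y hy => ?_) ((exists_eltSub _).2 ⟨v j, rfl⟩))
    rw [h1 y, if_neg, add_zero]
    rintro rfl
    exact hu.2 (Finset.mem_biUnion.2 ⟨j, Finset.mem_univ _, hy⟩)
  choose w hw using hex
  refine ⟨w, u, F, h1, fun j => ⟨fun h => hu.2 (Finset.mem_biUnion.2 ⟨j, Finset.mem_univ _, h⟩),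
    hw j⟩⟩

lemma count_stable {b b' : X → ZMod 2} (hb : Adj b b') {k : ℕ}
    (hX : 4 * k + 2 ≤ Fintype.card X) (φ : CountFormula k) :
    (∀ v, φ.Holds (Pos b) v) ↔ (∀ w, φ.Holds (Pos b') w) := by
  constructor
  · intro h w
    obtain ⟨v, hv⟩ := exists_cmatch hb.symm hX w
    exact (hv.holds hX φ).2 (h v)
  · intro h v
    obtain ⟨w, hw⟩ := exists_cmatch hb hX v
    exact (hw.holds hX φ).2 (h w)

/-! ### Satisfiability -/

lemma sat_zero : Sat (subCl (Keep (0 : X → ZMod 2)) (rcl X)) := by
  refine ⟨fun _ => false, ?_⟩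
  rintro ⟨⟨v, α⟩, h⟩
  unfold Keep at h
  simp only [Pi.zero_apply] at h
  obtain ⟨w, hw, hw'⟩ := Finset.exists_ne_zero_of_sum_ne_zero h
  refine ⟨(s(v, w), !(α w)), mem_rcl.2 ⟨w, (Finset.mem_erase.1 hw).1, rfl⟩, ?_⟩
  cases hα : α w
  · rw [hα] at hw'; exact absurd rfl hw'
  · rfl

lemma not_sat {b : X → ZMod 2} (hb : ∑ v, b v ≠ 0) : ¬ Sat (subCl (Keep b) (rcl X)) := by
  rintro ⟨τ, h⟩
  apply hb
  rw [← sum_bd τ]
  refine Finset.sum_congr rfl (fun v _ => ?_)
  by_contra hc
  obtain ⟨l, hl, hl'⟩ := h ⟨(v, fun w => τ s(v, w)), Ne.symm hc⟩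
  obtain ⟨w, -, rfl⟩ := mem_rcl.1 hl
  simp at hl'

lemma greedy_pos (h2 : 2 ≤ Fintype.card X) (b : X → ZMod 2) :
    Pool.Agent.Work.MP_02c6ed_co.IsGreedy (Set.univ : Set (Pos b)) ↔
      ¬ Sat (subCl (Keep b) (rcl X)) := by
  classical
  have : Nontrivial X := Fintype.one_lt_card_iff_nontrivial.1 h2
  obtain ⟨x, y, hxy⟩ := exists_pair_ne X
  have hne : Nonempty {i // Keep b i} := by
    by_cases hb : b x = 0
    · refine ⟨⟨(x, fun w => decide (w = y)), ?_⟩⟩
      unfold Keep
      simp only
      rw [hb]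
      have : par x (fun w => decide (w = y)) = 1 := by
        unfold par
        rw [Finset.sum_eq_single y]
        · simp [bit]
        · intro w _ hw; simp [hw, bit]
        · intro h
          exact absurd (Finset.mem_erase.2 ⟨Ne.symm hxy, Finset.mem_univ _⟩) h
      rw [this]; exact one_ne_zero
    · refine ⟨⟨(x, fun _ => false), ?_⟩⟩
      unfold Keep
      simp only
      have : par x (fun _ => false) = 0 := by simp [par, bit]
      rw [this]
      exact Ne.symm hb
  rw [isGreedy_set_iff, isGreedy_iff, allEq_iff_unsat]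
  rintro ⟨⟨v, α⟩, h⟩
  obtain ⟨w, hw⟩ := exists_ne v
  exact ⟨_, mem_rcl.2 ⟨w, hw, rfl⟩⟩

/-- **No infinitary sentence with finitely many variables and counting quantifiers describes the
greedy posets.** -/
theorem no_counting (k : ℕ) (φ : CountFormula k) :
    ¬ ∀ (P : Type) [PartialOrder P] [Finite P], (∀ w x y z : P, w < x → x < y → ¬ y < z) →
      ((∀ v : Fin k → P, φ.Holds P v) ↔
        Pool.Agent.Work.MP_02c6ed_co.IsGreedy (Set.univ : Set P)) := by
  intro h
  have hX : 4 * k + 2 ≤ Fintype.card (Fin (4 * k + 2)) := by rw [Fintype.card_fin]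
  have h4 : ∀ b : Fin (4 * k + 2) → ZMod 2, ∀ w x y z : Pos b, w < x → x < y → ¬ y < z :=
    fun b w x y z h1 h2 h3 => height_three w x y z ⟨h1, h2, h3⟩
  set x₀ : Fin (4 * k + 2) := ⟨0, by omega⟩ with hx₀
  set b' : Fin (4 * k + 2) → ZMod 2 := fun x => if x = x₀ then 1 else 0 with hb'
  have hadj : Adj (0 : Fin (4 * k + 2) → ZMod 2) b' := ⟨x₀, fun x => by simp [hb']⟩
  have h1 := (h (Pos (0 : Fin (4 * k + 2) → ZMod 2)) (h4 _)).trans
    (greedy_pos (by rw [Fintype.card_fin]; omega) _)
  have h2 := (h (Pos b') (h4 _)).trans (greedy_pos (by rw [Fintype.card_fin]; omega) _)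
  have h3 := count_stable hadj hX φ
  rw [h1, h2] at h3
  have hs : ∑ v, b' v ≠ 0 := by
    rw [hb', Finset.sum_ite_eq' univ x₀, if_pos (Finset.mem_univ _)]
    exact one_ne_zero
  exact h3.2 (not_sat hs) sat_zero

end GreedyJump
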