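import Pool.Agent.GreedyJump.Hard2

/-!
The size and the height of the encoding.
-/

open Finset

namespace GreedyJump

set_option linter.unusedSectionVars false
set_option linter.constructorNameAsVariable false

variable {V I : Type*} {cl : I → Finset (V × Bool)}

/-- occurrences as a sigma type -/
def occEquiv (cl : I → Finset (V × Bool)) : Occ cl ≃ Σ i, {l // l ∈ cl i} where
  toFun p := ⟨p.1.1, p.1.2, p.2⟩
  invFun p := ⟨(p.1, p.2.1), p.2.2⟩
  left_inv _ := rfl
  right_inv _ := rfl

instance [Finite I] : Finite (Occ cl) := by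
  exact Finite.of_equiv _ (occEquiv cl).symm

lemma card_occ [Fintype I] : Nat.card (Occ cl) = ∑ i, (cl i).card := by
  rw [Nat.card_congr (occEquiv cl), Nat.card_sigma]
  simp

/-- coordinates of an element -/
def code : Elt cl → (I ⊕ Unit) ⊕ ((Occ cl ⊕ Unit) ⊕
    ((Occ cl × Occ cl) ⊕ ((Occ cl × Occ cl) ⊕ ((Occ cl × Occ cl) × (Occ cl × Occ cl)))))
  | .a i => .inl (.inl i)
  | .s => .inl (.inr ())
  | .u p => .inr (.inl (.inl p))
  | .y => .inr (.inl (.inr ()))
  | .f (.pair p q _) => .inr (.inr (.inl (p, q)))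
  | .f (.tri p q _) => .inr (.inr (.inr (.inl (p, q))))
  | .f (.quad p q r t _) => .inr (.inr (.inr (.inr ((p, q), (r, t)))))

lemma code_inj : Function.Injective (code (cl := cl)) := by
  intro x y h
  rcases x with i | _ | p | _ | (⟨p, q, hg⟩ | ⟨p, q, hg⟩ | ⟨p, q, r, t, hg⟩) <;>
  rcases y with i' | _ | p' | _ | (⟨p', q', hg'⟩ | ⟨p', q', hg'⟩ | ⟨p', q', r', t', hg'⟩) <;>
  simp_all [code]

instance [Finite I] : Finite (Elt cl) := Finite.of_injective _ code_inj

noncomputable instance [Finite I] : Fintype (Elt cl) := Fintype.ofFinite _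

lemma card_elt_le [Fintype I] :
    Nat.card (Elt cl) ≤ Fintype.card I + 2 + (∑ i, (cl i).card) + 2 * (∑ i, (cl i).card) ^ 2 +
      (∑ i, (cl i).card) ^ 4 := by
  have h := Nat.card_le_card_of_injective _ (code_inj (cl := cl))
  rw [Nat.card_sum, Nat.card_sum, Nat.card_sum, Nat.card_sum, Nat.card_sum, Nat.card_sum,
    Nat.card_prod, Nat.card_prod, Nat.card_prod, card_occ] at h
  simp only [Nat.card_eq_fintype_card, Fintype.card_unit] at h ⊢
  refine h.trans (le_of_eq ?_)
  ring

/-- no four elements form a chain -/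
lemma height_three (w x y z : Elt cl) : ¬ (w < x ∧ x < y ∧ y < z) := by
  rintro ⟨h1, h2, h3⟩
  cases x with
  | a i => exact not_lt_a _ _ h1
  | s => exact not_lt_s _ h1
  | u p =>
    cases y with
    | a i => exact not_lt_a _ _ h2
    | s => exact not_lt_s _ h2
    | u p' => have := lt_u.1 h2; simp at this
    | y => exact not_y_lt _ h3
    | f g => exact not_f_lt _ _ h3
  | y => exact not_y_lt _ h2
  | f g => exact not_f_lt _ _ h2

end GreedyJump
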