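import Pool.Agent.GreedyJump.Height
import Pool.Agent.GreedyJump.Size

/-!
No first-order sentence describes the greedy posets.
-/

open Finset FirstOrder

namespace GreedyJump

set_option linter.unusedSectionVars false
set_option linter.constructorNameAsVariable false

/-! ### The formulas: a perfect matching of a finite set -/

/-- ordered pairs of distinct points -/
abbrev MV (X : Type) : Type := {p : X × X // p.1 ≠ p.2}

/-- the clauses -/
inductive MI (X : Type) : Type
  | one (i : X) : MI X
  | sym (p : MV X) : MI X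
  | inj (i j k : X) (h1 : i ≠ j) (h2 : i ≠ k) (h3 : j ≠ k) : MI X

/-- reversal of a pair -/
def MV.rev {X : Type} (p : MV X) : MV X := ⟨(p.1.2, p.1.1), p.2.symm⟩

/-- membership of literals in the clauses -/
def inCl {X : Type} : MI X → MV X → Bool → Prop
  | .one i, v, b => v.1.1 = i ∧ b = true
  | .sym p, v, b => (v = p ∧ b = false) ∨ (v = p.rev ∧ b = true)
  | .inj i j k _ _ _, v, b => b = false ∧ (v.1 = (i, j) ∨ v.1 = (i, k))

open Classical in
/-- the formula stating that `X` has a perfect matching -/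
noncomputable def mcl (X : Type) [Fintype X] : MI X → Finset (MV X × Bool) :=
  fun c => univ.filter (fun l => inCl c l.1 l.2)

lemma mem_mcl {X : Type} [Fintype X] (c : MI X) (l : MV X × Bool) :
    l ∈ mcl X c ↔ inCl c l.1 l.2 := by
  simp [mcl]

variable {X Y Z : Type}

def vmap (f : X ↪ Y) (v : MV X) : MV Y := ⟨(f v.1.1, f v.1.2), fun h => v.2 (f.injective h)⟩

def imap (f : X ↪ Y) : MI X → MI Y
  | .one i => .one (f i)
  | .sym p => .sym (vmap f p)
  | .inj i j k h1 h2 h3 => .inj (f i) (f j) (f k) (fun h => h1 (f.injective h))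
      (fun h => h2 (f.injective h)) (fun h => h3 (f.injective h))

lemma vmap_inj (f : X ↪ Y) {v w : MV X} : vmap f v = vmap f w ↔ v = w := by
  constructor
  · intro h
    have h1 := congrArg Subtype.val h
    simp only [vmap, Prod.mk.injEq] at h1
    exact Subtype.ext (Prod.ext (f.injective h1.1) (f.injective h1.2))
  · rintro rfl; rfl

lemma imap_inj (f : X ↪ Y) {c d : MI X} : imap f c = imap f d ↔ c = d := by
  constructor
  · intro h
    cases c with
    | one i =>
      cases d with
      | one j => simp only [imap, MI.one.injEq] at h; rw [f.injective h]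
      | _ => simp [imap] at h
    | sym p =>
      cases d with
      | sym q => simp only [imap, MI.sym.injEq, vmap_inj] at h; rw [h]
      | _ => simp [imap] at h
    | inj i j k h1 h2 h3 =>
      cases d with
      | inj i' j' k' _ _ _ =>
        simp only [imap, MI.inj.injEq] at h
        obtain ⟨e1, e2, e3⟩ := h
        have e1 := f.injective e1
        have e2 := f.injective e2
        have e3 := f.injective e3
        subst e1 e2 e3
        rfl
      | _ => simp [imap] at h
  · rintro rfl; rfl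

lemma vmap_rev (f : X ↪ Y) (v : MV X) : vmap f v.rev = (vmap f v).rev := rfl

lemma inCl_map (f : X ↪ Y) (c : MI X) (v : MV X) (b : Bool) :
    inCl (imap f c) (vmap f v) b ↔ inCl c v b := by
  cases c with
  | one i =>
    simp only [imap, inCl, vmap]
    rw [f.injective.eq_iff]
  | sym p =>
    simp only [imap, inCl]
    rw [← vmap_rev, vmap_inj, vmap_inj]
  | inj i j k _ _ _ =>
    simp only [imap, inCl, vmap, Prod.ext_iff]
    rw [f.injective.eq_iff, f.injective.eq_iff, f.injective.eq_iff]

section functor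

variable [Fintype X] [Fintype Y] [Fintype Z]

def occMap (f : X ↪ Y) (p : Occ (mcl X)) : Occ (mcl Y) :=
  ⟨(imap f p.1.1, (vmap f p.1.2.1, p.1.2.2)),
    (mem_mcl _ _).2 ((inCl_map f _ _ _).2 ((mem_mcl _ _).1 p.2))⟩

lemma occMap_inj (f : X ↪ Y) {p q : Occ (mcl X)} : occMap f p = occMap f q ↔ p = q := by
  constructor
  · intro h
    have h1 := congrArg Subtype.val h
    simp only [occMap, Prod.mk.injEq, imap_inj, vmap_inj] at h1
    exact Subtype.ext (Prod.ext h1.1 (Prod.ext h1.2.1 h1.2.2))
  · rintro rfl; rfl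

lemma occMap_opp (f : X ↪ Y) {p q : Occ (mcl X)} : Opp (occMap f p) (occMap f q) ↔ Opp p q := by
  unfold Opp
  change vmap f p.lit.1 = vmap f q.lit.1 ∧ p.lit.2 ≠ q.lit.2 ↔ _
  rw [vmap_inj]

lemma occMap_lit1 (f : X ↪ Y) {p q : Occ (mcl X)} :
    (occMap f p).lit.1 = (occMap f q).lit.1 ↔ p.lit.1 = q.lit.1 := by
  change vmap f p.lit.1 = vmap f q.lit.1 ↔ _
  rw [vmap_inj]

lemma occMap_lit (f : X ↪ Y) {p q : Occ (mcl X)} (h : p.lit = q.lit) :
    (occMap f p).lit = (occMap f q).lit := by
  change (vmap f p.lit.1, p.lit.2) = (vmap f q.lit.1, q.lit.2)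
  rw [h]

def gadMap (f : X ↪ Y) : Gad (mcl X) → Gad (mcl Y)
  | .pair p q h => .pair (occMap f p) (occMap f q)
      ⟨fun e => h.1 ((occMap_inj f).1 e), occMap_lit f h.2⟩
  | .tri p q h => .tri (occMap f p) (occMap f q) ((occMap_opp f).2 h)
  | .quad p q r t h => .quad (occMap f p) (occMap f q) (occMap f r) (occMap f t)
      ⟨(occMap_opp f).2 h.1, (occMap_opp f).2 h.2.1, fun e => h.2.2 ((occMap_lit1 f).1 e)⟩

lemma gadMap_inj (f : X ↪ Y) {g h : Gad (mcl X)} : gadMap f g = gadMap f h ↔ g = h := by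
  constructor
  · intro e
    cases g with
    | pair p q hg =>
      cases h with
      | pair p' q' _ =>
        have := Gad.pair.inj e
        rw [occMap_inj, occMap_inj] at this
        obtain ⟨rfl, rfl⟩ := this
        rfl
      | _ => simp [gadMap] at e
    | tri p q hg =>
      cases h with
      | tri p' q' _ =>
        have := Gad.tri.inj e
        rw [occMap_inj, occMap_inj] at this
        obtain ⟨rfl, rfl⟩ := this
        rfl
      | _ => simp [gadMap] at e
    | quad p q r t hg =>
      cases h with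
      | quad p' q' r' t' _ =>
        have := Gad.quad.inj e
        rw [occMap_inj, occMap_inj, occMap_inj, occMap_inj] at this
        obtain ⟨rfl, rfl, rfl, rfl⟩ := this
        rfl
      | _ => simp [gadMap] at e
  · rintro rfl; rfl

lemma gadMap_low (f : X ↪ Y) (g : Gad (mcl X)) (x : Option (Occ (mcl X))) :
    (gadMap f g).low (x.map (occMap f)) ↔ g.low x := by
  have hinj : Function.Injective (Option.map (occMap f)) :=
    Option.map_injective (fun p q h => (occMap_inj f).1 h)
  have h1 : ∀ p : Occ (mcl X), x.map (occMap f) = some (occMap f p) ↔ x = some p := by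
    intro p
    constructor
    · intro h
      exact hinj (h.trans rfl)
    · rintro rfl; rfl
  have h2 : x.map (occMap f) = none ↔ x = none := by simp
  cases g with
  | pair p q _ => simp only [gadMap, Gad.low, h1]
  | tri p q _ => simp only [gadMap, Gad.low, h1, h2]
  | quad p q r t _ => simp only [gadMap, Gad.low, h1]

def eltMapFun (f : X ↪ Y) : Elt (mcl X) → Elt (mcl Y)
  | .a i => .a (imap f i)
  | .s => .s
  | .u p => .u (occMap f p)
  | .y => .y
  | .f g => .f (gadMap f g)

lemma eltMapFun_inj (f : X ↪ Y) : Function.Injective (eltMapFun f) := by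
  intro x y h
  cases x <;> cases y <;> simp only [eltMapFun, Elt.a.injEq, Elt.u.injEq, Elt.f.injEq,
    imap_inj, occMap_inj, gadMap_inj, reduceCtorEq] at h ⊢ <;> exact h

lemma gad_low_cases (f : X ↪ Y) (g : Gad (mcl X)) (p : Occ (mcl Y))
    (h : (gadMap f g).low (some p)) : ∃ p' : Occ (mcl X), p = occMap f p' ∧ g.low (some p') := by
  cases g with
  | pair p₁ q₁ hg =>
    rcases h with h | h <;> rw [Option.some.injEq] at h
    · exact ⟨p₁, h, Or.inl rfl⟩
    · exact ⟨q₁, h, Or.inr rfl⟩
  | tri p₁ q₁ hg =>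
    rcases h with h | h | h
    · simp at h
    · rw [Option.some.injEq] at h
      exact ⟨p₁, h, Or.inr (Or.inl rfl)⟩
    · rw [Option.some.injEq] at h
      exact ⟨q₁, h, Or.inr (Or.inr rfl)⟩
  | quad p₁ q₁ r₁ t₁ hg =>
    rcases h with h | h | h | h <;> rw [Option.some.injEq] at h
    · exact ⟨p₁, h, Or.inl rfl⟩
    · exact ⟨q₁, h, Or.inr (Or.inl rfl)⟩
    · exact ⟨r₁, h, Or.inr (Or.inr (Or.inl rfl))⟩
    · exact ⟨t₁, h, Or.inr (Or.inr (Or.inr rfl))⟩

lemma eltMapFun_lt (f : X ↪ Y) (x y : Elt (mcl X)) :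
    Elt.lt (eltMapFun f x) (eltMapFun f y) ↔ Elt.lt x y := by
  cases x with
  | a i =>
    cases y with
    | a j => exact Iff.rfl
    | s => exact Iff.rfl
    | u p =>
      change imap f p.clause = imap f i ↔ _
      rw [imap_inj]; exact Iff.rfl
    | y => exact Iff.rfl
    | f g =>
      constructor
      · rintro ⟨p, h1, h2⟩
        obtain ⟨p', rfl, h3⟩ := gad_low_cases f g p h1
        exact ⟨p', h3, (imap_inj f).1 h2⟩
      · rintro ⟨p, h1, h2⟩
        refine ⟨occMap f p, (gadMap_low f g (some p)).2 h1, ?_⟩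
        change imap f p.clause = imap f i
        rw [h2]
  | s =>
    cases y with
    | f g => exact gadMap_low f g none
    | _ => exact Iff.rfl
  | u p =>
    cases y with
    | f g => exact gadMap_low f g (some p)
    | _ => exact Iff.rfl
  | y => cases y <;> exact Iff.rfl
  | f g => cases y <;> exact Iff.rfl

/-- the order embedding induced by an injection -/
def eltMap (f : X ↪ Y) : Elt (mcl X) ↪o Elt (mcl Y) where
  toFun := eltMapFun f
  inj' := eltMapFun_inj f
  map_rel_iff' := by
    intro x y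
    change (eltMapFun f x = eltMapFun f y ∨ Elt.lt (eltMapFun f x) (eltMapFun f y)) ↔
      (x = y ∨ Elt.lt x y)
    rw [eltMapFun_lt, (eltMapFun_inj f).eq_iff]

lemma vmap_trans (f : X ↪ Y) (g : Y ↪ Z) (v : MV X) :
    vmap (f.trans g) v = vmap g (vmap f v) := rfl

lemma imap_trans (f : X ↪ Y) (g : Y ↪ Z) (c : MI X) :
    imap (f.trans g) c = imap g (imap f c) := by
  cases c <;> rfl

lemma occMap_trans (f : X ↪ Y) (g : Y ↪ Z) (p : Occ (mcl X)) :
    occMap (f.trans g) p = occMap g (occMap f p) := by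
  apply Subtype.ext
  change (imap (f.trans g) p.1.1, (vmap (f.trans g) p.1.2.1, p.1.2.2)) = _
  rw [imap_trans, vmap_trans]; rfl

lemma eltMap_trans (f : X ↪ Y) (g : Y ↪ Z) (z : Elt (mcl X)) :
    eltMap (f.trans g) z = eltMap g (eltMap f z) := by
  change eltMapFun (f.trans g) z = eltMapFun g (eltMapFun f z)
  cases z with
  | a i => simp only [eltMapFun, imap_trans]
  | s => rfl
  | u p => simp only [eltMapFun, occMap_trans]
  | y => rfl
  | f g' => cases g' <;> simp only [eltMapFun, gadMap, occMap_trans]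

end functor

/-! ### Supports -/

section supp

variable [Fintype X] [Fintype Y] [DecidableEq Y]

def suppV (v : MV Y) : Finset Y := {v.1.1, v.1.2}

def suppI : MI Y → Finset Y
  | .one i => {i}
  | .sym p => suppV p
  | .inj i j k _ _ _ => {i, j, k}

def suppO (p : Occ (mcl Y)) : Finset Y := suppI p.1.1 ∪ suppV p.1.2.1

def suppG : Gad (mcl Y) → Finset Y
  | .pair p q _ => suppO p ∪ suppO q
  | .tri p q _ => suppO p ∪ suppO q
  | .quad p q r t _ => (suppO p ∪ suppO q) ∪ (suppO r ∪ suppO t)

def supp : Elt (mcl Y) → Finset Y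
  | .a i => suppI i
  | .s => ∅
  | .u p => suppO p
  | .y => ∅
  | .f g => suppG g

lemma card_suppV (v : MV Y) : (suppV v).card ≤ 2 := Finset.card_le_two

lemma card_suppI (c : MI Y) : (suppI c).card ≤ 3 := by
  cases c with
  | one i => simp [suppI]
  | sym p => exact (card_suppV p).trans (by norm_num)
  | inj i j k _ _ _ => exact Finset.card_le_three

lemma card_suppO (p : Occ (mcl Y)) : (suppO p).card ≤ 5 :=
  (Finset.card_union_le _ _).trans (Nat.add_le_add (card_suppI _) (card_suppV _))

lemma card_suppG (g : Gad (mcl Y)) : (suppG g).card ≤ 20 := by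
  cases g with
  | pair p q _ =>
    have := Finset.card_union_le (suppO p) (suppO q)
    have h1 := card_suppO p
    have h2 := card_suppO q
    simp only [suppG]; omega
  | tri p q _ =>
    have := Finset.card_union_le (suppO p) (suppO q)
    have h1 := card_suppO p
    have h2 := card_suppO q
    simp only [suppG]; omega
  | quad p q r t _ =>
    have := Finset.card_union_le (suppO p) (suppO q)
    have h0 := Finset.card_union_le (suppO r) (suppO t)
    have h3 := Finset.card_union_le (suppO p ∪ suppO q) (suppO r ∪ suppO t)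
    have h1 := card_suppO p
    have h2 := card_suppO q
    have h4 := card_suppO r
    have h5 := card_suppO t
    simp only [suppG]; omega

lemma card_supp (z : Elt (mcl Y)) : (supp z).card ≤ 20 := by
  cases z with
  | a i => exact (card_suppI i).trans (by norm_num)
  | s => simp [supp]
  | u p => exact (card_suppO p).trans (by norm_num)
  | y => simp [supp]
  | f g => exact card_suppG g

lemma exists_vmap (f : X ↪ Y) (v : MV Y) (h : ∀ y ∈ suppV v, ∃ x, f x = y) :
    ∃ w, vmap f w = v := by
  obtain ⟨a, ha⟩ := h v.1.1 (by simp [suppV])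
  obtain ⟨b, hb⟩ := h v.1.2 (by simp [suppV])
  refine ⟨⟨(a, b), ?_⟩, ?_⟩
  · intro e
    apply v.2
    rw [← ha, ← hb]
    exact congrArg f e
  · exact Subtype.ext (Prod.ext ha hb)

lemma exists_imap (f : X ↪ Y) (c : MI Y) (h : ∀ y ∈ suppI c, ∃ x, f x = y) :
    ∃ d, imap f d = c := by
  cases c with
  | one i =>
    obtain ⟨a, ha⟩ := h i (by simp [suppI])
    exact ⟨.one a, by rw [imap, ha]⟩
  | sym p =>
    obtain ⟨q, hq⟩ := exists_vmap f p h
    exact ⟨.sym q, by rw [imap, hq]⟩
  | inj i j k h1 h2 h3 =>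
    obtain ⟨a, rfl⟩ := h i (by simp [suppI])
    obtain ⟨b, rfl⟩ := h j (by simp [suppI])
    obtain ⟨c, rfl⟩ := h k (by simp [suppI])
    exact ⟨.inj a b c (fun e => h1 (by rw [e])) (fun e => h2 (by rw [e]))
      (fun e => h3 (by rw [e])), rfl⟩

lemma exists_occMap (f : X ↪ Y) (p : Occ (mcl Y)) (h : ∀ y ∈ suppO p, ∃ x, f x = y) :
    ∃ q, occMap f q = p := by
  obtain ⟨c, hc⟩ := exists_imap f p.1.1 (fun y hy => h y (Finset.mem_union_left _ hy))
  obtain ⟨v, hv⟩ := exists_vmap f p.1.2.1 (fun y hy => h y (Finset.mem_union_right _ hy))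
  have hp := (mem_mcl _ _).1 p.2
  rw [← hc, ← hv, inCl_map] at hp
  refine ⟨⟨(c, (v, p.1.2.2)), (mem_mcl _ _).2 hp⟩, ?_⟩
  exact Subtype.ext (Prod.ext hc (Prod.ext hv rfl))

lemma exists_eltMap (f : X ↪ Y) (z : Elt (mcl Y)) (h : ∀ y ∈ supp z, ∃ x, f x = y) :
    ∃ w, eltMap f w = z := by
  cases z with
  | a i =>
    obtain ⟨c, hc⟩ := exists_imap f i h
    exact ⟨.a c, by change Elt.a (imap f c) = _; rw [hc]⟩
  | s => exact ⟨.s, rfl⟩
  | u p =>
    obtain ⟨q, hq⟩ := exists_occMap f p h
    exact ⟨.u q, by change Elt.u (occMap f q) = _; rw [hq]⟩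
  | y => exact ⟨.y, rfl⟩
  | f g =>
    cases g with
    | pair p q hg =>
      obtain ⟨p', rfl⟩ := exists_occMap f p (fun y hy => h y (Finset.mem_union_left _ hy))
      obtain ⟨q', rfl⟩ := exists_occMap f q (fun y hy => h y (Finset.mem_union_right _ hy))
      refine ⟨.f (.pair p' q' ⟨fun e => hg.1 (by rw [e]), ?_⟩), rfl⟩
      have h2 : (vmap f p'.lit.1, p'.lit.2) = (vmap f q'.lit.1, q'.lit.2) := hg.2
      rw [Prod.mk.injEq, vmap_inj] at h2
      exact Prod.ext h2.1 h2.2
    | tri p q hg =>
      obtain ⟨p', rfl⟩ := exists_occMap f p (fun y hy => h y (Finset.mem_union_left _ hy))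
      obtain ⟨q', rfl⟩ := exists_occMap f q (fun y hy => h y (Finset.mem_union_right _ hy))
      exact ⟨.f (.tri p' q' ((occMap_opp f).1 hg)), rfl⟩
    | quad p q r t hg =>
      obtain ⟨p', rfl⟩ := exists_occMap f p (fun y hy => h y
        (Finset.mem_union_left _ (Finset.mem_union_left _ hy)))
      obtain ⟨q', rfl⟩ := exists_occMap f q (fun y hy => h y
        (Finset.mem_union_left _ (Finset.mem_union_right _ hy)))
      obtain ⟨r', rfl⟩ := exists_occMap f r (fun y hy => h y
        (Finset.mem_union_right _ (Finset.mem_union_left _ hy)))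
      obtain ⟨t', rfl⟩ := exists_occMap f t (fun y hy => h y
        (Finset.mem_union_right _ (Finset.mem_union_right _ hy)))
      exact ⟨.f (.quad p' q' r' t' ⟨(occMap_opp f).1 hg.1, (occMap_opp f).1 hg.2.1,
        fun e => hg.2.2 ((occMap_lit1 f).2 e)⟩), rfl⟩

end supp

/-- extending a common part of two finite sets -/
lemma extend_common {N M : ℕ} {S : Type} [Fintype S] (f : S ↪ Fin N) (g : S ↪ Fin M)
    (T : Finset (Fin M)) (hN : Fintype.card S + T.card ≤ N) :
    ∃ (S' : Type) (_ : Fintype S') (i : S ↪ S') (f' : S' ↪ Fin N) (g' : S' ↪ Fin M),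
      i.trans f' = f ∧ i.trans g' = g ∧ (∀ t ∈ T, ∃ x, g' x = t) ∧
      Fintype.card S' ≤ Fintype.card S + T.card := by
  classical
  let R := {t : Fin M // t ∈ T ∧ ∀ s, g s ≠ t}
  let Cc := {x : Fin N // ∀ s, f s ≠ x}
  have hR : Fintype.card R ≤ T.card := by
    rw [← Fintype.card_coe T]
    refine Fintype.card_le_of_injective (fun r : R => (⟨r.1, r.2.1⟩ : T)) ?_
    intro r r' h
    exact Subtype.ext (congrArg (fun z : T => (z : Fin M)) h)
  have hC : T.card ≤ Fintype.card Cc := by
    have h1 : Fintype.card Cc = N - Fintype.card S := by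
      have h2 : Fintype.card {x : Fin N // x ∈ Set.range f} = Fintype.card S :=
        Fintype.card_congr (Equiv.ofInjective f f.injective).symm
      have h3 := Fintype.card_subtype_compl (fun x : Fin N => x ∈ Set.range f)
      rw [h2, Fintype.card_fin] at h3
      rw [← h3]
      apply Fintype.card_congr
      apply Equiv.subtypeEquivRight
      intro x
      simp
    omega
  obtain ⟨h⟩ := Function.Embedding.nonempty_of_card_le (hR.trans hC)
  refine ⟨S ⊕ R, inferInstance, ⟨Sum.inl, Sum.inl_injective⟩,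
    ⟨Sum.elim f (fun r => (h r).1), ?_⟩, ⟨Sum.elim g (fun r => r.1), ?_⟩, ?_, ?_, ?_, ?_⟩
  · rintro (x | x) (y | y) hxy
    · exact congrArg Sum.inl (f.injective hxy)
    · exact absurd hxy ((h y).2 x)
    · exact absurd hxy.symm ((h x).2 y)
    · exact congrArg Sum.inr (h.injective (Subtype.ext hxy))
  · rintro (x | x) (y | y) hxy
    · exact congrArg Sum.inl (g.injective hxy)
    · exact absurd hxy (y.2.2 x)
    · exact absurd hxy.symm (x.2.2 y)
    · exact congrArg Sum.inr (Subtype.ext hxy)
  · ext x; rfl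
  · ext x; rfl
  · intro t ht
    by_cases hg : ∃ s, g s = t
    · obtain ⟨s, hs⟩ := hg
      exact ⟨Sum.inl s, hs⟩
    · push Not at hg
      exact ⟨Sum.inr ⟨t, ht, hg⟩, rfl⟩
  · rw [Fintype.card_sum]
    omega

/-- quantifier depth -/
def qd {l : ℕ} : Language.order.BoundedFormula Empty l → ℕ
  | .falsum => 0
  | .equal _ _ => 0
  | .rel _ _ => 0
  | .imp a b => max (qd a) (qd b)
  | .all a => qd a + 1

attribute [local instance] Language.orderStructure

lemma term_realize {l : ℕ} {α β : Type} [LE α] [LE β] (e : α → β) (z : Fin l → α)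
    (t : Language.order.Term (Empty ⊕ Fin l)) :
    t.realize (Sum.elim (default : Empty → β) (e ∘ z)) =
      e (t.realize (Sum.elim (default : Empty → α) z)) := by
  cases t with
  | var x =>
    cases x with
    | inl x => exact x.elim
    | inr i => rfl
  | func f _ => exact Empty.elim f

/-- truth of a formula of small depth at tuples with a common small support -/
lemma back_forth {N M : ℕ} : ∀ {l : ℕ} (φ : Language.order.BoundedFormula Empty l) (K : ℕ)
    (S : Type) [Fintype S] (f : S ↪ Fin N) (g : S ↪ Fin M) (z : Fin l → Elt (mcl S)),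
    Fintype.card S ≤ K → K + 20 * qd φ ≤ N → K + 20 * qd φ ≤ M →
    (φ.Realize (default : Empty → Elt (mcl (Fin N))) (eltMap f ∘ z) ↔
      φ.Realize (default : Empty → Elt (mcl (Fin M))) (eltMap g ∘ z)) := by
  intro l φ
  induction φ with
  | falsum =>
    intros
    exact Iff.rfl
  | equal t₁ t₂ =>
    intro K S _ f g z _ _ _
    change (t₁.realize (Sum.elim _ (eltMap f ∘ z)) = t₂.realize (Sum.elim _ (eltMap f ∘ z))) ↔
      (t₁.realize (Sum.elim _ (eltMap g ∘ z)) = t₂.realize (Sum.elim _ (eltMap g ∘ z)))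
    rw [term_realize, term_realize, term_realize, term_realize,
      (eltMap f).injective.eq_iff, (eltMap g).injective.eq_iff]
  | rel R ts =>
    intro K S _ f g z _ _ _
    cases R
    change ((ts 0).realize (Sum.elim _ (eltMap f ∘ z)) ≤
        (ts 1).realize (Sum.elim _ (eltMap f ∘ z))) ↔
      ((ts 0).realize (Sum.elim _ (eltMap g ∘ z)) ≤ (ts 1).realize (Sum.elim _ (eltMap g ∘ z)))
    rw [term_realize, term_realize, term_realize, term_realize,
      (eltMap f).le_iff_le, (eltMap g).le_iff_le]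
  | imp a b iha ihb =>
    intro K S _ f g z hK hN hM
    simp only [qd] at hN hM
    have h1 := iha K S f g z hK (by omega) (by omega)
    have h2 := ihb K S f g z hK (by omega) (by omega)
    rw [Language.BoundedFormula.realize_imp, Language.BoundedFormula.realize_imp, h1, h2]
  | all a ih =>
    intro K S _ f g z hK hN hM
    simp only [qd] at hN hM
    rw [Language.BoundedFormula.realize_all, Language.BoundedFormula.realize_all]
    constructor
    · intro h b
      have hb := card_supp b
      obtain ⟨S', hS', i, f', g', h1, h2, h3, h4⟩ := extend_common f g (supp b) (by omega)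
      obtain ⟨w, hw⟩ := exists_eltMap g' b h3
      have key := ih (K + 20) S' f' g' (Fin.snoc (eltMap i ∘ z) w) (by omega) (by omega)
        (by omega)
      have e1 : eltMap f' ∘ (Fin.snoc (eltMap i ∘ z) w : Fin _ → Elt (mcl S')) =
          Fin.snoc (eltMap f ∘ z) (eltMap f' w) := by
        rw [Fin.comp_snoc]
        congr 1
        funext j
        change eltMap f' (eltMap i (z j)) = eltMap f (z j)
        rw [← eltMap_trans, h1]
      have e2 : eltMap g' ∘ (Fin.snoc (eltMap i ∘ z) w : Fin _ → Elt (mcl S')) =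
          Fin.snoc (eltMap g ∘ z) b := by
        rw [Fin.comp_snoc, hw]
        congr 1
        funext j
        change eltMap g' (eltMap i (z j)) = eltMap g (z j)
        rw [← eltMap_trans, h2]
      rw [e1, e2] at key
      exact key.1 (h _)
    · intro h b
      have hb := card_supp b
      obtain ⟨S', hS', i, g', f', h2, h1, h3, h4⟩ := extend_common g f (supp b) (by omega)
      obtain ⟨w, hw⟩ := exists_eltMap f' b h3
      have key := ih (K + 20) S' f' g' (Fin.snoc (eltMap i ∘ z) w) (by omega) (by omega)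
        (by omega)
      have e1 : eltMap f' ∘ (Fin.snoc (eltMap i ∘ z) w : Fin _ → Elt (mcl S')) =
          Fin.snoc (eltMap f ∘ z) b := by
        rw [Fin.comp_snoc, hw]
        congr 1
        funext j
        change eltMap f' (eltMap i (z j)) = eltMap f (z j)
        rw [← eltMap_trans, h1]
      have e2 : eltMap g' ∘ (Fin.snoc (eltMap i ∘ z) w : Fin _ → Elt (mcl S')) =
          Fin.snoc (eltMap g ∘ z) (eltMap g' w) := by
        rw [Fin.comp_snoc]
        congr 1
        funext j
        change eltMap g' (eltMap i (z j)) = eltMap g (z j)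
        rw [← eltMap_trans, h2]
      rw [e1, e2] at key
      exact key.2 (h _)

/-- a sentence does not distinguish large posets of the family -/
lemma sentence_stable (ψ : Language.order.Sentence) {N M : ℕ} (hN : 20 * qd ψ ≤ N)
    (hM : 20 * qd ψ ≤ M) : Elt (mcl (Fin N)) ⊨ ψ ↔ Elt (mcl (Fin M)) ⊨ ψ := by
  have h := back_forth (N := N) (M := M) ψ 0 Empty ⟨Empty.elim, fun x => x.elim⟩
    ⟨Empty.elim, fun x => x.elim⟩ (default : Fin 0 → Elt (mcl Empty)) (by simp) (by omega)
    (by omega)
  have e1 : (eltMap (⟨Empty.elim, fun x => x.elim⟩ : Empty ↪ Fin N) ∘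
      (default : Fin 0 → Elt (mcl Empty))) = default := Subsingleton.elim _ _
  have e2 : (eltMap (⟨Empty.elim, fun x => x.elim⟩ : Empty ↪ Fin M) ∘
      (default : Fin 0 → Elt (mcl Empty))) = default := Subsingleton.elim _ _
  rw [e1, e2] at h
  exact h

/-! ### Parity -/

instance [Finite X] : Finite (MI X) := by
  refine Finite.of_injective (β := X ⊕ (MV X ⊕ (X × X × X)))
    (fun c => match c with
      | .one i => .inl i
      | .sym p => .inr (.inl p)
      | .inj i j k _ _ _ => .inr (.inr (i, j, k))) ?_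
  intro c d h
  cases c <;> cases d <;> simp_all

lemma sat_of_involution [Fintype X] (π : X → X) (h1 : ∀ i, π (π i) = i) (h2 : ∀ i, π i ≠ i) :
    Sat (mcl X) := by
  classical
  refine ⟨fun v => decide (v.1.2 = π v.1.1), fun c => ?_⟩
  cases c with
  | one i =>
    refine ⟨(⟨(i, π i), (h2 i).symm⟩, true), (mem_mcl _ _).2 ⟨rfl, rfl⟩, ?_⟩
    simp
  | sym p =>
    by_cases hp : p.1.2 = π p.1.1
    · refine ⟨(p.rev, true), (mem_mcl _ _).2 (Or.inr ⟨rfl, rfl⟩), ?_⟩
      simp [MV.rev, hp, h1]
    · refine ⟨(p, false), (mem_mcl _ _).2 (Or.inl ⟨rfl, rfl⟩), ?_⟩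
      simp [hp]
  | inj i j k e1 e2 e3 =>
    by_cases hj : j = π i
    · refine ⟨(⟨(i, k), e2⟩, false), (mem_mcl _ _).2 ⟨rfl, Or.inr rfl⟩, ?_⟩
      have : k ≠ π i := fun h => e3 (hj.trans h.symm)
      simp [this]
    · refine ⟨(⟨(i, j), e1⟩, false), (mem_mcl _ _).2 ⟨rfl, Or.inl rfl⟩, ?_⟩
      simp [hj]

lemma even_of_sat [Fintype X] (h : Sat (mcl X)) : Even (Fintype.card X) := by
  classical
  obtain ⟨τ, hτ⟩ := h
  have h1 : ∀ i, ∃ v : MV X, v.1.1 = i ∧ τ v = true := by
    intro i
    obtain ⟨l, hl1, hl2⟩ := hτ (.one i)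
    obtain ⟨h3, h4⟩ := (mem_mcl _ _).1 hl1
    exact ⟨l.1, h3, hl2.trans h4⟩
  choose m hm1 hm2 using h1
  have huniq : ∀ v w : MV X, v.1.1 = w.1.1 → τ v = true → τ w = true → v = w := by
    intro v w hvw hv hw
    by_contra hne
    have h3 : v.1.2 ≠ w.1.2 := fun e => hne (Subtype.ext (Prod.ext hvw e))
    obtain ⟨l, hl1, hl2⟩ := hτ (.inj v.1.1 v.1.2 w.1.2 v.2 (hvw ▸ w.2) h3)
    obtain ⟨h4, h5 | h5⟩ := (mem_mcl _ _).1 hl1
    · have : l.1 = v := Subtype.ext h5
      rw [this, hv, h4] at hl2
      simp at hl2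
    · have : l.1 = w := Subtype.ext (h5.trans (Prod.ext hvw rfl))
      rw [this, hw, h4] at hl2
      simp at hl2
  have hrev : ∀ v : MV X, τ v = true → τ v.rev = true := by
    intro v hv
    obtain ⟨l, hl1, hl2⟩ := hτ (.sym v)
    rcases (mem_mcl _ _).1 hl1 with ⟨h3, h4⟩ | ⟨h3, h4⟩
    · rw [h3, hv, h4] at hl2
      simp at hl2
    · rw [h3, h4] at hl2
      exact hl2
  have hinv : ∀ i, (m (m i).1.2).1.2 = i := by
    intro i
    have h3 : m (m i).1.2 = (m i).rev := huniq _ _ (hm1 _) (hm2 _) (hrev _ (hm2 i))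
    rw [h3]
    exact hm1 i
  have hfix : ∀ i, (m i).1.2 ≠ i := by
    intro i h
    exact (m i).2 ((hm1 i).trans h.symm)
  have hsum : ∑ _x ∈ (univ : Finset X), (1 : ZMod 2) = 0 := by
    refine Finset.sum_involution (fun i _ => (m i).1.2) ?_ ?_ ?_ ?_
    · intro i _; decide
    · intro i _ _; exact hfix i
    · intro i _; exact Finset.mem_univ _
    · intro i _; exact hinv i
  rw [Finset.sum_const, Finset.card_univ, nsmul_eq_mul, mul_one] at hsum
  rwa [ZMod.natCast_eq_zero_iff_even] at hsum

lemma sat_iff_even (n : ℕ) : Sat (mcl (Fin n)) ↔ Even n := by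
  constructor
  · intro h
    have := even_of_sat h
    rwa [Fintype.card_fin] at this
  · rintro ⟨k, hk⟩
    refine sat_of_involution
      (fun i => if h : i.1 % 2 = 0 then ⟨i.1 + 1, by omega⟩ else ⟨i.1 - 1, by omega⟩) ?_ ?_
    · intro i
      apply Fin.ext
      by_cases h : i.1 % 2 = 0
      · have h' : ¬ (i.1 + 1) % 2 = 0 := by omega
        simp [h, h']
      · have h' : (i.1 - 1) % 2 = 0 := by omega
        simp [h, h']
        omega
    · intro i hi
      have := congrArg Fin.val hi
      by_cases h : i.1 % 2 = 0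
      · simp [h] at this
      · simp [h] at this
        omega

/-- **No first-order characterisation.** -/
theorem no_sentence : ¬ ∃ ψ : Language.order.Sentence,
    ∀ (α : Type) [PartialOrder α] [Fintype α] [DecidableEq α],
      (∀ w x y z : α, ¬ (w < x ∧ x < y ∧ y < z)) → (α ⊨ ψ ↔ IsGreedy α) := by
  classical
  rintro ⟨ψ, hψ⟩
  have key : ∀ n : ℕ, 2 ≤ n → (Elt (mcl (Fin n)) ⊨ ψ ↔ ¬ Even n) := by
    intro n hn
    have hne : Nonempty (MI (Fin n)) := ⟨.one ⟨0, by omega⟩⟩
    rw [hψ (Elt (mcl (Fin n))) height_three, isGreedy_iff, allEq_iff_unsat, sat_iff_even]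
    intro c
    cases c with
    | one i =>
      have hex : ∃ j : Fin n, i ≠ j := by
        by_cases h0 : i.1 = 0
        · exact ⟨⟨1, by omega⟩, fun e => by rw [e] at h0; simp at h0⟩
        · exact ⟨⟨0, by omega⟩, fun e => by rw [e] at h0; simp at h0⟩
      obtain ⟨j, hj⟩ := hex
      exact ⟨(⟨(i, j), hj⟩, true), (mem_mcl _ _).2 ⟨rfl, rfl⟩⟩
    | sym p => exact ⟨(p, false), (mem_mcl _ _).2 (Or.inl ⟨rfl, rfl⟩)⟩
    | inj i j k h1 h2 h3 =>
      exact ⟨(⟨(i, j), h1⟩, false), (mem_mcl _ _).2 ⟨rfl, Or.inl rfl⟩⟩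
  have h1 := key (2 * (10 * qd ψ + 1)) (by omega)
  have h2 := key (2 * (10 * qd ψ + 1) + 1) (by omega)
  have h3 := sentence_stable ψ (N := 2 * (10 * qd ψ + 1)) (M := 2 * (10 * qd ψ + 1) + 1)
    (by omega) (by omega)
  rw [h1, h2] at h3
  have e1 : Even (2 * (10 * qd ψ + 1)) := even_two_mul _
  have e2 : ¬ Even (2 * (10 * qd ψ + 1) + 1) := by
    rw [Nat.even_add_one, not_not]; exact e1
  exact absurd e1 (h3.2 e2)

end GreedyJump
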