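import Pool.Agent.GreedyJump.Confl

/-!
Posets all of whose filters are greedy.
-/

open Finset

namespace GreedyJump

set_option linter.unusedSectionVars false

variable {α : Type*} [PartialOrder α] [DecidableEq α]

/-- The elimination condition: whenever `y₁`, `y₂` have a common lower cover `a`, and `a'` is a
lower cover of `y₁` which is not below `y₂`, there is an upper cover `y₃` of `a'`, not above `a`,
such that everything below `y₃` except `a'` is below `y₁` or below `y₂`. -/
def Elim (α : Type*) [PartialOrder α] : Prop :=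
  ∀ y₁ y₂ a a' : α, a ⋖ y₁ → a ⋖ y₂ → a' ⋖ y₁ → ¬ a' < y₂ →
    ∃ y₃, a' ⋖ y₃ ∧ ¬ a < y₃ ∧ ∀ x, x < y₃ → x ≠ a' → (x < y₁ ∨ x < y₂)

lemma exists_max_chain {S C X : Finset α} (hC : DownChain X C) (hS : S ⊆ C) (hne : S.Nonempty) :
    ∃ m ∈ S, ∀ x ∈ S, x ≤ m := by
  obtain ⟨m, hm⟩ := S.exists_maximal hne
  refine ⟨m, hm.1, fun x hx => ?_⟩
  rcases hC.total (hS hx) (hS hm.1) with h | h
  · exact h
  · exact hm.2 hx h

lemma exists_min_chain {S C X : Finset α} (hC : DownChain X C) (hS : S ⊆ C) (hne : S.Nonempty) :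
    ∃ m ∈ S, ∀ x ∈ S, m ≤ x := by
  obtain ⟨m, hm⟩ := S.exists_minimal hne
  refine ⟨m, hm.1, fun x hx => ?_⟩
  rcases hC.total (hS hm.1) (hS hx) with h | h
  · exact h
  · exact hm.2 hx h

/-- The elimination condition gives the local condition at every filter. -/
lemma Elim.loc (hE : Elim α) {Y : Finset α} (hY : IsUpperSet (Y : Set α)) : Loc Y := by
  classical
  intro C C' hC hC' hne hExt
  obtain ⟨y, hy1, hy2, hy3, hy4⟩ := hExt
  by_cases hall : ∀ w ∈ C \ C', w < y
  · refine ⟨y, ?_, ?_, ?_, hall⟩
    · rw [Finset.mem_sdiff] at hy1 hy2 ⊢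
      exact ⟨hy1.1, fun h => hy2 ⟨h, hy1.2⟩⟩
    · rw [Finset.mem_sdiff] at hy1 ⊢
      exact fun h => hy1.2 h.1
    · intro w hw hwy
      rw [Finset.mem_sdiff] at hw ⊢
      refine ⟨?_, hw.2⟩
      by_contra hwC
      exact hw.2 (Finset.mem_sdiff.1 (hy3 w (Finset.mem_sdiff.2 ⟨hw.1, hwC⟩) hwy)).1
  · exfalso
    obtain ⟨t', ht', htmax⟩ := exists_max_chain hC'.dc (Finset.sdiff_subset (s := C') (t := C))
      (diff_nonempty hC hC' hne)
    rw [Finset.mem_sdiff] at ht'
    have htmax' : ∀ x ∈ C', x ≤ t' := by
      intro x hx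
      by_cases hxC : x ∈ C
      · rcases hC'.dc.total hx ht'.1 with h | h
        · exact h
        · exact absurd (hC.dc.down x hxC t' (hC'.dc.sub ht'.1) h) ht'.2
      · exact htmax x (Finset.mem_sdiff.2 ⟨hx, hxC⟩)
    -- the minimal counterexample argument
    have main : ∀ k, ∀ z ∈ Y, t' ⋖ z → (∀ w ∈ Y, w < z → w ∈ C ∪ C') →
        ¬ (∀ w ∈ C \ C', w < z) → ((C \ C').filter (· < z)).card = k → False := by
      intro k
      induction k using Nat.strong_induction_on with
      | _ k ih =>
        intro z hzY htz hD hnall hk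
        by_cases hS : ((C \ C').filter (· < z)).Nonempty
        · obtain ⟨c, hc, hcmax⟩ := exists_max_chain hC.dc
            ((Finset.filter_subset _ _).trans Finset.sdiff_subset) hS
          rw [Finset.mem_filter, Finset.mem_sdiff] at hc
          push Not at hnall
          obtain ⟨t, htC, htz'⟩ := hnall
          rw [Finset.mem_sdiff] at htC
          have hct : c < t := by
            rcases hC.dc.total htC.1 hc.1.1 with h | h
            · exact absurd (h.trans_lt hc.2) htz'
            · rcases h.eq_or_lt with h | h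
              · exact absurd (h ▸ hc.2) htz'
              · exact h
          have hcz : c ⋖ z := by
            refine ⟨hc.2, fun w hcw hwz => ?_⟩
            have hwY : w ∈ Y := hY hcw.le (hC.dc.sub hc.1.1)
            have hwC' : w ∉ C' := fun h => hc.1.2 (hC'.dc.down' h (hC.dc.sub hc.1.1) hcw)
            have hwC : w ∈ C := (Finset.mem_union.1 (hD w hwY hwz)).resolve_right hwC'
            have := hcmax w (Finset.mem_filter.2 ⟨Finset.mem_sdiff.2 ⟨hwC, hwC'⟩, hwz⟩)
            exact absurd (hcw.trans_le this) (lt_irrefl _)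
          obtain ⟨h, hh, hhmin⟩ := exists_min_chain (S := C.filter (c < ·)) hC.dc
            (Finset.filter_subset _ _) ⟨t, Finset.mem_filter.2 ⟨htC.1, hct⟩⟩
          rw [Finset.mem_filter] at hh
          have hch : c ⋖ h := by
            refine ⟨hh.2, fun w hcw hwh => ?_⟩
            have hwY : w ∈ Y := hY hcw.le (hC.dc.sub hc.1.1)
            have hwC : w ∈ C := hC.dc.down' hh.1 hwY hwh
            have := hhmin w (Finset.mem_filter.2 ⟨hwC, hcw⟩)
            exact absurd (hwh.trans_le this) (lt_irrefl _)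
          have htY : t' ∈ Y := hC'.dc.sub ht'.1
          have hth : ¬ t' < h := fun h1 => ht'.2 (hC.dc.down' hh.1 htY h1)
          obtain ⟨y₃, h1, h2, h3⟩ := hE z h c t' hcz hch htz hth
          have hy3Y : y₃ ∈ Y := hY h1.lt.le htY
          have hlt : ((C \ C').filter (· < y₃)).card < k := by
            rw [← hk]
            apply Finset.card_lt_card
            refine ⟨?_, fun hsub => ?_⟩
            · intro w hw
              rw [Finset.mem_filter] at hw ⊢
              refine ⟨hw.1, ?_⟩
              have hwt : w ≠ t' := fun e => ht'.2 (e ▸ (Finset.mem_sdiff.1 hw.1).1)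
              rcases h3 w hw.2 hwt with h4 | h4
              · exact h4
              · rcases hC.dc.total (Finset.mem_sdiff.1 hw.1).1 hc.1.1 with h5 | h5
                · exact h5.trans_lt hc.2
                · rcases h5.eq_or_lt with h6 | h6
                  · rw [← h6]; exact hc.2
                  · have := hhmin w (Finset.mem_filter.2 ⟨(Finset.mem_sdiff.1 hw.1).1, h6⟩)
                    exact absurd (h4.trans_le this) (lt_irrefl _)
            · have := hsub (Finset.mem_filter.2 ⟨Finset.mem_sdiff.2 hc.1, hc.2⟩)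
              exact h2 (Finset.mem_filter.1 this).2
          refine ih _ hlt y₃ hy3Y h1 ?_ ?_ rfl
          · intro w hw hwy
            by_cases hwt : w = t'
            · rw [hwt]; exact Finset.mem_union_right _ ht'.1
            · rcases h3 w hwy hwt with h4 | h4
              · exact hD w hw h4
              · exact Finset.mem_union_left _ (hC.dc.down' hh.1 hw h4)
          · intro hcon
            exact h2 (hcon c (Finset.mem_sdiff.2 hc.1))
        · refine hC'.not_prolongs z ⟨hzY, ?_, ?_, ?_⟩
          · intro hzC'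
            exact absurd (htz.lt.trans_le (htmax' z hzC')) (lt_irrefl _)
          · intro w hw hwz
            rcases Finset.mem_union.1 (hD w hw hwz) with h4 | h4
            · by_contra hwC'
              exact hS ⟨w, Finset.mem_filter.2 ⟨Finset.mem_sdiff.2 ⟨h4, hwC'⟩, hwz⟩⟩
            · exact h4
          · intro w hw
            exact (htmax' w hw).trans_lt htz.lt
    rw [Finset.mem_sdiff] at hy1 hy2
    have hyC' : y ∉ C' := fun h => hy2 ⟨h, hy1.2⟩
    have hD : ∀ w ∈ Y, w < y → w ∈ C ∪ C' := by
      intro w hw hwy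
      by_cases hwC : w ∈ C
      · exact Finset.mem_union_left _ hwC
      · exact Finset.mem_union_right _
          (Finset.mem_sdiff.1 (hy3 w (Finset.mem_sdiff.2 ⟨hw, hwC⟩) hwy)).1
    refine main _ y hy1.1 ?_ hD hall rfl
    refine ⟨hy4 t' (Finset.mem_sdiff.2 ht'), fun w htw hwy => ?_⟩
    have hwY : w ∈ Y := hY htw.le (hC'.dc.sub ht'.1)
    rcases Finset.mem_union.1 (hD w hwY hwy) with h | h
    · exact ht'.2 (hC.dc.down' h (hC'.dc.sub ht'.1) htw)
    · exact absurd (htw.trans_le (htmax' w h)) (lt_irrefl _)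

lemma ReachFrom.upper {X Y : Finset α} (hX : IsUpperSet (X : Set α)) (h : ReachFrom X Y) :
    IsUpperSet (Y : Set α) := by
  induction h with
  | base => exact hX
  | step Z C _ _ hC ih => exact upper_sdiff ih hC.dc

theorem Elim.allEq (hE : Elim α) {X : Finset α} (hX : IsUpperSet (X : Set α)) : AllEq X := by
  rw [allEq_iff_loc]
  intro Y hY
  exact hE.loc (hY.upper hX)

/-- the converse, in chain form -/
lemma claim (k : ℕ) : ∀ (X : Finset α), X.card = k → IsUpperSet (X : Set α) →
    (∀ Y ⊆ X, IsUpperSet (Y : Set α) → AllEq Y) →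
    ∀ (A A' : Finset α) (y₁ y₂ a : α), DownChain X A → DownChain X A' → A'.Nonempty →
      a ∈ A → a ∉ A' → (∃ a' ∈ A', a' ∉ A ∧ ∀ x ∈ A', x ≤ a') → (∀ x ∈ A, x ≤ a) →
      y₁ ∈ X → y₂ ∈ X →
      (∀ w ∈ X, w < y₁ ↔ w ∈ A ∨ w ∈ A') → (∀ w ∈ X, w < y₂ ↔ w ∈ A) →
      ∃ y₃ ∈ X, ∀ w ∈ X, w < y₃ ↔ w ∈ A' := by
  induction k using Nat.strong_induction_on with
  | _ k ih =>
    intro X hXk hX hall A A' y₁ y₂ a hA hA' hA'ne haA haA' hmax' hamax hy₁ hy₂ hD₁ hD₂
    -- removal of a minimal element
    have rem : ∀ b ∈ X, (∀ w ∈ X, ¬ w < b) → (X.erase b).card < k ∧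
        IsUpperSet ((X.erase b : Finset α) : Set α) ∧
        (∀ Y ⊆ X.erase b, IsUpperSet (Y : Set α) → AllEq Y) := by
      intro b hb hbmin
      refine ⟨?_, ?_, ?_⟩
      · rw [← hXk]; exact Finset.card_erase_lt_of_mem hb
      · intro x y hxy hx
        simp only [Finset.coe_erase, Set.mem_sdiff, Finset.mem_coe, Set.mem_singleton_iff]
          at hx ⊢
        refine ⟨hX hxy hx.1, ?_⟩
        rintro rfl
        rcases hxy.eq_or_lt with h | h
        · exact hx.2 h
        · exact hbmin x hx.1 h
      · intro Y hY hYu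
        exact hall Y (hY.trans (Finset.erase_subset _ _)) hYu
    by_contra hcon
    push Not at hcon
    obtain ⟨a', ha'A', ha'A, ha'max⟩ := hmax'
    have haX : a ∈ X := hA.sub haA
    have ha'X : a' ∈ X := hA'.sub ha'A'
    -- Step 1: `A'` may be assumed to be a singleton
    by_cases hA'1 : ∃ b ∈ A', b ≠ a'
    · obtain ⟨b0, hb0, hb0a⟩ := hA'1
      obtain ⟨b, hb, hbmin⟩ := exists_min_chain hA' (Finset.Subset.refl _) hA'ne
      have hba' : b ≠ a' := by
        rintro rfl
        exact hb0a (le_antisymm (ha'max b0 hb0) (hbmin b0 hb0))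
      have hbX : b ∈ X := hA'.sub hb
      have hbminX : ∀ w ∈ X, ¬ w < b := by
        intro w hw hwb
        have := hbmin w (hA'.down' hb hw hwb)
        exact absurd (hwb.trans_le this) (lt_irrefl _)
      obtain ⟨r1, r2, r3⟩ := rem b hbX hbminX
      have hab : a ≠ b := fun e => haA' (e ▸ hb)
      have dcer : ∀ {S : Finset α}, DownChain X S → DownChain (X.erase b) (S.erase b) := by
        intro S hS
        refine DownChain.mk' (Finset.erase_subset_erase b hS.sub) ?_ ?_
        · intro x hx y hy
          exact hS.total (Finset.mem_of_mem_erase hx) (Finset.mem_of_mem_erase hy)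
        · intro x hx w hw hwx
          rw [Finset.mem_erase] at hw ⊢
          exact ⟨hw.1, hS.down' (Finset.mem_of_mem_erase hx) hw.2 hwx⟩
      have hy₁b : y₁ ≠ b := by
        rintro rfl
        exact hbminX a haX ((hD₁ a haX).2 (Or.inl haA))
      have hy₂b : y₂ ≠ b := by
        rintro rfl
        exact hbminX a haX ((hD₂ a haX).2 haA)
      obtain ⟨y₃, h1, h2⟩ := ih _ r1 (X.erase b) rfl r2 r3 (A.erase b) (A'.erase b) y₁ y₂ a
        (dcer hA) (dcer hA') ⟨a', Finset.mem_erase.2 ⟨Ne.symm hba', ha'A'⟩⟩
        (Finset.mem_erase.2 ⟨hab, haA⟩) (fun h => haA' (Finset.mem_of_mem_erase h))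
        ⟨a', Finset.mem_erase.2 ⟨Ne.symm hba', ha'A'⟩,
          fun h => ha'A (Finset.mem_of_mem_erase h),
          fun x hx => ha'max x (Finset.mem_of_mem_erase hx)⟩
        (fun x hx => hamax x (Finset.mem_of_mem_erase hx))
        (Finset.mem_erase.2 ⟨hy₁b, hy₁⟩) (Finset.mem_erase.2 ⟨hy₂b, hy₂⟩)
        (by
          intro w hw
          rw [Finset.mem_erase] at hw
          rw [hD₁ w hw.2, Finset.mem_erase, Finset.mem_erase]
          simp [hw.1])
        (by
          intro w hw
          rw [Finset.mem_erase] at hw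
          rw [hD₂ w hw.2, Finset.mem_erase]
          simp [hw.1])
      rw [Finset.mem_erase] at h1
      obtain ⟨w, hw, hw'⟩ := hcon y₃ h1.2
      have ha'y₃ : a' < y₃ := (h2 a' (Finset.mem_erase.2 ⟨Ne.symm hba', ha'X⟩)).2
        (Finset.mem_erase.2 ⟨Ne.symm hba', ha'A'⟩)
      have hby₃ : b < y₃ := (hbmin a' ha'A').trans_lt ha'y₃
      by_cases hwb : w = b
      · subst hwb
        rcases hw' with h | h
        · exact h.2 hb
        · exact h.1 hby₃
      · have h3 := h2 w (Finset.mem_erase.2 ⟨hwb, hw⟩)
        rw [Finset.mem_erase] at h3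
        rcases hw' with h | h
        · exact h.2 (h3.1 h.1).2
        · exact h.1 (h3.2 ⟨hwb, h.2⟩)
    push Not at hA'1
    have hA'eq : ∀ x, x ∈ A' ↔ x = a' := by
      intro x
      exact ⟨fun h => hA'1 x h, fun h => h ▸ ha'A'⟩
    have ha'minX : ∀ w ∈ X, ¬ w < a' := by
      intro w hw hwa
      have := (hA'eq w).1 (hA'.down' ha'A' hw hwa)
      exact absurd (this ▸ hwa) (lt_irrefl _)
    -- Step 2: `A` may be assumed to be a singleton
    have base : ∀ (a y₁ y₂ : α), a ∈ X → y₁ ∈ X → y₂ ∈ X → a ≠ a' → (∀ w ∈ X, ¬ w < a) →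
        (∀ w ∈ X, w < y₁ ↔ w = a ∨ w = a') → (∀ w ∈ X, w < y₂ ↔ w = a) → False := by
      intro a y₁ y₂ haX hy₁ hy₂ haa' hamin hD₁ hD₂
      have hay₂ : a < y₂ := (hD₂ a haX).2 rfl
      have hay₁ : a < y₁ := (hD₁ a haX).2 (Or.inl rfl)
      have ha'y₁ : a' < y₁ := (hD₁ a' ha'X).2 (Or.inr rfl)
      have hdc : DownChain X {a, y₂} := by
        refine DownChain.mk' ?_ ?_ ?_
        · intro x hx
          rw [Finset.mem_insert, Finset.mem_singleton] at hx
          rcases hx with rfl | rfl
          · exact haX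
          · exact hy₂
        · intro x hx y hy
          rw [Finset.mem_insert, Finset.mem_singleton] at hx hy
          rcases hx with rfl | rfl <;> rcases hy with rfl | rfl
          · exact Or.inl le_rfl
          · exact Or.inl hay₂.le
          · exact Or.inr hay₂.le
          · exact Or.inl le_rfl
        · intro x hx w hw hwx
          rw [Finset.mem_insert, Finset.mem_singleton] at hx ⊢
          rcases hx with rfl | rfl
          · exact absurd hwx (hamin w hw)
          · exact Or.inl ((hD₂ w hw).1 hwx)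
      obtain ⟨C, hC1, hC⟩ := hdc.exists_greedy
      have haC : a ∈ C := hC1 (by simp)
      have hy₂C : y₂ ∈ C := hC1 (by simp)
      have ha'C : a' ∉ C := by
        intro h
        rcases hC.dc.total h haC with h1 | h1
        · rcases h1.eq_or_lt with h2 | h2
          · exact haa' h2.symm
          · exact hamin a' ha'X h2
        · rcases h1.eq_or_lt with h2 | h2
          · exact haa' h2
          · exact ha'minX a haX h2
      have hC' : GreedyChain X {a'} := by
        rw [greedy_iff]
        refine ⟨DownChain.mk' (by simpa using ha'X) ?_ ?_, ?_⟩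
        · intro x hx y hy
          rw [Finset.mem_singleton] at hx hy
          rw [hx, hy]; exact Or.inl le_rfl
        · intro x hx w hw hwx
          rw [Finset.mem_singleton] at hx
          rw [hx] at hwx
          exact absurd hwx (ha'minX w hw)
        · rintro y ⟨h1, h2, h3, h4⟩
          obtain ⟨w, hw, hw'⟩ := hcon y h1
          rcases hw' with h | h
          · have := Finset.mem_singleton.1 (h3 w hw h.1)
            exact h.2 ((hA'eq w).2 this)
          · have := (hA'eq w).1 h.2
            exact h.1 (h4 w (Finset.mem_singleton.2 this))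
      have hne : C ≠ {a'} := fun e => ha'C (e ▸ Finset.mem_singleton_self _)
      have hy₁C : y₁ ∉ C := fun h => ha'C (hC.dc.down' h ha'X ha'y₁)
      have hExt : Ext X C {a'} := by
        refine ⟨y₁, Finset.mem_sdiff.2 ⟨hy₁, hy₁C⟩, ?_, ?_, ?_⟩
        · intro h
          have := Finset.mem_singleton.1 (Finset.mem_sdiff.1 h).1
          exact absurd (this ▸ ha'y₁) (lt_irrefl _)
        · intro w hw hwy
          rw [Finset.mem_sdiff] at hw
          rcases (hD₁ w hw.1).1 hwy with h | h
          · exact absurd (h ▸ haC) hw.2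
          · exact Finset.mem_sdiff.2 ⟨Finset.mem_singleton.2 h, hw.2⟩
        · intro w hw
          have := Finset.mem_singleton.1 (Finset.mem_sdiff.1 hw).1
          rw [this]; exact ha'y₁
      obtain ⟨z, hz1, hz2, hz3, hz4⟩ :=
        (hall X (Finset.Subset.refl _) hX).loc C {a'} hC hC' hne hExt
      have hCd : ∀ w, w ∈ C \ {a'} ↔ w ∈ C := by
        intro w
        rw [Finset.mem_sdiff, Finset.mem_singleton]
        exact ⟨fun h => h.1, fun h => ⟨h, fun e => ha'C (e ▸ h)⟩⟩
      rw [Finset.mem_sdiff, Finset.mem_singleton] at hz1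
      rw [hCd] at hz2
      have hz3' : ∀ w ∈ X, w < z → w ≠ a' → w ∈ C := fun w hw hwz hwa =>
        (hCd w).1 (hz3 w (Finset.mem_sdiff.2 ⟨hw, by simpa using hwa⟩) hwz)
      have hz4' : ∀ w ∈ C, w < z := fun w hw => hz4 w ((hCd w).2 hw)
      have ha'z : a' < z := by
        by_contra h
        refine hC.not_prolongs z ⟨hz1.1, hz2, ?_, hz4'⟩
        intro w hw hwz
        exact hz3' w hw hwz (fun e => h (e ▸ hwz))
      -- remove `a`
      obtain ⟨r1, r2, r3⟩ := rem a haX hamin
      obtain ⟨t, htC, htmax⟩ := exists_max_chain hC.dc (Finset.Subset.refl _) ⟨a, haC⟩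
      have hta : t ≠ a := by
        rintro rfl
        exact absurd (hay₂.trans_le (htmax y₂ hy₂C)) (lt_irrefl _)
      obtain ⟨y₃, h1, h2⟩ := ih _ r1 (X.erase a) rfl r2 r3 {a'} (C.erase a) z y₁ a'
        (by
          refine DownChain.mk' ?_ ?_ ?_
          · intro x hx
            rw [Finset.mem_singleton] at hx
            rw [hx, Finset.mem_erase]
            exact ⟨Ne.symm haa', ha'X⟩
          · intro x hx y hy
            rw [Finset.mem_singleton] at hx hy
            rw [hx, hy]; exact Or.inl le_rfl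
          · intro x hx w hw hwx
            rw [Finset.mem_singleton] at hx
            rw [hx] at hwx
            exact absurd hwx (ha'minX w (Finset.mem_of_mem_erase hw)))
        (by
          refine DownChain.mk' (Finset.erase_subset_erase a hC.dc.sub) ?_ ?_
          · intro x hx y hy
            exact hC.dc.total (Finset.mem_of_mem_erase hx) (Finset.mem_of_mem_erase hy)
          · intro x hx w hw hwx
            rw [Finset.mem_erase] at hw ⊢
            exact ⟨hw.1, hC.dc.down' (Finset.mem_of_mem_erase hx) hw.2 hwx⟩)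
        ⟨t, Finset.mem_erase.2 ⟨hta, htC⟩⟩ (Finset.mem_singleton_self _)
        (fun h => ha'C (Finset.mem_of_mem_erase h))
        ⟨t, Finset.mem_erase.2 ⟨hta, htC⟩, fun h => ha'C ((Finset.mem_singleton.1 h) ▸ htC),
          fun x hx => htmax x (Finset.mem_of_mem_erase hx)⟩
        (by intro x hx; rw [Finset.mem_singleton] at hx; exact hx.le)
        (Finset.mem_erase.2 ⟨fun e => hamin a' ha'X (e ▸ ha'z), hz1.1⟩)
        (Finset.mem_erase.2 ⟨fun e => hamin a' ha'X (e ▸ ha'y₁), hy₁⟩)
        (by
          intro w hw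
          rw [Finset.mem_erase] at hw
          rw [Finset.mem_singleton, Finset.mem_erase]
          constructor
          · intro hwz
            by_cases hwa : w = a'
            · exact Or.inl hwa
            · exact Or.inr ⟨hw.1, hz3' w hw.2 hwz hwa⟩
          · rintro (h | h)
            · rw [h]; exact ha'z
            · exact hz4' w h.2)
        (by
          intro w hw
          rw [Finset.mem_erase] at hw
          rw [hD₁ w hw.2, Finset.mem_singleton]
          simp [hw.1])
      · rw [Finset.mem_erase] at h1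
        have hy₂y₃ : y₂ < y₃ := by
          have hy₂a : y₂ ≠ a := fun e => absurd (e ▸ hay₂) (lt_irrefl _)
          exact (h2 y₂ (Finset.mem_erase.2 ⟨hy₂a, hy₂⟩)).2 (Finset.mem_erase.2 ⟨hy₂a, hy₂C⟩)
        refine hC.not_prolongs y₃ ⟨h1.2, ?_, ?_, ?_⟩
        · intro h3
          exact absurd ((h2 y₃ (Finset.mem_erase.2 h1)).2 (Finset.mem_erase.2 ⟨h1.1, h3⟩))
            (lt_irrefl _)
        · intro w hw hwy
          by_cases hwa : w = a
          · rw [hwa]; exact haC
          · exact (Finset.mem_erase.1 ((h2 w (Finset.mem_erase.2 ⟨hwa, hw⟩)).1 hwy)).2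
        · intro w hw
          by_cases hwa : w = a
          · rw [hwa]; exact hay₂.trans hy₂y₃
          · exact (h2 w (Finset.mem_erase.2 ⟨hwa, hC.dc.sub hw⟩)).2
              (Finset.mem_erase.2 ⟨hwa, hw⟩)
    have haa' : a ≠ a' := fun e => haA' (e ▸ ha'A')
    by_cases hA1 : ∃ b ∈ A, b ≠ a
    · obtain ⟨b0, hb0, hb0a⟩ := hA1
      obtain ⟨b, hb, hbmin⟩ := exists_min_chain hA (Finset.Subset.refl _) ⟨a, haA⟩
      have hba : b ≠ a := by
        rintro rfl
        exact hb0a (le_antisymm (hamax b0 hb0) (hbmin b0 hb0))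
      have hbX : b ∈ X := hA.sub hb
      have hba' : b ≠ a' := fun e => ha'A (e ▸ hb)
      have hbminX : ∀ w ∈ X, ¬ w < b := by
        intro w hw hwb
        have := hbmin w (hA.down' hb hw hwb)
        exact absurd (hwb.trans_le this) (lt_irrefl _)
      obtain ⟨r1, r2, r3⟩ := rem b hbX hbminX
      have hy₁b : y₁ ≠ b := by
        rintro rfl
        exact hbminX a haX ((hD₁ a haX).2 (Or.inl haA))
      have hy₂b : y₂ ≠ b := by
        rintro rfl
        exact hbminX a haX ((hD₂ a haX).2 haA)
      obtain ⟨y₃, h1, h2⟩ := ih _ r1 (X.erase b) rfl r2 r3 (A.erase b) A' y₁ y₂ a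
        (by
          refine DownChain.mk' (Finset.erase_subset_erase b hA.sub) ?_ ?_
          · intro x hx y hy
            exact hA.total (Finset.mem_of_mem_erase hx) (Finset.mem_of_mem_erase hy)
          · intro x hx w hw hwx
            rw [Finset.mem_erase] at hw ⊢
            exact ⟨hw.1, hA.down' (Finset.mem_of_mem_erase hx) hw.2 hwx⟩)
        (by
          refine DownChain.mk' ?_ (fun x hx y hy => hA'.total hx hy) ?_
          · intro x hx
            rw [Finset.mem_erase]
            exact ⟨fun e => hba' (e ▸ (hA'eq x).1 hx), hA'.sub hx⟩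
          · intro x hx w hw hwx
            exact hA'.down' hx (Finset.mem_of_mem_erase hw) hwx)
        hA'ne (Finset.mem_erase.2 ⟨Ne.symm hba, haA⟩) haA'
        ⟨a', ha'A', fun h => ha'A (Finset.mem_of_mem_erase h), ha'max⟩
        (fun x hx => hamax x (Finset.mem_of_mem_erase hx))
        (Finset.mem_erase.2 ⟨hy₁b, hy₁⟩) (Finset.mem_erase.2 ⟨hy₂b, hy₂⟩)
        (by
          intro w hw
          rw [Finset.mem_erase] at hw
          rw [hD₁ w hw.2, Finset.mem_erase]
          simp [hw.1])
        (by
          intro w hw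
          rw [Finset.mem_erase] at hw
          rw [hD₂ w hw.2, Finset.mem_erase]
          simp [hw.1])
      rw [Finset.mem_erase] at h1
      -- now `y₃` is exactly above `b` and `a'`
      have hD₃ : ∀ w ∈ X, w < y₃ ↔ w = b ∨ w = a' := by
        have hx1 : ∀ w ∈ X, w ≠ b → (w < y₃ ↔ w = a') := by
          intro w hw hwb
          rw [h2 w (Finset.mem_erase.2 ⟨hwb, hw⟩), hA'eq]
        have hby₃ : b < y₃ := by
          by_contra hb3
          obtain ⟨w, hw, hw'⟩ := hcon y₃ h1.2
          rw [hA'eq] at hw'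
          by_cases hwb : w = b
          · subst hwb
            rcases hw' with h | h
            · exact hb3 h.1
            · exact hba' h.2
          · have := hx1 w hw hwb
            rcases hw' with h | h
            · exact h.2 (this.1 h.1)
            · exact h.1 (this.2 h.2)
        intro w hw
        by_cases hwb : w = b
        · simp [hwb, hby₃]
        · rw [hx1 w hw hwb]; simp [hwb]
      -- the successor of `b` in `A`
      obtain ⟨b2, hb2, hb2min⟩ := exists_min_chain (S := A.erase b) hA
        (Finset.erase_subset _ _) ⟨a, Finset.mem_erase.2 ⟨Ne.symm hba, haA⟩⟩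
      rw [Finset.mem_erase] at hb2
      refine base b y₃ b2 hbX h1.2 (hA.sub hb2.2) hba' hbminX hD₃ ?_
      intro w hw
      constructor
      · intro hwb2
        by_contra hwb
        have := hb2min w (Finset.mem_erase.2 ⟨hwb, hA.down' hb2.2 hw hwb2⟩)
        exact absurd (hwb2.trans_le this) (lt_irrefl _)
      · rintro rfl
        exact lt_of_le_of_ne (hbmin b2 hb2.2) (Ne.symm hb2.1)
    · push Not at hA1
      have hAeq : ∀ x, x ∈ A ↔ x = a := fun x => ⟨fun h => hA1 x h, fun h => h ▸ haA⟩
      refine base a y₁ y₂ haX hy₁ hy₂ haa' ?_ ?_ ?_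
      · intro w hw hwa
        have := (hAeq w).1 (hA.down' haA hw hwa)
        exact absurd (this ▸ hwa) (lt_irrefl _)
      · intro w hw
        rw [hD₁ w hw, hAeq, hA'eq]
      · intro w hw
        rw [hD₂ w hw, hAeq]

/-- **Filters.** -/
theorem elim_iff [Fintype α] :
    Elim α ↔ ∀ X : Finset α, IsUpperSet (X : Set α) → AllEq X := by
  classical
  constructor
  · intro hE X hX
    exact hE.allEq hX
  · intro h y₁ y₂ a a' h1 h2 h3 h4
    set X : Finset α := univ.filter (fun x => ¬ ((x < y₁ ∨ x < y₂) ∧ x ≠ a ∧ x ≠ a')) with hXdef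
    have hXm : ∀ x, x ∈ X ↔ ¬ ((x < y₁ ∨ x < y₂) ∧ x ≠ a ∧ x ≠ a') := by
      intro x; simp [hXdef]
    have hX : IsUpperSet (X : Set α) := by
      intro x y hxy hx
      rw [Finset.mem_coe, hXm] at hx ⊢
      rintro ⟨h5, h6, h7⟩
      apply hx
      refine ⟨h5.imp (fun h => hxy.trans_lt h) (fun h => hxy.trans_lt h), ?_, ?_⟩
      · rintro rfl
        rcases hxy.eq_or_lt with h8 | h8
        · exact h6 h8.symm
        · rcases h5 with h5 | h5
          · exact h1.2 h8 h5
          · exact h2.2 h8 h5
      · rintro rfl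
        rcases hxy.eq_or_lt with h8 | h8
        · exact h7 h8.symm
        · rcases h5 with h5 | h5
          · exact h3.2 h8 h5
          · exact h4 (h8.trans h5)
    have haX : a ∈ X := by rw [hXm]; tauto
    have ha'X : a' ∈ X := by rw [hXm]; tauto
    have haa' : a ≠ a' := fun e => h4 (e ▸ h2.lt)
    have hlow : ∀ w ∈ X, (w < y₁ ∨ w < y₂) → w = a ∨ w = a' := by
      intro w hw hwy
      by_contra hc
      push Not at hc
      exact (hXm w).1 hw ⟨hwy, hc⟩
    have hamin : ∀ w ∈ X, ¬ w < a := by
      intro w hw hwa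
      rcases hlow w hw (Or.inl (hwa.trans h1.lt)) with h | h
      · exact absurd (h ▸ hwa) (lt_irrefl _)
      · exact h4 (h ▸ hwa.trans h2.lt)
    have ha'min : ∀ w ∈ X, ¬ w < a' := by
      intro w hw hwa
      rcases hlow w hw (Or.inl (hwa.trans h3.lt)) with h | h
      · exact h1.2 (h ▸ hwa) h3.lt
      · exact absurd (h ▸ hwa) (lt_irrefl _)
    have hsd : ∀ b ∈ X, (∀ w ∈ X, ¬ w < b) → DownChain X {b} := by
      intro b hb hbm
      refine DownChain.mk' (by simpa using hb) ?_ ?_
      · intro x hx y hy
        rw [Finset.mem_singleton] at hx hy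
        rw [hx, hy]; exact Or.inl le_rfl
      · intro x hx w hw hwx
        rw [Finset.mem_singleton] at hx
        rw [hx] at hwx
        exact absurd hwx (hbm w hw)
    have hy₁X : y₁ ∈ X := hX h1.lt.le haX
    have hy₂X : y₂ ∈ X := hX h2.lt.le haX
    obtain ⟨y₃, hy₃, hD₃⟩ := claim X.card X rfl hX (fun Y _ hYu => h Y hYu) {a} {a'} y₁ y₂ a
      (hsd a haX hamin) (hsd a' ha'X ha'min) (by simp) (by simp) (by simpa using haa')
      ⟨a', by simp, by simpa using Ne.symm haa', by simp⟩ (by simp) hy₁X hy₂X
      (by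
        intro w hw
        rw [Finset.mem_singleton, Finset.mem_singleton]
        constructor
        · intro hwy; exact hlow w hw (Or.inl hwy)
        · rintro (rfl | rfl)
          · exact h1.lt
          · exact h3.lt)
      (by
        intro w hw
        rw [Finset.mem_singleton]
        constructor
        · intro hwy
          rcases hlow w hw (Or.inr hwy) with h5 | h5
          · exact h5
          · exact absurd (h5 ▸ hwy) h4
        · rintro rfl
          exact h2.lt)
    have hD₃' : ∀ w ∈ X, w < y₃ ↔ w = a' := by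
      intro w hw
      rw [hD₃ w hw, Finset.mem_singleton]
    refine ⟨y₃, ⟨(hD₃' a' ha'X).2 rfl, ?_⟩, ?_, ?_⟩
    · intro z hz1 hz2
      have hzX : z ∈ X := hX hz1.le ha'X
      have := (hD₃' z hzX).1 hz2
      exact absurd (this ▸ hz1) (lt_irrefl _)
    · intro h5
      exact haa' ((hD₃' a haX).1 h5)
    · intro x hx hxa'
      by_contra hc
      have hxX : x ∈ X := by
        rw [hXm]
        exact fun h5 => hc h5.1
      exact hxa' ((hD₃' x hxX).1 hx)

end GreedyJump
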