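import Pool.Agent.GreedyJump.Size

/-!
Subformulas and changes of signs.
-/

open Finset

namespace GreedyJump

set_option linter.unusedSectionVars false
set_option linter.constructorNameAsVariable false

variable {V I : Type*} {cl : I → Finset (V × Bool)}

/-- the clauses occurring in an element -/
def Elt.cls : Elt cl → List I
  | .a i => [i]
  | .s => []
  | .u p => [p.clause]
  | .y => []
  | .f (.pair p q _) => [p.clause, q.clause]
  | .f (.tri p q _) => [p.clause, q.clause]
  | .f (.quad p q r t _) => [p.clause, q.clause, r.clause, t.clause]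

lemma length_cls (x : Elt cl) : x.cls.length ≤ 4 := by
  rcases x with i | _ | p | _ | (⟨p, q, hg⟩ | ⟨p, q, hg⟩ | ⟨p, q, r, t, hg⟩) <;> simp [Elt.cls]

/-! ### Subformulas -/

section sub

variable (S : I → Prop)

/-- the clauses in `S` -/
abbrev subCl (cl : I → Finset (V × Bool)) : {i // S i} → Finset (V × Bool) := fun i => cl i.1

variable {S}

def occSub (p : Occ (subCl S cl)) : Occ cl := ⟨(p.1.1.1, p.1.2), p.2⟩

lemma occSub_inj {p q : Occ (subCl S cl)} : occSub p = occSub q ↔ p = q := by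
  constructor
  · intro h
    have h1 := congrArg Subtype.val h
    simp only [occSub, Prod.mk.injEq] at h1
    exact Subtype.ext (Prod.ext (Subtype.ext h1.1) h1.2)
  · rintro rfl; rfl

lemma occSub_lit (p : Occ (subCl S cl)) : (occSub p).lit = p.lit := rfl

lemma occSub_clause (p : Occ (subCl S cl)) : (occSub p).clause = p.clause.1 := rfl

lemma exists_occSub (p : Occ cl) (h : S p.clause) : ∃ q : Occ (subCl S cl), occSub q = p :=
  ⟨⟨(⟨p.1.1, h⟩, p.1.2), p.2⟩, rfl⟩

def gadSub : Gad (subCl S cl) → Gad cl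
  | .pair p q h => .pair (occSub p) (occSub q) ⟨fun e => h.1 (occSub_inj.1 e), h.2⟩
  | .tri p q h => .tri (occSub p) (occSub q) h
  | .quad p q r t h => .quad (occSub p) (occSub q) (occSub r) (occSub t) h

lemma gadSub_inj {g h : Gad (subCl S cl)} : gadSub g = gadSub h ↔ g = h := by
  constructor
  · intro e
    cases g with
    | pair p q hg =>
      cases h with
      | pair p' q' _ =>
        have := Gad.pair.inj e
        rw [occSub_inj, occSub_inj] at this
        obtain ⟨rfl, rfl⟩ := this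
        rfl
      | _ => simp [gadSub] at e
    | tri p q hg =>
      cases h with
      | tri p' q' _ =>
        have := Gad.tri.inj e
        rw [occSub_inj, occSub_inj] at this
        obtain ⟨rfl, rfl⟩ := this
        rfl
      | _ => simp [gadSub] at e
    | quad p q r t hg =>
      cases h with
      | quad p' q' r' t' _ =>
        have := Gad.quad.inj e
        rw [occSub_inj, occSub_inj, occSub_inj, occSub_inj] at this
        obtain ⟨rfl, rfl, rfl, rfl⟩ := this
        rfl
      | _ => simp [gadSub] at e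
  · rintro rfl; rfl

def eltSub : Elt (subCl S cl) → Elt cl
  | .a i => .a i.1
  | .s => .s
  | .u p => .u (occSub p)
  | .y => .y
  | .f g => .f (gadSub g)

lemma eltSub_inj : Function.Injective (eltSub (S := S) (cl := cl)) := by
  intro x y h
  cases x <;> cases y <;> simp only [eltSub, Elt.a.injEq, Elt.u.injEq, Elt.f.injEq,
    occSub_inj, gadSub_inj, reduceCtorEq] at h ⊢ <;> first | exact h | exact Subtype.ext h

lemma gadSub_low_none (g : Gad (subCl S cl)) : (gadSub g).low none ↔ g.low none := by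
  rcases g with ⟨p, q, hg⟩ | ⟨p, q, hg⟩ | ⟨p, q, r, t, hg⟩ <;> simp [gadSub, Gad.low]

lemma gadSub_low_some (g : Gad (subCl S cl)) (p : Occ cl) :
    (gadSub g).low (some p) ↔ ∃ q, occSub q = p ∧ g.low (some q) := by
  rcases g with ⟨p₁, q₁, hg⟩ | ⟨p₁, q₁, hg⟩ | ⟨p₁, q₁, r₁, t₁, hg⟩ <;>
  simp only [gadSub, Gad.low, Option.some.injEq, reduceCtorEq, false_or]
  · constructor
    · rintro (rfl | rfl)
      · exact ⟨_, rfl, Or.inl rfl⟩
      · exact ⟨_, rfl, Or.inr rfl⟩
    · rintro ⟨q, rfl, rfl | rfl⟩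
      · exact Or.inl rfl
      · exact Or.inr rfl
  · constructor
    · rintro (rfl | rfl)
      · exact ⟨_, rfl, Or.inl rfl⟩
      · exact ⟨_, rfl, Or.inr rfl⟩
    · rintro ⟨q, rfl, rfl | rfl⟩
      · exact Or.inl rfl
      · exact Or.inr rfl
  · constructor
    · rintro (rfl | rfl | rfl | rfl)
      · exact ⟨_, rfl, Or.inl rfl⟩
      · exact ⟨_, rfl, Or.inr (Or.inl rfl)⟩
      · exact ⟨_, rfl, Or.inr (Or.inr (Or.inl rfl))⟩
      · exact ⟨_, rfl, Or.inr (Or.inr (Or.inr rfl))⟩
    · rintro ⟨q, rfl, rfl | rfl | rfl | rfl⟩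
      · exact Or.inl rfl
      · exact Or.inr (Or.inl rfl)
      · exact Or.inr (Or.inr (Or.inl rfl))
      · exact Or.inr (Or.inr (Or.inr rfl))

lemma eltSub_lt (x y : Elt (subCl S cl)) : Elt.lt (eltSub x) (eltSub y) ↔ Elt.lt x y := by
  cases x with
  | a i =>
    cases y with
    | u p =>
      change (occSub p).clause = i.1 ↔ p.clause = i
      rw [occSub_clause, Subtype.ext_iff]
    | f g =>
      change (∃ p, (gadSub g).low (some p) ∧ p.clause = i.1) ↔ ∃ p, g.low (some p) ∧ p.clause = i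
      constructor
      · rintro ⟨p, h1, h2⟩
        obtain ⟨q, rfl, h3⟩ := (gadSub_low_some g p).1 h1
        exact ⟨q, h3, Subtype.ext h2⟩
      · rintro ⟨q, h1, rfl⟩
        exact ⟨occSub q, (gadSub_low_some g _).2 ⟨q, rfl, h1⟩, rfl⟩
    | _ => exact Iff.rfl
  | s =>
    cases y with
    | f g => exact gadSub_low_none g
    | _ => exact Iff.rfl
  | u p =>
    cases y with
    | f g =>
      change (gadSub g).low (some (occSub p)) ↔ g.low (some p)
      rw [gadSub_low_some]
      constructor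
      · rintro ⟨q, h1, h2⟩
        rw [occSub_inj] at h1
        rw [← h1]; exact h2
      · exact fun h => ⟨p, rfl, h⟩
    | _ => exact Iff.rfl
  | y => cases y <;> exact Iff.rfl
  | f g => cases y <;> exact Iff.rfl

/-- the poset of a subformula is a subposet -/
lemma eltSub_le {x y : Elt (subCl S cl)} : eltSub x ≤ eltSub y ↔ x ≤ y := by
  change (eltSub x = eltSub y ∨ Elt.lt (eltSub x) (eltSub y)) ↔ (x = y ∨ Elt.lt x y)
  rw [eltSub_lt, eltSub_inj.eq_iff]

lemma exists_eltSub (x : Elt cl) : (∀ i ∈ x.cls, S i) ↔ ∃ z : Elt (subCl S cl), eltSub z = x := by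
  constructor
  · intro h
    rcases x with i | _ | p | _ | (⟨p, q, hg⟩ | ⟨p, q, hg⟩ | ⟨p, q, r, t, hg⟩)
    · exact ⟨.a ⟨i, h i (by simp [Elt.cls])⟩, rfl⟩
    · exact ⟨.s, rfl⟩
    · obtain ⟨p', rfl⟩ := exists_occSub p (h _ (by simp [Elt.cls]))
      exact ⟨.u p', rfl⟩
    · exact ⟨.y, rfl⟩
    · obtain ⟨p', rfl⟩ := exists_occSub p (h _ (by simp [Elt.cls]))
      obtain ⟨q', rfl⟩ := exists_occSub q (h _ (by simp [Elt.cls]))
      exact ⟨.f (.pair p' q' ⟨fun e => hg.1 (by rw [e]), hg.2⟩), rfl⟩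
    · obtain ⟨p', rfl⟩ := exists_occSub p (h _ (by simp [Elt.cls]))
      obtain ⟨q', rfl⟩ := exists_occSub q (h _ (by simp [Elt.cls]))
      exact ⟨.f (.tri p' q' hg), rfl⟩
    · obtain ⟨p', rfl⟩ := exists_occSub p (h _ (by simp [Elt.cls]))
      obtain ⟨q', rfl⟩ := exists_occSub q (h _ (by simp [Elt.cls]))
      obtain ⟨r', rfl⟩ := exists_occSub r (h _ (by simp [Elt.cls]))
      obtain ⟨t', rfl⟩ := exists_occSub t (h _ (by simp [Elt.cls]))
      exact ⟨.f (.quad p' q' r' t' hg), rfl⟩
  · rintro ⟨z, rfl⟩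
    rcases z with i | _ | p | _ | (⟨p, q, hg⟩ | ⟨p, q, hg⟩ | ⟨p, q, r, t, hg⟩)
    · intro j hj
      simp only [eltSub, Elt.cls, List.mem_singleton] at hj
      subst hj; exact i.2
    · intro j hj; simp [eltSub, Elt.cls] at hj
    · intro j hj
      simp only [eltSub, Elt.cls, List.mem_singleton] at hj
      subst hj; exact p.clause.2
    · intro j hj; simp [eltSub, Elt.cls] at hj
    · intro j hj
      simp only [eltSub, gadSub, Elt.cls, List.mem_cons, List.not_mem_nil, or_false] at hj
      rcases hj with rfl | rfl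
      · exact p.clause.2
      · exact q.clause.2
    · intro j hj
      simp only [eltSub, gadSub, Elt.cls, List.mem_cons, List.not_mem_nil, or_false] at hj
      rcases hj with rfl | rfl
      · exact p.clause.2
      · exact q.clause.2
    · intro j hj
      simp only [eltSub, gadSub, Elt.cls, List.mem_cons, List.not_mem_nil, or_false] at hj
      rcases hj with rfl | rfl | rfl | rfl
      · exact p.clause.2
      · exact q.clause.2
      · exact r.clause.2
      · exact t.clause.2

end sub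

/-! ### Changes of signs -/

/-- an involution of the clauses together with a change of signs -/
structure Flip (cl : I → Finset (V × Bool)) where
  /-- the involution -/
  σ : I → I
  /-- the sign changes -/
  F : V → Bool
  inv : ∀ i, σ (σ i) = i
  mem : ∀ i x b, (x, b) ∈ cl i → (x, xor b (F x)) ∈ cl (σ i)

variable (T : Flip cl)

def occFlip (p : Occ cl) : Occ cl :=
  ⟨(T.σ p.1.1, (p.1.2.1, xor p.1.2.2 (T.F p.1.2.1))), T.mem _ _ _ p.2⟩

lemma occFlip_flip (p : Occ cl) : occFlip T (occFlip T p) = p := by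
  apply Subtype.ext
  refine Prod.ext (T.inv _) (Prod.ext rfl ?_)
  change xor (xor p.1.2.2 (T.F p.1.2.1)) (T.F p.1.2.1) = p.1.2.2
  simp

lemma occFlip_inj {p q : Occ cl} (h : occFlip T p = occFlip T q) : p = q := by
  rw [← occFlip_flip T p, h, occFlip_flip]

lemma occFlip_clause (p : Occ cl) : (occFlip T p).clause = T.σ p.clause := rfl

lemma occFlip_lit1 (p : Occ cl) : (occFlip T p).lit.1 = p.lit.1 := rfl

lemma occFlip_lit2 (p : Occ cl) : (occFlip T p).lit.2 = xor p.lit.2 (T.F p.lit.1) := rfl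

lemma occFlip_lit {p q : Occ cl} (h : p.lit = q.lit) : (occFlip T p).lit = (occFlip T q).lit := by
  refine Prod.ext ?_ ?_
  · rw [occFlip_lit1, occFlip_lit1, h]
  · rw [occFlip_lit2, occFlip_lit2, h]

lemma occFlip_opp {p q : Occ cl} (h : Opp p q) : Opp (occFlip T p) (occFlip T q) := by
  refine ⟨?_, ?_⟩
  · rw [occFlip_lit1, occFlip_lit1]; exact h.1
  · rw [occFlip_lit2, occFlip_lit2, h.1]
    intro e
    exact h.2 (by simpa using e)

def gadFlip : Gad cl → Gad cl
  | .pair p q h => .pair (occFlip T p) (occFlip T q)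
      ⟨fun e => h.1 (occFlip_inj T e), occFlip_lit T h.2⟩
  | .tri p q h => .tri (occFlip T p) (occFlip T q) (occFlip_opp T h)
  | .quad p q r t h => .quad (occFlip T p) (occFlip T q) (occFlip T r) (occFlip T t)
      ⟨occFlip_opp T h.1, occFlip_opp T h.2.1, h.2.2⟩

lemma gadFlip_flip (g : Gad cl) : gadFlip T (gadFlip T g) = g := by
  rcases g with ⟨p, q, hg⟩ | ⟨p, q, hg⟩ | ⟨p, q, r, t, hg⟩ <;> simp [gadFlip, occFlip_flip]

lemma gadFlip_low {g : Gad cl} {x : Option (Occ cl)} (h : g.low x) :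
    (gadFlip T g).low (x.map (occFlip T)) := by
  rcases g with ⟨p, q, hg⟩ | ⟨p, q, hg⟩ | ⟨p, q, r, t, hg⟩
  · rcases h with rfl | rfl
    · exact Or.inl rfl
    · exact Or.inr rfl
  · rcases h with rfl | rfl | rfl
    · exact Or.inl rfl
    · exact Or.inr (Or.inl rfl)
    · exact Or.inr (Or.inr rfl)
  · rcases h with rfl | rfl | rfl | rfl
    · exact Or.inl rfl
    · exact Or.inr (Or.inl rfl)
    · exact Or.inr (Or.inr (Or.inl rfl))
    · exact Or.inr (Or.inr (Or.inr rfl))

def eltFlip : Elt cl → Elt cl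
  | .a i => .a (T.σ i)
  | .s => .s
  | .u p => .u (occFlip T p)
  | .y => .y
  | .f g => .f (gadFlip T g)

lemma eltFlip_flip (x : Elt cl) : eltFlip T (eltFlip T x) = x := by
  cases x <;> simp [eltFlip, T.inv, occFlip_flip, gadFlip_flip]

lemma eltFlip_lt {x y : Elt cl} (h : Elt.lt x y) : Elt.lt (eltFlip T x) (eltFlip T y) := by
  cases x with
  | a i =>
    cases y with
    | u p =>
      change (occFlip T p).clause = T.σ i
      rw [occFlip_clause]
      exact congrArg T.σ h
    | f g =>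
      obtain ⟨p, h1, h2⟩ := h
      refine ⟨occFlip T p, gadFlip_low T h1, ?_⟩
      rw [occFlip_clause, h2]
    | y => trivial
    | a j => exact h
    | s => exact h
  | s =>
    cases y with
    | f g => exact gadFlip_low T h
    | y => trivial
    | a j => exact h
    | s => exact h
    | u p => exact h
  | u p =>
    cases y with
    | f g => exact gadFlip_low T h
    | y => exact h
    | a j => exact h
    | s => exact h
    | u p => exact h
  | y => cases y <;> exact h
  | f g => cases y <;> exact h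

lemma eltFlip_le {x y : Elt cl} : eltFlip T x ≤ eltFlip T y ↔ x ≤ y := by
  have h : ∀ x y : Elt cl, x ≤ y → eltFlip T x ≤ eltFlip T y := by
    rintro x y (rfl | h)
    · exact le_rfl
    · exact Or.inr (eltFlip_lt T h)
  refine ⟨fun h1 => ?_, h x y⟩
  have := h _ _ h1
  rwa [eltFlip_flip, eltFlip_flip] at this

lemma eltFlip_inj : Function.Injective (eltFlip T) := by
  intro x y h
  rw [← eltFlip_flip T x, h, eltFlip_flip]

lemma cls_eltFlip (x : Elt cl) : (eltFlip T x).cls = x.cls.map T.σ := by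
  rcases x with i | _ | p | _ | (⟨p, q, hg⟩ | ⟨p, q, hg⟩ | ⟨p, q, r, t, hg⟩) <;> rfl

/-- two changes of signs which agree on the clauses of an element -/
lemma eltFlip_congr (T' : Flip cl) (x : Elt cl)
    (h : ∀ i ∈ x.cls, T.σ i = T'.σ i ∧ ∀ l ∈ cl i, T.F l.1 = T'.F l.1) :
    eltFlip T x = eltFlip T' x := by
  have ho : ∀ p : Occ cl, p.clause ∈ x.cls → occFlip T p = occFlip T' p := by
    intro p hp
    obtain ⟨h1, h2⟩ := h _ hp
    apply Subtype.ext
    refine Prod.ext h1 (Prod.ext rfl ?_)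
    change xor p.1.2.2 (T.F p.1.2.1) = xor p.1.2.2 (T'.F p.1.2.1)
    rw [h2 p.1.2 p.2]
  rcases x with i | _ | p | _ | (⟨p, q, hg⟩ | ⟨p, q, hg⟩ | ⟨p, q, r, t, hg⟩)
  · simp only [eltFlip]
    rw [(h i (by simp [Elt.cls])).1]
  · rfl
  · simp only [eltFlip]
    rw [ho p (by simp [Elt.cls])]
  · rfl
  · simp only [eltFlip, gadFlip, Elt.f.injEq, Gad.pair.injEq]
    exact ⟨ho p (by simp [Elt.cls]), ho q (by simp [Elt.cls])⟩
  · simp only [eltFlip, gadFlip, Elt.f.injEq, Gad.tri.injEq]
    exact ⟨ho p (by simp [Elt.cls]), ho q (by simp [Elt.cls])⟩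
  · simp only [eltFlip, gadFlip, Elt.f.injEq, Gad.quad.injEq]
    exact ⟨ho p (by simp [Elt.cls]), ho q (by simp [Elt.cls]), ho r (by simp [Elt.cls]),
      ho t (by simp [Elt.cls])⟩

end GreedyJump
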