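import Pool.Agent.GreedyJump.Confl

/-!
Encoding satisfiability in greedy posets.
-/

open Finset

namespace GreedyJump

set_option linter.unusedSectionVars false

variable {V I : Type*}

/-- The CNF formula with clauses `cl i`, each a finite set of literals (a literal is a variable
with a sign), is satisfiable. -/
def Sat (cl : I → Finset (V × Bool)) : Prop :=
  ∃ τ : V → Bool, ∀ i, ∃ l ∈ cl i, τ l.1 = l.2

/-- The occurrences of literals in the clauses. -/
def Occ (cl : I → Finset (V × Bool)) : Type _ := {p : I × (V × Bool) // p.2 ∈ cl p.1}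

/-- the clause of an occurrence -/
def Occ.clause {cl : I → Finset (V × Bool)} (p : Occ cl) : I := p.1.1

/-- the literal of an occurrence -/
def Occ.lit {cl : I → Finset (V × Bool)} (p : Occ cl) : V × Bool := p.1.2

/-- Two occurrences carry opposite literals. -/
def Opp {cl : I → Finset (V × Bool)} (p q : Occ cl) : Prop :=
  p.lit.1 = q.lit.1 ∧ p.lit.2 ≠ q.lit.2

/-- The gadgets. -/
inductive Gad (cl : I → Finset (V × Bool)) : Type _
  | pair (p q : Occ cl) (h : p ≠ q ∧ p.lit = q.lit) : Gad cl
  | tri (p q : Occ cl) (h : Opp p q) : Gad cl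
  | quad (p q r t : Occ cl) (h : Opp p q ∧ Opp r t ∧ p.lit.1 ≠ r.lit.1) : Gad cl

/-- `low g x`: the gadget `g` lies above `x` (`none` stands for the element `s`). -/
def Gad.low {cl : I → Finset (V × Bool)} : Gad cl → Option (Occ cl) → Prop
  | .pair p q _, x => x = some p ∨ x = some q
  | .tri p q _, x => x = none ∨ x = some p ∨ x = some q
  | .quad p q r t _, x => x = some p ∨ x = some q ∨ x = some r ∨ x = some t

/-- The elements of the poset encoding the formula. -/
inductive Elt (cl : I → Finset (V × Bool)) : Type _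
  | a (i : I) : Elt cl
  | s : Elt cl
  | u (p : Occ cl) : Elt cl
  | y : Elt cl
  | f (g : Gad cl) : Elt cl

/-- The strict order: `a i` is below the occurrences of literals in clause `i`, below `y`, and
below the gadgets above these occurrences; `s` is below `y` and some gadgets; an occurrence is
below some gadgets. -/
def Elt.lt {cl : I → Finset (V × Bool)} : Elt cl → Elt cl → Prop
  | .a i, .u p => p.clause = i
  | .a _, .y => True
  | .a i, .f g => ∃ p, g.low (some p) ∧ p.clause = i
  | .s, .y => True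
  | .s, .f g => g.low none
  | .u p, .f g => g.low (some p)
  | _, _ => False

variable {cl : I → Finset (V × Bool)}

lemma Elt.lt_trans' {x y z : Elt cl} (h1 : Elt.lt x y) (h2 : Elt.lt y z) : Elt.lt x z := by
  cases x <;> cases y <;> cases z <;> simp only [Elt.lt] at h1 h2 ⊢
  exact ⟨_, h2, h1⟩

lemma Elt.lt_irrefl' (x : Elt cl) : ¬ Elt.lt x x := by
  cases x <;> simp [Elt.lt]

instance : PartialOrder (Elt cl) where
  le x y := x = y ∨ Elt.lt x y
  lt x y := Elt.lt x y
  le_refl x := Or.inl rfl
  le_trans x y z := by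
    rintro (rfl | h1) (rfl | h2)
    · exact Or.inl rfl
    · exact Or.inr h2
    · exact Or.inr h1
    · exact Or.inr (Elt.lt_trans' h1 h2)
  lt_iff_le_not_ge x y := by
    constructor
    · intro h
      refine ⟨Or.inr h, ?_⟩
      rintro (rfl | h')
      · exact Elt.lt_irrefl' _ h
      · exact Elt.lt_irrefl' _ (Elt.lt_trans' h h')
    · rintro ⟨rfl | h1, h2⟩
      · exact absurd (Or.inl rfl) h2
      · exact h1
  le_antisymm x y := by
    rintro (rfl | h1) (h2 | h2)
    · rfl
    · rfl
    · exact h2.symm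
    · exact absurd (Elt.lt_trans' h1 h2) (Elt.lt_irrefl' _)

/-! ### The matroid-like family of gadgets -/

lemma Opp.symm {p q : Occ cl} (h : Opp p q) : Opp q p := ⟨h.1.symm, h.2.symm⟩

/-- `x` is spanned by `D` -/
def Sp (D : Option (Occ cl) → Prop) : Option (Occ cl) → Prop
  | none => ∃ e e', Opp e e' ∧ D (some e) ∧ D (some e')
  | some u => (∃ u', u' ≠ u ∧ u'.lit = u.lit ∧ D (some u')) ∨
      ((D none ∨ ∃ e e', Opp e e' ∧ D (some e) ∧ D (some e')) ∧ ∃ e', Opp u e' ∧ D (some e'))

lemma sp_exists {D : Option (Occ cl) → Prop} {q : Option (Occ cl)} (hq : ¬ D q) (h : Sp D q) :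
    ∃ g : Gad cl, g.low q ∧ ∀ x, g.low x → x ≠ q → D x := by
  cases q with
  | none =>
    obtain ⟨e, e', h1, h2, h3⟩ := h
    refine ⟨.tri e e' h1, Or.inl rfl, ?_⟩
    rintro x (h | h | h) hx
    · exact absurd h hx
    · rw [h]; exact h2
    · rw [h]; exact h3
  | some u =>
    rcases h with ⟨u', h1, h2, h3⟩ | ⟨h1, e', h2, h3⟩
    · refine ⟨.pair u u' ⟨Ne.symm h1, h2.symm⟩, Or.inl rfl, ?_⟩
      rintro x (h | h) hx
      · exact absurd h hx
      · rw [h]; exact h3
    · rcases h1 with h1 | ⟨f, f', h4, h5, h6⟩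
      · refine ⟨.tri u e' h2, Or.inr (Or.inl rfl), ?_⟩
        rintro x (h | h | h) hx
        · rw [h]; exact h1
        · exact absurd h hx
        · rw [h]; exact h3
      · by_cases hv : u.lit.1 = f.lit.1
        · -- one of `f`, `f'` has the same literal as `u`
          have hex : ∃ u', u' ≠ u ∧ u'.lit = u.lit ∧ D (some u') := by
            by_cases hb : u.lit.2 = f.lit.2
            · refine ⟨f, ?_, Prod.ext hv.symm hb.symm, h5⟩
              rintro rfl; exact hq h5
            · refine ⟨f', ?_, Prod.ext (h4.1.symm.trans hv.symm) ?_, h6⟩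
              · rintro rfl; exact hq h6
              · have h7 := h4.2
                revert hb h7
                cases u.lit.2 <;> cases f.lit.2 <;> cases f'.lit.2 <;> simp
          obtain ⟨u', h1, h2, h3⟩ := hex
          refine ⟨.pair u u' ⟨Ne.symm h1, h2.symm⟩, Or.inl rfl, ?_⟩
          rintro x (h | h) hx
          · exact absurd h hx
          · rw [h]; exact h3
        · refine ⟨.quad u e' f f' ⟨h2, h4, hv⟩, Or.inl rfl, ?_⟩
          rintro x (h | h | h | h) hx
          · exact absurd h hx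
          · rw [h]; exact h3
          · rw [h]; exact h5
          · rw [h]; exact h6

lemma low_sp {D : Option (Occ cl) → Prop} {q : Option (Occ cl)} (g : Gad cl) (hq : g.low q)
    (h : ∀ x, g.low x → x ≠ q → D x) : Sp D q := by
  cases g with
  | pair e e' hg =>
    rcases hq with rfl | rfl
    · refine Or.inl ⟨e', Ne.symm hg.1, hg.2.symm, h _ (Or.inr rfl) ?_⟩
      simpa using Ne.symm hg.1
    · refine Or.inl ⟨e, hg.1, hg.2, h _ (Or.inl rfl) ?_⟩
      simpa using hg.1
  | tri e e' hg =>
    have hne : e ≠ e' := fun hh => hg.2 (by rw [hh])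
    rcases hq with rfl | rfl | rfl
    · exact ⟨e, e', hg, h _ (Or.inr (Or.inl rfl)) (by simp), h _ (Or.inr (Or.inr rfl)) (by simp)⟩
    · refine Or.inr ⟨Or.inl (h _ (Or.inl rfl) (by simp)), e', hg, h _ (Or.inr (Or.inr rfl)) ?_⟩
      simpa using Ne.symm hne
    · refine Or.inr ⟨Or.inl (h _ (Or.inl rfl) (by simp)), e, hg.symm,
        h _ (Or.inr (Or.inl rfl)) ?_⟩
      simpa using hne
  | quad e e' f f' hg =>
    obtain ⟨h1, h2, h3⟩ := hg
    have n1 : e ≠ e' := fun hh => h1.2 (by rw [hh])
    have n2 : f ≠ f' := fun hh => h2.2 (by rw [hh])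
    have n3 : e ≠ f := fun hh => h3 (by rw [hh])
    have n4 : e' ≠ f := fun hh => h3 (by rw [h1.1, hh])
    have n5 : e ≠ f' := fun hh => h3 (by rw [hh, ← h2.1])
    have n6 : e' ≠ f' := fun hh => h3 (by rw [h1.1, hh, ← h2.1])
    rcases hq with rfl | rfl | rfl | rfl
    · refine Or.inr ⟨Or.inr ⟨f, f', h2, h _ (Or.inr (Or.inr (Or.inl rfl))) ?_,
        h _ (Or.inr (Or.inr (Or.inr rfl))) ?_⟩, e', h1, h _ (Or.inr (Or.inl rfl)) ?_⟩
      · simpa using Ne.symm n3
      · simpa using Ne.symm n5
      · simpa using Ne.symm n1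
    · refine Or.inr ⟨Or.inr ⟨f, f', h2, h _ (Or.inr (Or.inr (Or.inl rfl))) ?_,
        h _ (Or.inr (Or.inr (Or.inr rfl))) ?_⟩, e, h1.symm, h _ (Or.inl rfl) ?_⟩
      · simpa using Ne.symm n4
      · simpa using Ne.symm n6
      · simpa using n1
    · refine Or.inr ⟨Or.inr ⟨e, e', h1, h _ (Or.inl rfl) ?_, h _ (Or.inr (Or.inl rfl)) ?_⟩,
        f', h2, h _ (Or.inr (Or.inr (Or.inr rfl))) ?_⟩
      · simpa using n3
      · simpa using n4
      · simpa using Ne.symm n2
    · refine Or.inr ⟨Or.inr ⟨e, e', h1, h _ (Or.inl rfl) ?_, h _ (Or.inr (Or.inl rfl)) ?_⟩,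
        f, h2.symm, h _ (Or.inr (Or.inr (Or.inl rfl))) ?_⟩
      · simpa using n5
      · simpa using n6
      · simpa using n2

lemma opp_same {p q r : Occ cl} (h : Opp p q) (h' : Opp q r) : p.lit = r.lit := by
  refine Prod.ext (h.1.trans h'.1) ?_
  have h1 := h.2
  have h2 := h'.2
  revert h1 h2
  cases p.lit.2 <;> cases q.lit.2 <;> cases r.lit.2 <;> simp

lemma opp_of_same {p q r : Occ cl} (h : p.lit = q.lit) (h' : Opp q r) : Opp p r := by
  unfold Opp at *
  rw [h]; exact h'

lemma sp_trans {D : Option (Occ cl) → Prop} {p q : Option (Occ cl)} (hq : ¬ D q) (hpq : p ≠ q)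
    (h : Sp D p) (h' : Sp (fun x => D x ∨ x = p) q) : Sp D q := by
  cases p with
  | none =>
    cases q with
    | none => exact absurd rfl hpq
    | some u =>
      rcases h' with ⟨u', h1, h2, h3 | h3⟩ | ⟨-, e', h2, h3 | h3⟩
      · exact Or.inl ⟨u', h1, h2, h3⟩
      · exact absurd h3 (by simp)
      · exact Or.inr ⟨Or.inr h, e', h2, h3⟩
      · exact absurd h3 (by simp)
  | some v =>
    -- an element of `D ∪ {v}` with the literal of `w` can be replaced, when `v` is spanned
    -- by a parallel element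
    rcases h with ⟨v', k1, k2, k3⟩ | ⟨k1, v', k2, k3⟩
    · -- `v'` is parallel to `v`
      have rep : ∀ e : Occ cl, (D (some e) ∨ some e = some v) →
          ∃ e₁, e₁.lit = e.lit ∧ D (some e₁) := by
        rintro e (h | h)
        · exact ⟨e, rfl, h⟩
        · rw [Option.some.injEq] at h
          subst h
          exact ⟨v', k2, k3⟩
      have repPair : ∀ e e' : Occ cl, Opp e e' → (D (some e) ∨ some e = some v) →
          (D (some e') ∨ some e' = some v) →
          ∃ e₁ e₂ : Occ cl, Opp e₁ e₂ ∧ D (some e₁) ∧ D (some e₂) := by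
        intro e e' h1 h2 h3
        obtain ⟨e₁, l1, l2⟩ := rep e h2
        obtain ⟨e₂, l3, l4⟩ := rep e' h3
        refine ⟨e₁, e₂, ?_, l2, l4⟩
        unfold Opp at *
        rw [l1, l3]; exact h1
      cases q with
      | none =>
        obtain ⟨e, e', h1, h2, h3⟩ := h'
        exact repPair e e' h1 h2 h3
      | some u =>
        rcases h' with ⟨u', h1, h2, h3⟩ | ⟨h1, e', h2, h3⟩
        · obtain ⟨u₁, l1, l2⟩ := rep u' h3
          refine Or.inl ⟨u₁, ?_, l1.trans h2, l2⟩
          rintro rfl; exact hq l2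
        · obtain ⟨e₁, l1, l2⟩ := rep e' h3
          refine Or.inr ⟨?_, e₁, ?_, l2⟩
          · rcases h1 with (h1 | h1) | ⟨e, e'', g1, g2, g3⟩
            · exact Or.inl h1
            · exact absurd h1 (by simp)
            · exact Or.inr (repPair e e'' g1 g2 g3)
          · unfold Opp at *
            rw [l1]; exact h2
    · -- `s` is spanned and an opposite element is there
      cases q with
      | none =>
        rcases k1 with k1 | k1
        · exact absurd k1 hq
        · exact k1
      | some u =>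
        rcases h' with ⟨u', h1, h2, h3 | h3⟩ | ⟨h1, e', h2, h3 | h3⟩
        · exact Or.inl ⟨u', h1, h2, h3⟩
        · rw [Option.some.injEq] at h3
          subst h3
          exact Or.inr ⟨k1, v', opp_of_same h2.symm k2, k3⟩
        · exact Or.inr ⟨k1, e', h2, h3⟩
        · rw [Option.some.injEq] at h3
          subst h3
          refine Or.inl ⟨v', ?_, (opp_same h2 k2).symm, k3⟩
          rintro rfl; exact hq k3

/-- the elimination property of the gadgets -/
lemma gad_elim {D : Option (Occ cl) → Prop} {g₁ g₂ : Gad cl} {p q : Option (Occ cl)}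
    (hpq : p ≠ q) (hq : ¬ D q) (hq1 : g₁.low q)
    (h1 : ∀ r, g₁.low r → ¬ D r → r = p ∨ r = q) (hp2 : g₂.low p)
    (h2 : ∀ r, g₂.low r → ¬ D r → r = p) :
    ∃ g₃ : Gad cl, g₃.low q ∧ ∀ r, g₃.low r → ¬ D r → r = q := by
  classical
  have s1 : Sp D p := by
    refine low_sp g₂ hp2 (fun x hx hxp => ?_)
    by_contra hc
    exact hxp (h2 x hx hc)
  have s2 : Sp (fun x => D x ∨ x = p) q := by
    refine low_sp g₁ hq1 (fun x hx hxq => ?_)
    by_cases hc : D x
    · exact Or.inl hc
    · rcases h1 x hx hc with h | h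
      · exact Or.inr h
      · exact absurd h hxq
  obtain ⟨g₃, h3, h4⟩ := sp_exists hq (sp_trans hq hpq s1 s2)
  refine ⟨g₃, h3, fun r hr hrD => ?_⟩
  by_contra hc
  exact hrD (h4 r hr hc)

end GreedyJump
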