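import Pool.Agent.GreedyJump.Hard

/-!
The poset of a formula is greedy exactly when the formula is unsatisfiable.
-/

open Finset

namespace GreedyJump

set_option linter.unusedSectionVars false
set_option linter.constructorNameAsVariable false

variable {V I : Type*} {cl : I → Finset (V × Bool)}

/-- the element attached to a point of the ground set -/
def el : Option (Occ cl) → Elt cl
  | none => .s
  | some p => .u p

lemma lt_def (x y : Elt cl) : x < y ↔ Elt.lt x y := Iff.rfl

lemma el_inj {x y : Option (Occ cl)} (h : (el x : Elt cl) = el y) : x = y := by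
  cases x <;> cases y <;> simp_all [el]

lemma lt_f {x : Option (Occ cl)} {g : Gad cl} : (el x : Elt cl) < .f g ↔ g.low x := by
  cases x <;> simp [el, lt_def, Elt.lt]

lemma not_lt_a (x : Elt cl) (i : I) : ¬ x < .a i := by
  rw [lt_def]; cases x <;> simp [Elt.lt]

lemma not_lt_s (x : Elt cl) : ¬ x < .s := by
  rw [lt_def]; cases x <;> simp [Elt.lt]

lemma lt_u {x : Elt cl} {p : Occ cl} : x < .u p ↔ x = .a p.clause := by
  rw [lt_def]
  cases x with
  | a i => simp only [Elt.lt, Elt.a.injEq]; exact eq_comm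
  | _ => simp [Elt.lt]

lemma lt_y {x : Elt cl} : x < .y ↔ x = .s ∨ ∃ i, x = .a i := by
  rw [lt_def]; cases x <;> simp [Elt.lt]

lemma lt_f_iff {x : Elt cl} {g : Gad cl} :
    x < .f g ↔ (∃ r, x = el r ∧ g.low r) ∨ ∃ p, x = .a p.clause ∧ g.low (some p) := by
  rw [lt_def]
  cases x with
  | a i =>
    simp only [Elt.lt, Elt.a.injEq]
    constructor
    · rintro ⟨p, h1, h2⟩
      exact Or.inr ⟨p, h2.symm, h1⟩
    · rintro (⟨r, h1, h2⟩ | ⟨p, h1, h2⟩)
      · cases r <;> simp [el] at h1
      · exact ⟨p, h2, h1.symm⟩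
  | s =>
    simp only [Elt.lt]
    constructor
    · intro h; exact Or.inl ⟨none, rfl, h⟩
    · rintro (⟨r, h1, h2⟩ | ⟨p, h1, h2⟩)
      · have : r = none := el_inj (x := r) (y := none) h1.symm
        rw [← this]; exact h2
      · simp at h1
  | u p =>
    simp only [Elt.lt]
    constructor
    · intro h; exact Or.inl ⟨some p, rfl, h⟩
    · rintro (⟨r, h1, h2⟩ | ⟨p, h1, h2⟩)
      · have : r = some p := el_inj (x := r) (y := some p) h1.symm
        rw [← this]; exact h2
      · simp at h1
  | y =>
    simp only [Elt.lt]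
    constructor
    · intro h; exact h.elim
    · rintro (⟨r, h1, h2⟩ | ⟨p, h1, h2⟩)
      · cases r <;> simp [el] at h1
      · simp at h1
  | f g' =>
    simp only [Elt.lt]
    constructor
    · intro h; exact h.elim
    · rintro (⟨r, h1, h2⟩ | ⟨p, h1, h2⟩)
      · cases r <;> simp [el] at h1
      · simp at h1

lemma not_y_lt (x : Elt cl) : ¬ .y < x := by
  rw [lt_def]; cases x <;> simp [Elt.lt]

lemma not_f_lt (x : Elt cl) (g : Gad cl) : ¬ .f g < x := by
  rw [lt_def]; cases x <;> simp [Elt.lt]

lemma el_not_lt_el (x y : Option (Occ cl)) : ¬ (el x : Elt cl) < el y := by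
  rw [lt_def]; cases x <;> cases y <;> simp [Elt.lt, el]

/-- points of the ground set in a chain coincide -/
lemma el_chain [DecidableEq (Elt cl)] {X C : Finset (Elt cl)} (hC : DownChain X C)
    {x y : Option (Occ cl)} (hx : el x ∈ C) (hy : el y ∈ C) : x = y := by
  rcases hC.total hx hy with h | h
  · rcases h.eq_or_lt with h | h
    · exact el_inj h
    · exact absurd h (el_not_lt_el _ _)
  · rcases h.eq_or_lt with h | h
    · exact (el_inj h).symm
    · exact absurd h (el_not_lt_el _ _)

lemma a_lt_u (p : Occ cl) : (Elt.a p.clause : Elt cl) < .u p := lt_u.2 rfl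

/-- no consistent choice of one occurrence per clause, when the formula is unsatisfiable -/
lemma exists_opp (hns : ¬ Sat cl) (κ : I → Occ cl) (hκ : ∀ i, (κ i).clause = i) :
    ∃ i j, Opp (κ i) (κ j) := by
  classical
  by_contra hcon
  push Not at hcon
  apply hns
  refine ⟨fun v => decide (∃ i, (κ i).lit = (v, true)), fun i => ⟨(κ i).lit, ?_, ?_⟩⟩
  · have := (κ i).2
    have h2 : (κ i).1.1 = i := hκ i
    rw [h2] at this
    exact this
  · rcases hb : (κ i).lit.2 with _ | _
    · rw [decide_eq_false_iff_not]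
      rintro ⟨j, hj⟩
      refine hcon i j ⟨by rw [hj], ?_⟩
      rw [hj, hb]; simp
    · rw [decide_eq_true_eq]
      exact ⟨i, Prod.ext rfl hb⟩

section unsat

variable [DecidableEq (Elt cl)]

/-- the invariant of partial runs -/
def Inv (X : Finset (Elt cl)) : Prop :=
  IsUpperSet (X : Set (Elt cl)) ∧
    ∀ i, Elt.a i ∉ X → Elt.y ∉ X ∨ ∃ p : Occ cl, p.clause = i ∧ Elt.u p ∉ X

/-- the top of a greedy chain is not one of the `a i` -/
lemma a_not_top {X C : Finset (Elt cl)} (hne : ∀ i, (cl i).Nonempty)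
    (hX : IsUpperSet (X : Set (Elt cl))) (hC : GreedyChain X C) {i : I} (hi : Elt.a i ∈ C)
    (hmax : ∀ x ∈ C, x ≤ Elt.a i) : False := by
  obtain ⟨l, hl⟩ := hne i
  let p : Occ cl := ⟨(i, l), hl⟩
  have hlt : (Elt.a i : Elt cl) < .u p := a_lt_u p
  have hall : ∀ x ∈ C, x = Elt.a i := by
    intro x hx
    rcases (hmax x hx).eq_or_lt with h | h
    · exact h
    · exact absurd h (not_lt_a _ _)
  refine hC.not_prolongs (.u p) ⟨hX hlt.le (hC.dc.sub hi), ?_, ?_, ?_⟩
  · intro h
    have := hall _ h
    simp at this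
  · intro w _ hw
    rw [lt_u.1 hw]
    exact hi
  · intro w hw
    rw [hall w hw]; exact hlt

lemma Inv.step {X C : Finset (Elt cl)} (hne : ∀ i, (cl i).Nonempty) (h : Inv X)
    (hC : GreedyChain X C) : Inv (X \ C) := by
  refine ⟨upper_sdiff h.1 hC.dc, fun i hi => ?_⟩
  by_cases hiX : Elt.a i ∈ X
  · have hiC : Elt.a i ∈ C := by
      by_contra hc
      exact hi (Finset.mem_sdiff.2 ⟨hiX, hc⟩)
    by_contra hcon
    push Not at hcon
    obtain ⟨h1, h2⟩ := hcon
    have hyC : Elt.y ∉ C := (Finset.mem_sdiff.1 h1).2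
    apply a_not_top hne h.1 hC hiC
    intro x hx
    rcases hC.dc.total hx hiC with h3 | h3
    · exact h3
    · rcases h3.eq_or_lt with h3 | h3
      · exact h3.ge
      · exfalso
        cases x with
        | a j => exact not_lt_a _ _ h3
        | s => exact not_lt_s _ h3
        | u p =>
          have hp : p.clause = i := by
            have := lt_u.1 h3
            rw [Elt.a.injEq] at this
            exact this.symm
          exact (Finset.mem_sdiff.1 (h2 p hp)).2 hx
        | y => exact hyC hx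
        | f g =>
          obtain ⟨p, hp1, hp2⟩ : ∃ p : Occ cl, g.low (some p) ∧ p.clause = i := h3
          have h4 := Finset.mem_sdiff.1 (h2 p hp2)
          exact h4.2 (hC.dc.down' hx h4.1 (lt_f (x := some p) |>.2 hp1))
  · rcases h.2 i hiX with h1 | ⟨p, h1, h2⟩
    · exact Or.inl (fun h => h1 (Finset.mem_sdiff.1 h).1)
    · exact Or.inr ⟨p, h1, fun h => h2 (Finset.mem_sdiff.1 h).1⟩

/-- a gadget whose only remaining lower point is the top of a greedy chain contradicts
maximality -/
lemma no_gadget {X C' : Finset (Elt cl)} (hX : IsUpperSet (X : Set (Elt cl)))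
    (hC' : GreedyChain X C') {q : Option (Occ cl)} (hq : el q ∈ C') (hmax : ∀ x ∈ C', x ≤ el q)
    {g : Gad cl} (h1 : g.low q) (h2 : ∀ r, g.low r → ¬ (el r ∉ X) → r = q) : False := by
  have hlt : (el q : Elt cl) < .f g := lt_f.2 h1
  refine hC'.not_prolongs (.f g) ⟨hX hlt.le (hC'.dc.sub hq), ?_, ?_, ?_⟩
  · intro h
    exact absurd (hlt.trans_le (hmax _ h)) (lt_irrefl _)
  · intro w hw hwg
    rcases lt_f_iff.1 hwg with ⟨r, rfl, hr⟩ | ⟨p, rfl, hp⟩
    · rw [h2 r hr (by simpa using hw)]; exact hq
    · have hup : Elt.u p ∈ X := hX (a_lt_u p).le hw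
      have := h2 (some p) hp (by simpa [el] using hup)
      apply hC'.dc.down' hq hw
      rw [← this]
      exact a_lt_u p
  · intro w hw
    exact (hmax w hw).trans_lt hlt

theorem loc_of_inv {X : Finset (Elt cl)} (hne : ∀ i, (cl i).Nonempty) (hns : ¬ Sat cl)
    (h : Inv X) : Loc X := by
  intro C C' hC hC' hCC hExt
  obtain ⟨y, hy1, hy2, hy3, hy4⟩ := hExt
  have hX := h.1
  rw [Finset.mem_sdiff] at hy1 hy2
  have hyC' : y ∉ C' := fun h => hy2 ⟨h, hy1.2⟩
  have hD : ∀ w ∈ X, w < y → w ∈ C ∨ w ∈ C' := by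
    intro w hw hwy
    by_cases hwC : w ∈ C
    · exact Or.inl hwC
    · exact Or.inr (Finset.mem_sdiff.1 (hy3 w (Finset.mem_sdiff.2 ⟨hw, hwC⟩) hwy)).1
  obtain ⟨t', ht', htmax⟩ : ∃ m ∈ C' \ C, ∀ x ∈ C' \ C, x ≤ m := by
    obtain ⟨m, hm⟩ := (C' \ C).exists_maximal (diff_nonempty hC hC' hCC)
    refine ⟨m, hm.1, fun x hx => ?_⟩
    rcases hC'.dc.total (Finset.mem_sdiff.1 hx).1 (Finset.mem_sdiff.1 hm.1).1 with h | h
    · exact h
    · exact hm.2 hx h
  have ht'y : t' < y := hy4 t' ht'
  rw [Finset.mem_sdiff] at ht'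
  have hmax : ∀ x ∈ C', x ≤ t' := by
    intro x hx
    by_cases hxC : x ∈ C
    · rcases hC'.dc.total hx ht'.1 with h | h
      · exact h
      · exact absurd (hC.dc.down x hxC t' (hC'.dc.sub ht'.1) h) ht'.2
    · exact htmax x (Finset.mem_sdiff.2 ⟨hx, hxC⟩)
  have ht'X : t' ∈ X := hC'.dc.sub ht'.1
  have hyX : y ∈ X := hy1.1
  -- if everything of `C \ C'` is below `y` we are done
  by_cases hall : ∀ w ∈ C \ C', w < y
  · refine ⟨y, Finset.mem_sdiff.2 ⟨hyX, hyC'⟩, fun h => hy1.2 (Finset.mem_sdiff.1 h).1, ?_, hall⟩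
    intro w hw hwy
    rw [Finset.mem_sdiff] at hw ⊢
    exact ⟨(hD w hw.1 hwy).resolve_right hw.2, hw.2⟩
  have hnprol : ¬ (∀ w ∈ X, w < y → w ∈ C') := by
    intro hh
    exact hC'.not_prolongs y ⟨hyX, hyC', hh, fun w hw => (hmax w hw).trans_lt ht'y⟩
  have ht'a : ∀ i, t' ≠ .a i := by
    rintro i rfl
    exact a_not_top hne hX hC' ht'.1 hmax
  cases y with
  | a i => exact absurd ht'y (not_lt_a _ _)
  | s => exact absurd ht'y (not_lt_s _)
  | u p => exact absurd (lt_u.1 ht'y) (ht'a _)
  | y =>
    have hts : t' = .s := by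
      rcases lt_y.1 ht'y with h1 | ⟨i, h1⟩
      · exact h1
      · exact absurd h1 (ht'a i)
    subst hts
    have hC's : ∀ x ∈ C', x = .s := by
      intro x hx
      rcases (hmax x hx).eq_or_lt with h1 | h1
      · exact h1
      · exact absurd h1 (not_lt_s _)
    have haC : ∀ i, Elt.a i ∈ X → Elt.a i ∈ C := by
      intro i hi
      rcases hD _ hi (lt_y.2 (Or.inr ⟨i, rfl⟩)) with h1 | h1
      · exact h1
      · have := hC's _ h1
        simp at this
    -- exactly one `a i₀` remains
    obtain ⟨i₀, hi₀⟩ : ∃ i, Elt.a i ∈ X := by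
      by_contra hc
      push Not at hc
      apply hnprol
      intro w hw hwy
      rcases lt_y.1 hwy with rfl | ⟨i, rfl⟩
      · exact ht'.1
      · exact absurd hw (hc i)
    have hi₀C := haC i₀ hi₀
    have huniq : ∀ i, Elt.a i ∈ X → i = i₀ := by
      intro i hi
      rcases hC.dc.total (haC i hi) hi₀C with h1 | h1
      · rcases h1.eq_or_lt with h2 | h2
        · simpa using h2
        · exact absurd h2 (not_lt_a _ _)
      · rcases h1.eq_or_lt with h2 | h2
        · simpa using h2.symm
        · exact absurd h2 (not_lt_a _ _)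
    -- an occurrence of clause `i₀` in `C`
    obtain ⟨p₀, hp₀, hp₀C⟩ : ∃ p : Occ cl, p.clause = i₀ ∧ Elt.u p ∈ C := by
      by_contra hc
      push Not at hc
      apply a_not_top hne hX hC hi₀C
      intro x hx
      rcases hC.dc.total hx hi₀C with h3 | h3
      · exact h3
      · rcases h3.eq_or_lt with h3 | h3
        · exact h3.ge
        · exfalso
          cases x with
          | a j => exact not_lt_a _ _ h3
          | s => exact not_lt_s _ h3
          | u p =>
            have hp : p.clause = i₀ := by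
              have := lt_u.1 h3
              rw [Elt.a.injEq] at this
              exact this.symm
            exact hc p hp hx
          | y => exact hy1.2 hx
          | f g =>
            obtain ⟨p, hp1, hp2⟩ : ∃ p : Occ cl, g.low (some p) ∧ p.clause = i₀ := h3
            have hpX : Elt.u p ∈ X := by
              apply hX (a_lt_u p).le
              rw [hp2]; exact hi₀
            exact hc p hp2 (hC.dc.down' hx hpX (lt_f (x := some p) |>.2 hp1))
    have hκ : ∀ i, ∃ p : Occ cl, p.clause = i ∧ (i = i₀ → p = p₀) ∧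
        (i ≠ i₀ → Elt.u p ∉ X) := by
      intro i
      by_cases hii : i = i₀
      · exact ⟨p₀, hp₀.trans hii.symm, fun _ => rfl, fun h => absurd hii h⟩
      · have hiX : Elt.a i ∉ X := fun h => hii (huniq i h)
        rcases h.2 i hiX with h1 | ⟨p, h1, h2⟩
        · exact absurd hyX h1
        · exact ⟨p, h1, fun h => absurd h hii, fun _ => h2⟩
    choose κ hκ1 hκ2 hκ3 using hκ
    obtain ⟨i, j, hij⟩ := exists_opp hns κ hκ1
    have hsnone : (el (none : Option (Occ cl)) : Elt cl) = .s := rfl
    by_cases hcase : i ≠ i₀ ∧ j ≠ i₀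
    · exfalso
      refine no_gadget (q := none) hX hC' ht'.1 hmax (g := .tri _ _ hij) (Or.inl rfl) ?_
      rintro r (rfl | rfl | rfl) hr
      · rfl
      · exact absurd (hκ3 i hcase.1) hr
      · exact absurd (hκ3 j hcase.2) hr
    · -- an occurrence opposite to `p₀` is away
      have hex : ∃ p : Occ cl, Opp p₀ p ∧ Elt.u p ∉ X := by
        by_cases hi : i = i₀
        · have hj : j ≠ i₀ := by
            rintro rfl
            subst hi
            exact hij.2 rfl
          refine ⟨κ j, ?_, hκ3 j hj⟩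
          rw [← hκ2 i hi]; exact hij
        · have hj : j = i₀ := by
            by_contra hj
            exact hcase ⟨hi, hj⟩
          refine ⟨κ i, ?_, hκ3 i hi⟩
          rw [← hκ2 j hj]; exact hij.symm
      obtain ⟨p, hopp, hpX⟩ := hex
      have hsz : (.s : Elt cl) < .f (.tri p₀ p hopp) := (lt_f (x := none)).2 (Or.inl rfl)
      have huz : (.u p₀ : Elt cl) < .f (.tri p₀ p hopp) :=
        (lt_f (x := some p₀)).2 (Or.inr (Or.inl rfl))
      refine ⟨.f (.tri p₀ p hopp), Finset.mem_sdiff.2 ⟨hX hsz.le ht'X, ?_⟩, ?_, ?_, ?_⟩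
      · intro h1
        have := hC's _ h1
        simp at this
      · intro h1
        exact ht'.2 (hC.dc.down' (Finset.mem_sdiff.1 h1).1 ht'X hsz)
      · intro w hw hwz
        rw [Finset.mem_sdiff] at hw ⊢
        refine ⟨?_, hw.2⟩
        rcases lt_f_iff.1 hwz with ⟨r, rfl, (rfl | rfl | rfl)⟩ | ⟨r, rfl, (hr | hr | hr)⟩
        · exact absurd ht'.1 hw.2
        · exact hp₀C
        · exact absurd hw.1 hpX
        · simp at hr
        · rw [Option.some.injEq] at hr
          subst hr
          rw [hp₀]; exact hi₀C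
        · rw [Option.some.injEq] at hr
          subst hr
          exact absurd (hX (a_lt_u r).le hw.1) hpX
      · intro w hw
        have hwC := (Finset.mem_sdiff.1 hw).1
        rcases hC.dc.total hwC hp₀C with h1 | h1
        · exact h1.trans_lt huz
        · rcases h1.eq_or_lt with h1 | h1
          · rw [← h1]; exact huz
          · exfalso
            cases w with
            | a j => exact not_lt_a _ _ h1
            | s => exact not_lt_s _ h1
            | u p' => have := lt_u.1 h1; simp at this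
            | y => exact hy1.2 hwC
            | f g =>
              have hgp : g.low (some p₀) := (lt_f (x := some p₀)).1 h1
              have hg1 : ∀ r, g.low r → ¬ (el r ∉ X) → r = some p₀ := by
                intro r hr hrX
                have hrX' : (el r : Elt cl) ∈ X := by simpa using hrX
                have hrC : (el r : Elt cl) ∈ C := hC.dc.down' hwC hrX' (lt_f.2 hr)
                exact el_chain hC.dc hrC (y := some p₀) hp₀C
              obtain ⟨g₃, k1, k2⟩ := gad_elim (D := fun r => (el r : Elt cl) ∉ X)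
                (g₁ := .tri p₀ p hopp) (g₂ := g) (p := some p₀) (q := none) (by simp)
                (by simpa [el] using ht'X) (Or.inl rfl) (by
                  rintro r (rfl | rfl | rfl) hr
                  · exact Or.inr rfl
                  · exact Or.inl rfl
                  · exact absurd hpX hr) hgp hg1
              exact no_gadget (q := none) hX hC' ht'.1 hmax k1 k2
  | f g =>
    obtain ⟨q, hq, hqg⟩ : ∃ q, t' = el q ∧ g.low q := by
      rcases lt_f_iff.1 ht'y with ⟨r, h1, h2⟩ | ⟨p, h1, h2⟩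
      · exact ⟨r, h1, h2⟩
      · exact absurd h1 (ht'a _)
    subst hq
    -- some point of `g` is in `C`
    obtain ⟨p, hpC, hpg⟩ : ∃ p, (el p : Elt cl) ∈ C ∧ g.low p := by
      by_contra hc
      push Not at hc
      apply hnprol
      intro w hw hwy
      rcases lt_f_iff.1 hwy with ⟨r, rfl, hr⟩ | ⟨r, rfl, hr⟩
      · exact (hD _ hw hwy).resolve_left (fun h1 => hc r h1 hr)
      · have hup : Elt.u r ∈ X := hX (a_lt_u r).le hw
        have hupg : (Elt.u r : Elt cl) < .f g := (lt_f (x := some r)).2 hr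
        have hupC' := (hD _ hup hupg).resolve_left (fun h1 => hc (some r) h1 hr)
        exact hC'.dc.down' hupC' hw (a_lt_u r)
    have hpq : p ≠ q := by
      rintro rfl
      exact ht'.2 hpC
    have hg1 : ∀ r, g.low r → ¬ ((el r : Elt cl) ∉ X) → r = p ∨ r = q := by
      intro r hr hrX
      have hrX' : (el r : Elt cl) ∈ X := by simpa using hrX
      rcases hD _ hrX' (lt_f.2 hr) with h1 | h1
      · exact Or.inl (el_chain hC.dc h1 hpC)
      · exact Or.inr (el_chain hC'.dc h1 ht'.1)
    exfalso
    push Not at hall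
    obtain ⟨w, hw, hwy⟩ := hall
    rw [Finset.mem_sdiff] at hw
    have hpy : (el p : Elt cl) < .f g := lt_f.2 hpg
    have hpw : (el p : Elt cl) < w := by
      rcases hC.dc.total hw.1 hpC with h1 | h1
      · exact absurd (h1.trans_lt hpy) hwy
      · rcases h1.eq_or_lt with h1 | h1
        · exact absurd (h1 ▸ hpy) hwy
        · exact h1
    cases w with
    | a j => exact not_lt_a _ _ hpw
    | s => exact not_lt_s _ hpw
    | u p' => exact el_not_lt_el p (some p') hpw
    | y =>
      have hpn : p = none := by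
        cases p with
        | none => rfl
        | some p => rcases lt_y.1 hpw with h1 | ⟨i, h1⟩ <;> simp [el] at h1
      subst hpn
      have haX : ∀ i, Elt.a i ∉ X := by
        intro i hi
        have hiC : Elt.a i ∈ C := hC.dc.down' hw.1 hi (lt_y.2 (Or.inr ⟨i, rfl⟩))
        rcases hC.dc.total hiC hpC with h1 | h1
        · rcases h1.eq_or_lt with h1 | h1
          · simp [el] at h1
          · exact not_lt_s _ h1
        · rcases h1.eq_or_lt with h1 | h1
          · simp [el] at h1
          · exact not_lt_a _ _ h1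
      have hκ : ∀ i, ∃ p : Occ cl, p.clause = i ∧ Elt.u p ∉ X := by
        intro i
        rcases h.2 i (haX i) with h1 | h1
        · exact absurd (hC.dc.sub hw.1) h1
        · exact h1
      choose κ hκ1 hκ2 using hκ
      obtain ⟨i, j, hij⟩ := exists_opp hns κ hκ1
      obtain ⟨g₃, k1, k2⟩ := gad_elim (D := fun r => (el r : Elt cl) ∉ X)
        (g₁ := g) (g₂ := .tri _ _ hij) (p := none) (q := q) hpq
        (by simpa using ht'X) hqg hg1 (Or.inl rfl) (by
          rintro r (rfl | rfl | rfl) hr
          · rfl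
          · exact absurd (hκ2 i) hr
          · exact absurd (hκ2 j) hr)
      exact no_gadget hX hC' ht'.1 hmax k1 k2
    | f g' =>
      have hg2 : ∀ r, g'.low r → ¬ ((el r : Elt cl) ∉ X) → r = p := by
        intro r hr hrX
        have hrX' : (el r : Elt cl) ∈ X := by simpa using hrX
        have hrC : (el r : Elt cl) ∈ C := hC.dc.down' hw.1 hrX' (lt_f.2 hr)
        exact el_chain hC.dc hrC hpC
      obtain ⟨g₃, k1, k2⟩ := gad_elim (D := fun r => (el r : Elt cl) ∉ X)
        (g₁ := g) (g₂ := g') (p := p) (q := q) hpq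
        (by simpa using ht'X) hqg hg1 (lt_f.1 hpw) hg2
      exact no_gadget hX hC' ht'.1 hmax k1 k2

theorem allEq_of_unsat [Fintype (Elt cl)] (hne : ∀ i, (cl i).Nonempty) (hns : ¬ Sat cl) :
    AllEq (univ : Finset (Elt cl)) := by
  rw [allEq_iff_loc]
  intro X hX
  apply loc_of_inv hne hns
  induction hX with
  | base => exact ⟨isUpperSet_univ', fun i hi => absurd (Finset.mem_univ _) hi⟩
  | step Y C _ _ hC ih => exact ih.step hne hC

end unsat

section sat

variable [DecidableEq (Elt cl)] [Fintype (Elt cl)]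

/-- a state of the run which follows a satisfying choice -/
structure St (κ : I → Occ cl) (S : I → Prop) (X : Finset (Elt cl)) : Prop where
  reach : ReachFrom univ X
  up : IsUpperSet (X : Set (Elt cl))
  ha : ∀ i, Elt.a i ∈ X ↔ ¬ S i
  hu : ∀ p, Elt.u p ∈ X ↔ ¬ (S p.clause ∧ p = κ p.clause)
  hs : Elt.s ∈ X
  hy : Elt.y ∈ X

/-- the greedy chain through `a i` and `u (κ i)` -/
lemma St.chain {κ : I → Occ cl} (hκ : ∀ i, (κ i).clause = i) {S : I → Prop}
    {X : Finset (Elt cl)} (h : St κ S X) {i : I} (hi : ¬ S i) :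
    ∃ C, GreedyChain X C ∧ Elt.a i ∈ C ∧ Elt.u (κ i) ∈ C ∧ (∀ j, Elt.a j ∈ C → j = i) ∧
      (∀ p, Elt.u p ∈ C → p = κ i) ∧ Elt.s ∉ C ∧ Elt.y ∉ C := by
  have haX : Elt.a i ∈ X := (h.ha i).2 hi
  have hlt : (Elt.a i : Elt cl) < .u (κ i) := by
    have := a_lt_u (κ i)
    rwa [hκ i] at this
  have huX : Elt.u (κ i) ∈ X := h.up hlt.le haX
  have hdc : DownChain X {Elt.a i, Elt.u (κ i)} := by
    refine DownChain.mk' ?_ ?_ ?_
    · intro x hx
      rw [Finset.mem_insert, Finset.mem_singleton] at hx
      rcases hx with rfl | rfl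
      · exact haX
      · exact huX
    · intro x hx z hz
      rw [Finset.mem_insert, Finset.mem_singleton] at hx hz
      rcases hx with rfl | rfl <;> rcases hz with rfl | rfl
      · exact Or.inl le_rfl
      · exact Or.inl hlt.le
      · exact Or.inr hlt.le
      · exact Or.inl le_rfl
    · intro x hx w _ hwx
      rw [Finset.mem_insert, Finset.mem_singleton] at hx ⊢
      rcases hx with rfl | rfl
      · exact absurd hwx (not_lt_a _ _)
      · left
        rw [lt_u.1 hwx, hκ i]
  obtain ⟨C, hC1, hC⟩ := hdc.exists_greedy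
  have haC : Elt.a i ∈ C := hC1 (by simp)
  have huC : Elt.u (κ i) ∈ C := hC1 (by simp)
  refine ⟨C, hC, haC, huC, ?_, ?_, ?_, ?_⟩
  · intro j hj
    rcases hC.dc.total hj haC with h1 | h1
    · rcases h1.eq_or_lt with h2 | h2
      · simpa using h2
      · exact absurd h2 (not_lt_a _ _)
    · rcases h1.eq_or_lt with h2 | h2
      · simpa using h2.symm
      · exact absurd h2 (not_lt_a _ _)
  · intro p hp
    have := el_chain hC.dc (x := some p) (y := some (κ i)) hp huC
    simpa using this
  · intro hs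
    have := el_chain hC.dc (x := none) (y := some (κ i)) hs huC
    simp at this
  · intro hyC
    rcases hC.dc.total hyC huC with h1 | h1
    · rcases h1.eq_or_lt with h2 | h2
      · simp at h2
      · exact not_y_lt _ h2
    · rcases h1.eq_or_lt with h2 | h2
      · simp at h2
      · rcases lt_y.1 h2 with h3 | ⟨j, h3⟩ <;> simp at h3

lemma exists_state [Finite I] {κ : I → Occ cl} (hκ : ∀ i, (κ i).clause = i) (i₀ : I) :
    ∃ X, St κ (fun i => i ≠ i₀) X := by
  classical
  cases nonempty_fintype I
  have key : ∀ S : Finset I, i₀ ∉ S → ∃ X, St κ (fun i => i ∈ S) X := by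
    intro S
    induction S using Finset.induction_on with
    | empty =>
      intro _
      refine ⟨univ, ReachFrom.base, isUpperSet_univ', ?_, ?_, Finset.mem_univ _,
        Finset.mem_univ _⟩
      · intro i; simp
      · intro p; simp
    | insert i S hiS ih =>
      intro hi₀
      rw [Finset.mem_insert, not_or] at hi₀
      obtain ⟨X, hX⟩ := ih hi₀.2
      obtain ⟨C, hC, h1, h2, h3, h4, h5, h6⟩ := hX.chain hκ hiS
      refine ⟨X \ C, ReachFrom.step _ _ hX.reach ⟨_, hX.hs⟩ hC, upper_sdiff hX.up hC.dc,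
        ?_, ?_, Finset.mem_sdiff.2 ⟨hX.hs, h5⟩, Finset.mem_sdiff.2 ⟨hX.hy, h6⟩⟩
      · intro j
        rw [Finset.mem_sdiff, hX.ha j, Finset.mem_insert, not_or]
        constructor
        · rintro ⟨h7, h8⟩
          exact ⟨fun e => h8 (e ▸ h1), h7⟩
        · rintro ⟨h7, h8⟩
          exact ⟨h8, fun h => h7 (h3 j h)⟩
      · intro p
        rw [Finset.mem_sdiff, hX.hu p, Finset.mem_insert]
        constructor
        · rintro ⟨h7, h8⟩ ⟨h9 | h9, h10⟩
          · apply h8
            rw [h10, h9]; exact h2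
          · exact h7 ⟨h9, h10⟩
        · intro h7
          refine ⟨fun h8 => h7 ⟨Or.inr h8.1, h8.2⟩, fun h8 => ?_⟩
          have h9 := h4 p h8
          apply h7
          have : p.clause = i := by rw [h9, hκ i]
          exact ⟨Or.inl this, by rw [this]; exact h9⟩
  obtain ⟨X, hX⟩ := key (univ.erase i₀) (by simp)
  exact ⟨X, hX.reach, hX.up, fun i => by rw [hX.ha i]; simp,
    fun p => by rw [hX.hu p]; simp, hX.hs, hX.hy⟩

theorem not_allEq_of_sat [Finite I] [Nonempty I] (hs : Sat cl) :
    ¬ AllEq (univ : Finset (Elt cl)) := by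
  obtain ⟨τ, hτ⟩ := hs
  choose l hl1 hl2 using hτ
  let κ : I → Occ cl := fun i => ⟨(i, l i), hl1 i⟩
  have hκ : ∀ i, (κ i).clause = i := fun i => rfl
  have hτκ : ∀ i, τ (κ i).lit.1 = (κ i).lit.2 := fun i => hl2 i
  obtain ⟨i₀⟩ := ‹Nonempty I›
  obtain ⟨X, hX⟩ := exists_state hκ i₀
  rw [allEq_iff_loc]
  intro hloc
  have hL := hloc X hX.reach
  obtain ⟨C, hC, h1, h2, h3, h4, h5, h6⟩ := hX.chain hκ (i := i₀) (by simp)
  -- occurrences which are away or in `C` are true
  have htrue : ∀ p : Occ cl, (Elt.u p ∉ X ∨ Elt.u p ∈ C) → τ p.lit.1 = p.lit.2 := by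
    rintro p (h | h)
    · rw [hX.hu p, not_not] at h
      rw [h.2]; exact hτκ _
    · rw [h4 p h]; exact hτκ _
  have hopp : ∀ p q : Occ cl, Opp p q → (Elt.u p ∉ X ∨ Elt.u p ∈ C) →
      (Elt.u q ∉ X ∨ Elt.u q ∈ C) → False := by
    intro p q hpq hp hq
    apply hpq.2
    rw [← htrue p hp, ← htrue q hq, hpq.1]
  have haX : Elt.a i₀ ∈ X := (hX.ha i₀).2 (by simp)
  have hS : GreedyChain X {Elt.s} := by
    rw [greedy_iff]
    refine ⟨DownChain.mk' (by simpa using hX.hs) ?_ ?_, ?_⟩
    · intro x hx z hz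
      rw [Finset.mem_singleton] at hx hz
      rw [hx, hz]; exact Or.inl le_rfl
    · intro x hx w _ hwx
      rw [Finset.mem_singleton] at hx
      rw [hx] at hwx
      exact absurd hwx (not_lt_s _)
    · rintro z ⟨g1, g2, g3, g4⟩
      have hsz : Elt.s < z := g4 _ (Finset.mem_singleton_self _)
      cases z with
      | a i => exact not_lt_a _ _ hsz
      | s => exact not_lt_s _ hsz
      | u p => have := lt_u.1 hsz; simp at this
      | y =>
        have := g3 _ haX (lt_y.2 (Or.inr ⟨i₀, rfl⟩))
        simp at this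
      | f g =>
        have hpX : ∀ p, g.low (some p) → Elt.u p ∉ X := by
          intro p hp hpX
          have := g3 _ hpX ((lt_f (x := some p)).2 hp)
          simp at this
        have hn : g.low none := (lt_f (x := none)).1 hsz
        cases g with
        | pair p q h => rcases hn with h | h <;> simp at h
        | tri p q h =>
          exact hopp p q h (Or.inl (hpX p (Or.inr (Or.inl rfl))))
            (Or.inl (hpX q (Or.inr (Or.inr rfl))))
        | quad p q r t h => rcases hn with h | h | h | h <;> simp at h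
  have hne : C ≠ {Elt.s} := by
    intro e
    exact h5 (e ▸ Finset.mem_singleton_self _)
  have hExt : Ext X C {Elt.s} := by
    refine ⟨.y, Finset.mem_sdiff.2 ⟨hX.hy, h6⟩, ?_, ?_, ?_⟩
    · intro h
      have := Finset.mem_singleton.1 (Finset.mem_sdiff.1 h).1
      simp at this
    · intro w hw hwy
      rw [Finset.mem_sdiff] at hw ⊢
      refine ⟨?_, hw.2⟩
      rcases lt_y.1 hwy with rfl | ⟨i, rfl⟩
      · simp
      · exfalso
        have : i = i₀ := by
          have := (hX.ha i).1 hw.1
          simpa using this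
        exact hw.2 (this ▸ h1)
    · intro w hw
      rw [Finset.mem_singleton.1 (Finset.mem_sdiff.1 hw).1]
      exact lt_y.2 (Or.inl rfl)
  obtain ⟨z, g1, g2, g3, g4⟩ := hL C {Elt.s} hC hS hne hExt
  have hCs : ∀ w, w ∈ C \ {Elt.s} ↔ w ∈ C := by
    intro w
    rw [Finset.mem_sdiff, Finset.mem_singleton]
    exact ⟨fun h => h.1, fun h => ⟨h, fun e => h5 (e ▸ h)⟩⟩
  rw [Finset.mem_sdiff, Finset.mem_singleton] at g1
  rw [hCs] at g2
  have g3' : ∀ w ∈ X, w ≠ .s → w < z → w ∈ C := fun w hw hws hwz =>
    (hCs w).1 (g3 w (Finset.mem_sdiff.2 ⟨hw, by simpa using hws⟩) hwz)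
  have g4' : ∀ w ∈ C, w < z := fun w hw => g4 w ((hCs w).2 hw)
  have huz := g4' _ h2
  cases z with
  | a i => exact not_lt_a _ _ huz
  | s => exact not_lt_s _ huz
  | u p => have := lt_u.1 huz; simp at this
  | y => rcases lt_y.1 huz with h | ⟨j, h⟩ <;> simp at h
  | f g =>
    by_cases hn : g.low none
    · have hpX : ∀ p, g.low (some p) → Elt.u p ∉ X ∨ Elt.u p ∈ C := by
        intro p hp
        by_cases hpX : Elt.u p ∈ X
        · exact Or.inr (g3' _ hpX (by simp) ((lt_f (x := some p)).2 hp))
        · exact Or.inl hpX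
      cases g with
      | pair p q h => rcases hn with h | h <;> simp at h
      | tri p q h =>
        exact hopp p q h (hpX p (Or.inr (Or.inl rfl))) (hpX q (Or.inr (Or.inr rfl)))
      | quad p q r t h => rcases hn with h | h | h | h <;> simp at h
    · refine hC.not_prolongs (.f g) ⟨g1.1, g2, ?_, g4'⟩
      intro w hw hwz
      refine g3' w hw ?_ hwz
      rintro rfl
      exact hn ((lt_f (x := none)).1 hwz)

end sat

/-- **Encoding.** -/
theorem allEq_iff_unsat [DecidableEq (Elt cl)] [Fintype (Elt cl)] [Finite I] [Nonempty I]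
    (hne : ∀ i, (cl i).Nonempty) : AllEq (univ : Finset (Elt cl)) ↔ ¬ Sat cl := by
  constructor
  · intro h hs
    exact not_allEq_of_sat hs h
  · exact allEq_of_unsat hne

end GreedyJump
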