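import Pool.Agent.GreedyJump.Filters
import Pool.Agent.GreedyJump.Hard2

/-!
Height two; transfer to filters as posets; the size and the height of the encoding.
-/

open Finset

namespace GreedyJump

set_option linter.unusedSectionVars false
set_option linter.constructorNameAsVariable false

section two

variable {α : Type*} [PartialOrder α] [DecidableEq α] [Fintype α]

/-- a state in which the elements of `S` and some elements with all lower elements in `S` are
away -/
structure St2 (S : Finset α) (X : Finset α) : Prop where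
  reach : ReachFrom univ X
  away : ∀ x ∈ S, x ∉ X
  only : ∀ x, x ∉ X → x ∈ S ∨ ((∃ w, w < x) ∧ ∀ w, w < x → w ∈ S)

lemma exists_St2 (h2 : ∀ x y z : α, ¬ (x < y ∧ y < z)) (S : Finset α)
    (hS : ∀ x ∈ S, ∀ w, ¬ w < x) : ∃ X, St2 S X := by
  induction S using Finset.induction_on with
  | empty => exact ⟨univ, ReachFrom.base, by simp, fun x hx => absurd (Finset.mem_univ x) hx⟩
  | insert m S hmS ih =>
    obtain ⟨X, hX⟩ := ih (fun x hx => hS x (Finset.mem_insert_of_mem hx))
    have hmin : ∀ w, ¬ w < m := hS m (Finset.mem_insert_self _ _)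
    have hmX : m ∈ X := by
      by_contra hc
      rcases hX.only m hc with h | ⟨⟨w, hw⟩, _⟩
      · exact hmS h
      · exact hmin w hw
    have hdc : DownChain X {m} := by
      refine DownChain.mk' (by simpa using hmX) ?_ ?_
      · intro x hx y hy
        rw [Finset.mem_singleton] at hx hy
        rw [hx, hy]; exact Or.inl le_rfl
      · intro x hx w _ hwx
        rw [Finset.mem_singleton] at hx
        rw [hx] at hwx
        exact absurd hwx (hmin w)
    obtain ⟨C, hC1, hC⟩ := hdc.exists_greedy
    rw [Finset.singleton_subset_iff] at hC1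
    refine ⟨X \ C, ReachFrom.step _ _ hX.reach ⟨m, hmX⟩ hC, ?_, ?_⟩
    · intro x hx hxX
      rcases Finset.mem_insert.1 hx with rfl | hx
      · exact (Finset.mem_sdiff.1 hxX).2 hC1
      · exact hX.away x hx (Finset.mem_sdiff.1 hxX).1
    · intro x hx
      by_cases hxX : x ∈ X
      · have hxC : x ∈ C := by
          by_contra hc
          exact hx (Finset.mem_sdiff.2 ⟨hxX, hc⟩)
        rcases hC.dc.total hC1 hxC with h | h
        · rcases h.eq_or_lt with h | h
          · left; rw [← h]; exact Finset.mem_insert_self _ _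
          · right
            refine ⟨⟨m, h⟩, fun w hw => ?_⟩
            by_cases hwX : w ∈ X
            · have hwC := hC.dc.down' hxC hwX hw
              rcases hC.dc.total hwC hC1 with h3 | h3
              · rcases h3.eq_or_lt with h4 | h4
                · rw [h4]; exact Finset.mem_insert_self _ _
                · exact absurd h4 (hmin w)
              · rcases h3.eq_or_lt with h4 | h4
                · rw [← h4]; exact Finset.mem_insert_self _ _
                · exact absurd ⟨h4, hw⟩ (h2 m w x)
            · rcases hX.only w hwX with h3 | ⟨⟨v, hv⟩, _⟩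
              · exact Finset.mem_insert_of_mem h3
              · exact absurd ⟨hv, hw⟩ (h2 v w x)
        · rcases h.eq_or_lt with h | h
          · left; rw [h]; exact Finset.mem_insert_self _ _
          · exact absurd h (hmin x)
      · rcases hX.only x hxX with h | ⟨h3, h4⟩
        · exact Or.inl (Finset.mem_insert_of_mem h)
        · exact Or.inr ⟨h3, fun w hw => Finset.mem_insert_of_mem (h4 w hw)⟩

theorem allEq_iff_elim_of_height_two (h2 : ∀ x y z : α, ¬ (x < y ∧ y < z)) :
    AllEq (univ : Finset α) ↔ Elim α := by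
  classical
  constructor
  swap
  · intro hE
    exact hE.allEq isUpperSet_univ'
  intro hA
  by_contra hcon
  unfold Elim at hcon
  push Not at hcon
  obtain ⟨y₁, y₂, a, a', h1, h3, h4, h5, h6⟩ := hcon
  have hmin : ∀ {x y : α}, x < y → ∀ w, ¬ w < x := fun hxy w hw => h2 w _ _ ⟨hw, hxy⟩
  set M : Finset α := univ.filter (fun x => (x < y₁ ∨ x < y₂) ∧ x ≠ a ∧ x ≠ a') with hMdef
  have hM : ∀ x, x ∈ M ↔ (x < y₁ ∨ x < y₂) ∧ x ≠ a ∧ x ≠ a' := by
    intro x; simp [hMdef]
  obtain ⟨X, hX⟩ := exists_St2 h2 M (by
    intro x hx w hw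
    rcases ((hM x).1 hx).1 with h | h
    · exact hmin h w hw
    · exact hmin h w hw)
  have hL : Loc X := (allEq_iff_loc _).1 hA X hX.reach
  have haX : a ∈ X := by
    by_contra hc
    rcases hX.only a hc with h | ⟨⟨w, hw⟩, _⟩
    · exact ((hM a).1 h).2.1 rfl
    · exact hmin h1.lt w hw
  have ha'X : a' ∈ X := by
    by_contra hc
    rcases hX.only a' hc with h | ⟨⟨w, hw⟩, _⟩
    · exact ((hM a').1 h).2.2 rfl
    · exact hmin h4.lt w hw
  have hy₁X : y₁ ∈ X := by
    by_contra hc
    rcases hX.only y₁ hc with h | ⟨_, h⟩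
    · rcases ((hM y₁).1 h).1 with h7 | h7
      · exact lt_irrefl _ h7
      · exact h2 _ _ _ ⟨h1.lt, h7⟩
    · exact ((hM a).1 (h a h1.lt)).2.1 rfl
  have hy₂X : y₂ ∈ X := by
    by_contra hc
    rcases hX.only y₂ hc with h | ⟨_, h⟩
    · rcases ((hM y₂).1 h).1 with h7 | h7
      · exact h2 _ _ _ ⟨h3.lt, h7⟩
      · exact lt_irrefl _ h7
    · exact ((hM a).1 (h a h3.lt)).2.1 rfl
  have haa' : a ≠ a' := fun e => h5 (e ▸ h3.lt)
  have hD : ∀ w ∈ X, (w < y₁ ∨ w < y₂) → w = a ∨ w = a' := by
    intro w hw hwy
    by_contra hc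
    push Not at hc
    exact hX.away w ((hM w).2 ⟨hwy, hc⟩) hw
  have hdc : DownChain X {a, y₂} := by
    refine DownChain.mk' ?_ ?_ ?_
    · intro x hx
      rw [Finset.mem_insert, Finset.mem_singleton] at hx
      rcases hx with rfl | rfl
      · exact haX
      · exact hy₂X
    · intro x hx y hy
      rw [Finset.mem_insert, Finset.mem_singleton] at hx hy
      rcases hx with rfl | rfl <;> rcases hy with rfl | rfl
      · exact Or.inl le_rfl
      · exact Or.inl h3.le
      · exact Or.inr h3.le
      · exact Or.inl le_rfl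
    · intro x hx w hw hwx
      rw [Finset.mem_insert, Finset.mem_singleton] at hx ⊢
      rcases hx with rfl | rfl
      · exact absurd hwx (hmin h1.lt w)
      · rcases hD w hw (Or.inr hwx) with h | h
        · exact Or.inl h
        · exact absurd (h ▸ hwx) h5
  obtain ⟨C, hC1, hC⟩ := hdc.exists_greedy
  have haC : a ∈ C := hC1 (by simp)
  have hy₂C : y₂ ∈ C := hC1 (by simp)
  have ha'C : a' ∉ C := by
    intro h
    rcases hC.dc.total h haC with h7 | h7
    · rcases h7.eq_or_lt with h8 | h8
      · exact haa' h8.symm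
      · exact hmin h1.lt a' h8
    · rcases h7.eq_or_lt with h8 | h8
      · exact haa' h8
      · exact hmin h4.lt a h8
  have hC' : GreedyChain X {a'} := by
    rw [greedy_iff]
    refine ⟨DownChain.mk' (by simpa using ha'X) ?_ ?_, ?_⟩
    · intro x hx y hy
      rw [Finset.mem_singleton] at hx hy
      rw [hx, hy]; exact Or.inl le_rfl
    · intro x hx w _ hwx
      rw [Finset.mem_singleton] at hx
      rw [hx] at hwx
      exact absurd hwx (hmin h4.lt w)
    · rintro z ⟨g1, g2, g3, g4⟩
      have ha'z : a' < z := g4 a' (Finset.mem_singleton_self _)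
      have haz : ¬ a < z := by
        intro h
        exact haa' (Finset.mem_singleton.1 (g3 a haX h))
      obtain ⟨x, hx1, hx2, hx3, hx4⟩ := h6 z ⟨ha'z, fun v hv1 hv2 => h2 _ _ _ ⟨hv1, hv2⟩⟩ haz
      have hxX : x ∉ X := fun h => hx2 (Finset.mem_singleton.1 (g3 x h hx1))
      rcases hX.only x hxX with h | ⟨⟨w, hw⟩, _⟩
      · rcases ((hM x).1 h).1 with h7 | h7
        · exact hx3 h7
        · exact hx4 h7
      · exact h2 _ _ _ ⟨hw, hx1⟩
  have hne : C ≠ {a'} := fun e => ha'C (e ▸ Finset.mem_singleton_self _)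
  have hExt : Ext X C {a'} := by
    refine ⟨y₁, Finset.mem_sdiff.2 ⟨hy₁X, fun h => ha'C (hC.dc.down' h ha'X h4.lt)⟩, ?_, ?_, ?_⟩
    · intro h
      have := Finset.mem_singleton.1 (Finset.mem_sdiff.1 h).1
      exact absurd (this ▸ h4.lt) (lt_irrefl _)
    · intro w hw hwy
      rw [Finset.mem_sdiff] at hw
      rcases hD w hw.1 (Or.inl hwy) with h | h
      · exact absurd (h ▸ haC) hw.2
      · exact Finset.mem_sdiff.2 ⟨Finset.mem_singleton.2 h, hw.2⟩
    · intro w hw
      rw [Finset.mem_singleton.1 (Finset.mem_sdiff.1 hw).1]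
      exact h4.lt
  obtain ⟨z, _, _, _, g4⟩ := hL C {a'} hC hC' hne hExt
  have hy₂z : y₂ < z := by
    apply g4
    rw [Finset.mem_sdiff, Finset.mem_singleton]
    exact ⟨hy₂C, fun e => ha'C (e ▸ hy₂C)⟩
  exact h2 _ _ _ ⟨h3.lt, hy₂z⟩

end two

section transfer

variable {α β : Type*} [PartialOrder α] [DecidableEq α] [PartialOrder β] [DecidableEq β]

lemma downChain_map (e : β ↪o α) {Q C : Finset β} :
    DownChain (Q.map e.toEmbedding) (C.map e.toEmbedding) ↔ DownChain Q C := by
  constructor
  · intro h
    refine DownChain.mk' ?_ ?_ ?_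
    · exact Finset.map_subset_map.1 h.sub
    · intro x hx y hy
      have := h.total (Finset.mem_map_of_mem e.toEmbedding hx)
        (Finset.mem_map_of_mem e.toEmbedding hy)
      simpa using this
    · intro x hx w hw hwx
      have h1 : e.toEmbedding w < e.toEmbedding x := by simpa using hwx
      have := h.down' (Finset.mem_map_of_mem e.toEmbedding hx)
        (Finset.mem_map_of_mem e.toEmbedding hw) h1
      rwa [Finset.mem_map'] at this
  · intro h
    refine DownChain.mk' ?_ ?_ ?_
    · exact Finset.map_subset_map.2 h.sub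
    · intro x hx y hy
      obtain ⟨x, hx', rfl⟩ := Finset.mem_map.1 hx
      obtain ⟨y, hy', rfl⟩ := Finset.mem_map.1 hy
      simpa using h.total hx' hy'
    · intro x hx w hw hwx
      obtain ⟨x, hx', rfl⟩ := Finset.mem_map.1 hx
      obtain ⟨w, hw', rfl⟩ := Finset.mem_map.1 hw
      rw [Finset.mem_map']
      apply h.down' hx' hw'
      simpa using hwx

lemma greedyChain_map (e : β ↪o α) {Q C : Finset β} :
    GreedyChain (Q.map e.toEmbedding) (C.map e.toEmbedding) ↔ GreedyChain Q C := by
  unfold GreedyChain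
  rw [downChain_map]
  refine and_congr_right (fun _ => ⟨fun h C' hC' hCC' => ?_, fun h C' hC' hCC' => ?_⟩)
  · have := h (C'.map e.toEmbedding) ((downChain_map e).2 hC') (Finset.map_subset_map.2 hCC')
    exact Finset.map_injective _ this
  · obtain ⟨C'', hC'', rfl⟩ := Finset.subset_map_iff.1 hC'.sub
    rw [h C'' ((downChain_map e).1 hC') (Finset.map_subset_map.1 hCC')]

lemma sdiff_map (e : β ↪o α) (Q C : Finset β) :
    Q.map e.toEmbedding \ C.map e.toEmbedding = (Q \ C).map e.toEmbedding := by
  ext x
  simp only [Finset.mem_sdiff, Finset.mem_map]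
  constructor
  · rintro ⟨⟨y, hy, rfl⟩, h⟩
    exact ⟨y, ⟨hy, fun hc => h ⟨y, hc, rfl⟩⟩, rfl⟩
  · rintro ⟨y, ⟨h1, h2⟩, rfl⟩
    refine ⟨⟨y, h1, rfl⟩, ?_⟩
    rintro ⟨z, hz, hzy⟩
    exact h2 (e.toEmbedding.injective hzy ▸ hz)

lemma T_map (e : β ↪o α) {Q : Finset β} {n : ℕ} : T (Q.map e.toEmbedding) n ↔ T Q n := by
  constructor
  · intro h
    induction n generalizing Q with
    | zero =>
      rcases Q.eq_empty_or_nonempty with rfl | hQ
      · exact T.nil
      · obtain ⟨_, _, _, _, h0⟩ := T_cases h (hQ.map)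
        omega
    | succ n ih =>
      rcases Q.eq_empty_or_nonempty with rfl | hQ
      · have := T_empty (α := α) (by simpa using h)
        omega
      · obtain ⟨C, m, hC, hT, h0⟩ := T_cases h (hQ.map)
        obtain ⟨C', hC', rfl⟩ := Finset.subset_map_iff.1 hC.dc.sub
        rw [sdiff_map] at hT
        have hm : m = n := by omega
        subst hm
        exact T.cons Q C' m hQ ((greedyChain_map e).1 hC) (ih hT)
  · intro h
    induction h with
    | nil => simpa using T.nil
    | cons X C n hne hC _ ih =>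
      refine T.cons _ _ n (hne.map) ((greedyChain_map e).2 hC) ?_
      rw [sdiff_map]; exact ih

lemma allEq_map (e : β ↪o α) {Q : Finset β} : AllEq (Q.map e.toEmbedding) ↔ AllEq Q := by
  unfold AllEq
  constructor
  · intro h n m hn hm
    exact h n m ((T_map e).2 hn) ((T_map e).2 hm)
  · intro h n m hn hm
    exact h n m ((T_map e).1 hn) ((T_map e).1 hm)

theorem isGreedy_subtype (U : Finset α) : IsGreedy U ↔ AllEq U := by
  rw [isGreedy_iff]
  have h : (univ : Finset U).map (OrderEmbedding.subtype (fun x => x ∈ U)).toEmbedding = U := by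
    ext x
    simp
  rw [← allEq_map (OrderEmbedding.subtype (fun x => x ∈ U)), h]

end transfer

end GreedyJump
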