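import Pool.Agent.GreedyJump.Height

/-!
Posets all of whose ideals are greedy.
-/

open Finset

namespace GreedyJump

set_option linter.unusedSectionVars false

/-- `α` is N-free: two elements with a common lower cover have the same lower covers. -/
def NFree (α : Type*) [PartialOrder α] : Prop :=
  ∀ y₁ y₂ a a' : α, a ⋖ y₁ → a ⋖ y₂ → a' ⋖ y₁ → a' ⋖ y₂

lemma NFree.elim {α : Type*} [PartialOrder α] (h : NFree α) : Elim α := by
  intro y₁ y₂ a a' h1 h2 h3 h4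
  exact absurd (h y₁ y₂ a a' h1 h2 h3).lt h4

section

variable {α : Type*} [PartialOrder α] [DecidableEq α]

lemma exists_covBy_le [Fintype α] {x z : α} (h : x < z) : ∃ w, x ⋖ w ∧ w ≤ z := by
  classical
  set S : Finset α := univ.filter (fun w => x < w ∧ w ≤ z) with hS
  have hne : S.Nonempty := ⟨z, by simp [hS, h]⟩
  obtain ⟨w, hw⟩ := S.exists_minimal hne
  have hw1 : x < w ∧ w ≤ z := by simpa [hS] using hw.1
  refine ⟨w, ⟨hw1.1, fun v hv1 hv2 => ?_⟩, hw1.2⟩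
  have hv : v ∈ S := by simp [hS, hv1, hv2.le.trans hw1.2]
  exact absurd (hv2.trans_le (hw.2 hv hv2.le)) (lt_irrefl _)

/-- relative upper sets along a run -/
lemma ReachFrom.relUpper {I Q : Finset α} (h : ReachFrom I Q) :
    Q ⊆ I ∧ ∀ x ∈ Q, ∀ y ∈ I, x ≤ y → y ∈ Q := by
  induction h with
  | base => exact ⟨Finset.Subset.refl _, fun x _ y hy _ => hy⟩
  | step Z C _ _ hC ih =>
    refine ⟨Finset.sdiff_subset.trans ih.1, fun x hx y hy hxy => ?_⟩
    rw [Finset.mem_sdiff] at hx ⊢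
    exact ⟨ih.2 x hx.1 y hy hxy, fun hyC => hx.2 (hC.dc.down y hyC x hx.1 hxy)⟩

/-- The data of a minimal failure of being N-free. -/
structure Viol (I : Finset α) (y₁ y₂ a a' : α) : Prop where
  low : ∀ x ∈ I, ∀ w, w ≤ x → w ∈ I
  hy₁ : y₁ ∈ I
  hy₂ : y₂ ∈ I
  ne : y₁ ≠ y₂
  max₁ : ∀ x ∈ I, ¬ y₁ < x
  max₂ : ∀ x ∈ I, ¬ y₂ < x
  nf : ∀ z₁ ∈ I, ∀ z₂ ∈ I, ¬ (z₁ = y₁ ∧ z₂ = y₂) → ¬ (z₁ = y₂ ∧ z₂ = y₁) →
    ∀ b b', b ⋖ z₁ → b ⋖ z₂ → b' ⋖ z₁ → b' ⋖ z₂
  h1 : a ⋖ y₁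
  h2 : a ⋖ y₂
  h3 : a' ⋖ y₁
  h4 : ¬ a' ⋖ y₂

section viol

variable [Fintype α] {I : Finset α} {y₁ y₂ a a' : α}

lemma Viol.maxa (h : Viol I y₁ y₂ a a') {z : α} (hz : z ∈ I) (hz1 : z ≠ y₁) (hz2 : z ≠ y₂) :
    ¬ a < z := by
  intro haz
  obtain ⟨w, hw1, hw2⟩ := exists_covBy_le haz
  have hwI : w ∈ I := h.low z hz w hw2
  have hwy1 : w ≠ y₁ := by
    rintro rfl
    rcases hw2.eq_or_lt with h5 | h5
    · exact hz1 h5.symm
    · exact h.max₁ z hz h5
  have hwy2 : w ≠ y₂ := by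
    rintro rfl
    rcases hw2.eq_or_lt with h5 | h5
    · exact hz2 h5.symm
    · exact h.max₂ z hz h5
  have h5 : a' ⋖ w := h.nf y₁ h.hy₁ w hwI (fun e => hwy2 e.2) (fun e => h.ne e.1) a a' h.h1 hw1 h.h3
  exact h.h4 (h.nf w hwI y₂ h.hy₂ (fun e => hwy1 e.1) (fun e => hwy2 e.1) a a' hw1 h.h2 h5)

lemma Viol.maxa' (h : Viol I y₁ y₂ a a') {z : α} (hz : z ∈ I) (hz1 : z ≠ y₁) (hz2 : z ≠ y₂) :
    ¬ a' < z := by
  intro haz
  obtain ⟨w, hw1, hw2⟩ := exists_covBy_le haz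
  have hwI : w ∈ I := h.low z hz w hw2
  have hwy1 : w ≠ y₁ := by
    rintro rfl
    rcases hw2.eq_or_lt with h5 | h5
    · exact hz1 h5.symm
    · exact h.max₁ z hz h5
  have hwy2 : w ≠ y₂ := by
    rintro rfl
    rcases hw2.eq_or_lt with h5 | h5
    · exact hz2 h5.symm
    · exact h.max₂ z hz h5
  have h5 : a ⋖ w := h.nf y₁ h.hy₁ w hwI (fun e => hwy2 e.2) (fun e => h.ne e.1) a' a h.h3 hw1 h.h1
  exact h.maxa hwI hwy1 hwy2 h5.lt

lemma Viol.aI (h : Viol I y₁ y₂ a a') : a ∈ I := h.low _ h.hy₁ _ h.h1.lt.le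
lemma Viol.a'I (h : Viol I y₁ y₂ a a') : a' ∈ I := h.low _ h.hy₁ _ h.h3.lt.le

lemma Viol.ne_y {x : α} (h : Viol I y₁ y₂ a a') {y : α} (hy : y ∈ I) (hxy : x < y) :
    x ≠ y₁ ∧ x ≠ y₂ :=
  ⟨fun e => h.max₁ y hy (e ▸ hxy), fun e => h.max₂ y hy (e ▸ hxy)⟩

lemma Viol.not_lt₂ (h : Viol I y₁ y₂ a a') : ¬ a' < y₂ := by
  intro hlt
  obtain ⟨w, hw1, hw2⟩ := exists_covBy_le hlt
  rcases hw2.eq_or_lt with h5 | h5
  · exact h.h4 (h5 ▸ hw1)
  · obtain ⟨e1, e2⟩ := h.ne_y h.hy₂ h5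
    exact h.maxa' (h.low _ h.hy₂ _ hw2) e1 e2 hw1.lt

lemma Viol.inc (h : Viol I y₁ y₂ a a') : ¬ a ≤ a' ∧ ¬ a' ≤ a := by
  have hne : a ≠ a' := by
    rintro rfl
    exact h.h4 h.h2
  constructor
  · intro hle
    rcases hle.eq_or_lt with h5 | h5
    · exact hne h5
    · exact h.h1.2 h5 h.h3.lt
  · intro hle
    rcases hle.eq_or_lt with h5 | h5
    · exact hne h5.symm
    · exact h.h3.2 h5 h.h1.lt

theorem Viol.not_allEq (h : Viol I y₁ y₂ a a') : ¬ AllEq I := by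
  classical
  intro hA
  -- a smallest state still containing `a, a', y₁, y₂`
  have hex : ∃ Q, ReachFrom I Q ∧ a ∈ Q ∧ a' ∈ Q ∧
      ∀ C, GreedyChain Q C → a ∈ C ∨ a' ∈ C := by
    have key : ∀ k, ∀ Q : Finset α, Q.card = k → ReachFrom I Q → a ∈ Q → a' ∈ Q →
        ∃ Q, ReachFrom I Q ∧ a ∈ Q ∧ a' ∈ Q ∧ ∀ C, GreedyChain Q C → a ∈ C ∨ a' ∈ C := by
      intro k
      induction k using Nat.strong_induction_on with
      | _ k ih =>
        intro Q hk hQ haQ ha'Q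
        by_cases hall : ∀ C, GreedyChain Q C → a ∈ C ∨ a' ∈ C
        · exact ⟨Q, hQ, haQ, ha'Q, hall⟩
        · push Not at hall
          obtain ⟨C, hC, h5, h6⟩ := hall
          exact ih _ (hk ▸ card_sdiff_lt hC ⟨a, haQ⟩) (Q \ C) rfl
            (ReachFrom.step _ _ hQ ⟨a, haQ⟩ hC) (Finset.mem_sdiff.2 ⟨haQ, h5⟩)
            (Finset.mem_sdiff.2 ⟨ha'Q, h6⟩)
    exact key _ I rfl ReachFrom.base h.aI h.a'I
  obtain ⟨Q, hQ, haQ, ha'Q, hall⟩ := hex
  obtain ⟨hQI, hup⟩ := hQ.relUpper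
  have hL : Loc Q := (allEq_iff_loc _).1 hA Q hQ
  have hy₁Q : y₁ ∈ Q := hup a haQ y₁ h.hy₁ h.h1.lt.le
  have hy₂Q : y₂ ∈ Q := hup a haQ y₂ h.hy₂ h.h2.lt.le
  -- a down-chain with a new top extends to a greedy chain
  have ext1 : ∀ z ∈ Q, (∀ v ∈ Q, ∀ w ∈ Q, v < z → w < z → v ≤ w ∨ w ≤ v) →
      ∃ C, GreedyChain Q C ∧ z ∈ C := by
    intro z hz hch
    have hdc : DownChain Q (insert z (Q.filter (· < z))) := by
      refine DownChain.mk' ?_ ?_ ?_
      · intro x hx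
        rcases Finset.mem_insert.1 hx with rfl | hx
        · exact hz
        · exact (Finset.mem_filter.1 hx).1
      · intro x hx w hw
        rcases Finset.mem_insert.1 hx with hx' | hx' <;>
          rcases Finset.mem_insert.1 hw with hw' | hw'
        · exact Or.inl (hx'.trans hw'.symm).le
        · exact Or.inr (hx' ▸ (Finset.mem_filter.1 hw').2.le)
        · exact Or.inl (hw' ▸ (Finset.mem_filter.1 hx').2.le)
        · rw [Finset.mem_filter] at hx' hw'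
          exact hch x hx'.1 w hw'.1 hx'.2 hw'.2
      · intro x hx w hw hwx
        apply Finset.mem_insert_of_mem
        rw [Finset.mem_filter]
        rcases Finset.mem_insert.1 hx with hx' | hx'
        · exact ⟨hw, hx' ▸ hwx⟩
        · exact ⟨hw, hwx.trans (Finset.mem_filter.1 hx').2⟩
    obtain ⟨C, hC1, hC2⟩ := hdc.exists_greedy
    exact ⟨C, hC2, hC1 (Finset.mem_insert_self _ _)⟩
  -- the symmetric core: some greedy chain contains `b'`, for `{b, b'} = {a, a'}`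
  have core : ∀ b b' : α, b ∈ Q → b' ∈ Q → ¬ b ≤ b' → ¬ b' ≤ b →
      (∀ z ∈ I, z ≠ y₁ → z ≠ y₂ → ¬ b < z) → b' < y₁ →
      (∀ C, GreedyChain Q C → b ∈ C ∨ b' ∈ C) → ∃ C, GreedyChain Q C ∧ b' ∈ C := by
    intro b b' hb hb' hbb' hb'b hbmax hb'y hall
    by_contra hcon
    push Not at hcon
    have hbC : ∀ C, GreedyChain Q C → b ∈ C := fun C hC => (hall C hC).resolve_right (hcon C hC)
    -- minimal element of `{w ∈ Q : w ≤ b', ¬ w ≤ b}`
    set S := Q.filter (fun w => w ≤ b' ∧ ¬ w ≤ b) with hS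
    obtain ⟨z, hz⟩ := S.exists_minimal ⟨b', by simp [hS, hb', hb'b]⟩
    have hz1 : z ∈ Q ∧ z ≤ b' ∧ ¬ z ≤ b := by simpa [hS] using hz.1
    have hzb : ∀ w ∈ Q, w < z → w ≤ b := by
      intro w hw hwz
      by_contra hc
      have : w ∈ S := by simp [hS, hw, hc, hwz.le.trans hz1.2.1]
      exact absurd (hwz.trans_le (hz.2 this hwz.le)) (lt_irrefl _)
    obtain ⟨C0, -, hC0⟩ := (DownChain.empty Q).exists_greedy
    have hbC0 := hbC C0 hC0
    obtain ⟨C, hC, hzC⟩ := ext1 z hz1.1 (by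
      intro v hv w hw hvz hwz
      exact hC0.dc.total (hC0.dc.down b hbC0 v hv (hzb v hv hvz))
        (hC0.dc.down b hbC0 w hw (hzb w hw hwz)))
    rcases hC.dc.total (hbC C hC) hzC with h5 | h5
    · exact hbb' (h5.trans hz1.2.1)
    · exact hz1.2.2 h5
  obtain ⟨hinc1, hinc2⟩ := h.inc
  obtain ⟨C₁, hC₁, haC₁⟩ := core a' a ha'Q haQ hinc2 hinc1
    (fun z hz e1 e2 => h.maxa' hz e1 e2) h.h1.lt (fun C hC => (hall C hC).symm)
  obtain ⟨C', hC', ha'C'⟩ := core a a' haQ ha'Q hinc1 hinc2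
    (fun z hz e1 e2 => h.maxa hz e1 e2) h.h3.lt hall
  have cha : ∀ v ∈ Q, ∀ w ∈ Q, v ≤ a → w ≤ a → v ≤ w ∨ w ≤ v := fun v hv w hw h5 h6 =>
    hC₁.dc.total (hC₁.dc.down a haC₁ v hv h5) (hC₁.dc.down a haC₁ w hw h6)
  have cha' : ∀ v ∈ Q, ∀ w ∈ Q, v ≤ a' → w ≤ a' → v ≤ w ∨ w ≤ v := fun v hv w hw h5 h6 =>
    hC'.dc.total (hC'.dc.down a' ha'C' v hv h5) (hC'.dc.down a' ha'C' w hw h6)
  -- maximal elements of subsets of the two chains
  have maxin : ∀ (c : α) (S : Finset α), S ⊆ Q → S.Nonempty → (∀ x ∈ S, x ≤ c) →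
      (∀ v ∈ Q, ∀ w ∈ Q, v ≤ c → w ≤ c → v ≤ w ∨ w ≤ v) → ∃ m ∈ S, ∀ x ∈ S, x ≤ m := by
    intro c S hS hne hSc hch
    obtain ⟨m, hm⟩ := S.exists_maximal hne
    refine ⟨m, hm.1, fun x hx => ?_⟩
    rcases hch x (hS hx) m (hS hm.1) (hSc x hx) (hSc m hm.1) with h5 | h5
    · exact h5
    · exact hm.2 hx h5
  -- `Q` consists of the two chains and `y₁, y₂`
  have hQ0 : ∀ z ∈ Q, z ≠ y₁ → z ≠ y₂ → z ≤ a ∨ z ≤ a' := by
    by_contra hcon
    push Not at hcon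
    obtain ⟨z0, hz0, e1, e2, h5, h6⟩ := hcon
    set S := Q.filter (fun w => w ≠ y₁ ∧ w ≠ y₂ ∧ ¬ w ≤ a ∧ ¬ w ≤ a') with hS
    obtain ⟨z, hz⟩ := S.exists_minimal ⟨z0, by simp [hS, hz0, e1, e2, h5, h6]⟩
    obtain ⟨hzQ, hzy1, hzy2, hza, hza'⟩ :
        z ∈ Q ∧ z ≠ y₁ ∧ z ≠ y₂ ∧ ¬ z ≤ a ∧ ¬ z ≤ a' := by simpa [hS] using hz.1
    have hzI := hQI hzQ
    have hlow : ∀ w ∈ Q, w < z → w ≤ a ∨ w ≤ a' := by
      intro w hw hwz
      by_contra hc
      push Not at hc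
      obtain ⟨f1, f2⟩ := h.ne_y hzI hwz
      have : w ∈ S := by simp [hS, hw, f1, f2, hc.1, hc.2]
      exact absurd (hwz.trans_le (hz.2 this hwz.le)) (lt_irrefl _)
    have hnot : ∀ C, GreedyChain Q C → z ∉ C := by
      intro C hC hzC
      rcases hall C hC with h7 | h7
      · rcases hC.dc.total h7 hzC with h8 | h8
        · rcases h8.eq_or_lt with h9 | h9
          · exact hza h9.ge
          · exact h.maxa hzI hzy1 hzy2 h9
        · exact hza h8
      · rcases hC.dc.total h7 hzC with h8 | h8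
        · rcases h8.eq_or_lt with h9 | h9
          · exact hza' h9.ge
          · exact h.maxa' hzI hzy1 hzy2 h9
        · exact hza' h8
    -- elements below `z` on each side
    have side : ∀ c c' : α, (∀ v ∈ Q, ∀ w ∈ Q, v ≤ c → w ≤ c → v ≤ w ∨ w ≤ v) →
        (∀ v ∈ Q, ∀ w ∈ Q, v ≤ c' → w ≤ c' → v ≤ w ∨ w ≤ v) →
        (∀ w ∈ Q, w < z → w ≤ c ∨ w ≤ c') → ∃ p ∈ Q, p ⋖ z ∧ p ≤ c ∧ ¬ p ≤ c' := by
      intro c c' hc hc' hl
      set S' := Q.filter (fun w => w < z ∧ ¬ w ≤ c') with hS'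
      have hne : S'.Nonempty := by
        by_contra hne
        rw [Finset.not_nonempty_iff_eq_empty] at hne
        have hlc' : ∀ w ∈ Q, w < z → w ≤ c' := by
          intro w hw hwz
          by_contra hw'
          have : w ∈ S' := by simp [hS', hw, hwz, hw']
          rw [hne] at this
          simp at this
        obtain ⟨C, hC, hzC⟩ := ext1 z hzQ (fun v hv w hw h7 h8 =>
          hc' v hv w hw (hlc' v hv h7) (hlc' w hw h8))
        exact hnot C hC hzC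
      obtain ⟨m, hm, hmax⟩ := maxin c S' (Finset.filter_subset _ _) hne (by
        intro x hx
        have := (Finset.mem_filter.1 hx)
        exact (hl x this.1 this.2.1).resolve_right this.2.2) hc
      rw [Finset.mem_filter] at hm
      refine ⟨m, hm.1, ⟨hm.2.1, fun w hmw hwz => ?_⟩,
        (hl m hm.1 hm.2.1).resolve_right hm.2.2, hm.2.2⟩
      have hwI : w ∈ I := h.low z hzI w hwz.le
      have hwQ : w ∈ Q := hup m hm.1 w hwI hmw.le
      have hwS : w ∈ S' := by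
        rw [hS', Finset.mem_filter]
        exact ⟨hwQ, hwz, fun h7 => hm.2.2 (hmw.le.trans h7)⟩
      exact absurd (hmw.trans_le (hmax w hwS)) (lt_irrefl _)
    obtain ⟨p, hpQ, hpz, hpa, hpa'⟩ := side a a' cha cha' hlow
    obtain ⟨p', hp'Q, hp'z, hp'a', hp'a⟩ := side a' a cha' cha
      (fun w hw h7 => (hlow w hw h7).symm)
    have hpna : p ≠ a := by
      rintro rfl
      exact h.maxa hzI hzy1 hzy2 hpz.lt
    obtain ⟨w, hw1, hw2⟩ := exists_covBy_le (lt_of_le_of_ne hpa hpna)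
    have hwI : w ∈ I := h.low a h.aI w hw2
    have := h.nf z hzI w hwI (fun e => hzy1 e.1) (fun e => hzy2 e.1) p p' hpz hw1 hp'z
    exact hp'a (this.lt.le.trans hw2)
  -- below `y₂` only the chain of `a`
  have hDy₂ : ∀ w ∈ Q, w < y₂ → w ≤ a := by
    by_contra hcon
    push Not at hcon
    obtain ⟨w0, hw0, hw0y, hw0a⟩ := hcon
    set S := Q.filter (fun w => w < y₂ ∧ ¬ w ≤ a) with hS
    have hsub : ∀ x ∈ S, x ≤ a' := by
      intro x hx
      rw [hS, Finset.mem_filter] at hx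
      obtain ⟨f1, f2⟩ := h.ne_y h.hy₂ hx.2.1
      exact (hQ0 x hx.1 f1 f2).resolve_left hx.2.2
    obtain ⟨m, hm, hmax⟩ := maxin a' S (Finset.filter_subset _ _)
      ⟨w0, by simp [hS, hw0, hw0y, hw0a]⟩ hsub cha'
    have hma' := hsub m hm
    rw [hS, Finset.mem_filter] at hm
    have hmc : m ⋖ y₂ := by
      refine ⟨hm.2.1, fun w hmw hwy => ?_⟩
      have hwI : w ∈ I := h.low _ h.hy₂ w hwy.le
      have hwQ : w ∈ Q := hup m hm.1 w hwI hmw.le
      have hwS : w ∈ S := by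
        rw [hS, Finset.mem_filter]
        exact ⟨hwQ, hwy, fun h7 => hm.2.2 (hmw.le.trans h7)⟩
      exact absurd (hmw.trans_le (hmax w hwS)) (lt_irrefl _)
    have hmne : m ≠ a' := by
      rintro rfl
      exact h.not_lt₂ hmc.lt
    obtain ⟨w, hw1, hw2⟩ := exists_covBy_le (lt_of_le_of_ne hma' hmne)
    have hwI : w ∈ I := h.low a' h.a'I w hw2
    have hwne := h.ne_y h.hy₁ (hw2.trans_lt h.h3.lt)
    have := h.nf y₂ h.hy₂ w hwI (fun e => h.ne e.1.symm) (fun e => hwne.1 e.2) m a hmc hw1 h.h2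
    exact h.maxa hwI hwne.1 hwne.2 this.lt
  -- the chain `C` ending with `a, y₂`
  obtain ⟨C, hC, hy₂C⟩ := ext1 y₂ hy₂Q (fun v hv w hw h7 h8 =>
    cha v hv w hw (hDy₂ v hv h7) (hDy₂ w hw h8))
  have haC : a ∈ C := hC.dc.down' hy₂C haQ h.h2.lt
  have hC'a' : ∀ x ∈ C', x ≤ a' := by
    intro x hx
    rcases hC'.dc.total hx ha'C' with h7 | h7
    · exact h7
    · rcases h7.eq_or_lt with h8 | h8
      · exact h8.ge
      · exfalso
        have hxI := hQI (hC'.dc.sub hx)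
        by_cases e1 : x = y₁
        · subst e1
          have := hC'.dc.down' hx haQ h.h1.lt
          rcases hC'.dc.total this ha'C' with h9 | h9
          · exact hinc1 h9
          · exact hinc2 h9
        · by_cases e2 : x = y₂
          · subst e2
            exact h.not_lt₂ h8
          · exact h.maxa' hxI e1 e2 h8
  have ha'C : a' ∉ C := by
    intro h7
    rcases hC.dc.total haC h7 with h8 | h8
    · exact hinc1 h8
    · exact hinc2 h8
  have hne : C ≠ C' := fun e => ha'C (e ▸ ha'C')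
  have hExt : Ext Q C C' := by
    refine ⟨y₁, Finset.mem_sdiff.2 ⟨hy₁Q, fun h7 => ha'C (hC.dc.down' h7 ha'Q h.h3.lt)⟩,
      ?_, ?_, ?_⟩
    · intro h7
      have := hC'a' y₁ (Finset.mem_sdiff.1 h7).1
      exact absurd (h.h3.lt.trans_le this) (lt_irrefl _)
    · intro w hw hwy
      rw [Finset.mem_sdiff] at hw ⊢
      obtain ⟨f1, f2⟩ := h.ne_y h.hy₁ hwy
      rcases hQ0 w hw.1 f1 f2 with h7 | h7
      · exact absurd (hC.dc.down a haC w hw.1 h7) hw.2
      · exact ⟨hC'.dc.down a' ha'C' w hw.1 h7, hw.2⟩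
    · intro w hw
      exact (hC'a' w (Finset.mem_sdiff.1 hw).1).trans_lt h.h3.lt
  obtain ⟨z, hz1, _, _, hz4⟩ := hL C C' hC hC' hne hExt
  have hy₂C' : y₂ ∉ C' := by
    intro h7
    have := hC'a' y₂ h7
    exact h.max₂ y₁ h.hy₁ (this.trans_lt h.h3.lt)
  exact h.max₂ z (hQI (Finset.mem_sdiff.1 hz1).1) (hz4 y₂ (Finset.mem_sdiff.2 ⟨hy₂C, hy₂C'⟩))

end viol

/-- If every down-set is greedy then `α` is N-free. -/
theorem nfree_of_ideals [Fintype α]
    (hall : ∀ D : Finset α, IsLowerSet (D : Set α) → AllEq D) : NFree α := by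
  classical
  by_contra hcon
  -- violating pairs
  set P : Finset (α × α) := univ.filter (fun p => ∃ a a', a ⋖ p.1 ∧ a ⋖ p.2 ∧ a' ⋖ p.1 ∧
    ¬ a' ⋖ p.2) with hP
  have hPne : P.Nonempty := by
    unfold NFree at hcon
    push Not at hcon
    obtain ⟨y₁, y₂, a, a', h1, h2, h3, h4⟩ := hcon
    exact ⟨(y₁, y₂), by simp only [hP, Finset.mem_filter, Finset.mem_univ, true_and]
                        exact ⟨a, a', h1, h2, h3, h4⟩⟩
  let I : α × α → Finset α := fun p => univ.filter (fun x => x ≤ p.1 ∨ x ≤ p.2)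
  have hI : ∀ p x, x ∈ I p ↔ x ≤ p.1 ∨ x ≤ p.2 := by intro p x; simp [I]
  obtain ⟨⟨y₁, y₂⟩, hp, hmin⟩ := P.exists_min_image (fun p => (I p).card) hPne
  obtain ⟨a, a', h1, h2, h3, h4⟩ : ∃ a a', a ⋖ y₁ ∧ a ⋖ y₂ ∧ a' ⋖ y₁ ∧ ¬ a' ⋖ y₂ := by
    simpa only [hP, Finset.mem_filter, Finset.mem_univ, true_and] using hp
  have hne : y₁ ≠ y₂ := fun e => h4 (e ▸ h3)
  have n12 : ¬ y₁ < y₂ := fun h => h2.2 h1.lt h
  have n21 : ¬ y₂ < y₁ := fun h => h1.2 h2.lt h
  have mx1 : ∀ x ∈ I (y₁, y₂), ¬ y₁ < x := by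
    intro x hx hlt
    rcases (hI _ x).1 hx with h | h
    · exact absurd (hlt.trans_le h) (lt_irrefl _)
    · exact n12 (hlt.trans_le h)
  have mx2 : ∀ x ∈ I (y₁, y₂), ¬ y₂ < x := by
    intro x hx hlt
    rcases (hI _ x).1 hx with h | h
    · exact n21 (hlt.trans_le h)
    · exact absurd (hlt.trans_le h) (lt_irrefl _)
  have hlow : ∀ x ∈ I (y₁, y₂), ∀ w, w ≤ x → w ∈ I (y₁, y₂) := by
    intro x hx w hwx
    rw [hI] at hx ⊢
    exact hx.imp (fun h => hwx.trans h) (fun h => hwx.trans h)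
  have hv : Viol (I (y₁, y₂)) y₁ y₂ a a' :=
    { low := hlow
      hy₁ := (hI _ _).2 (Or.inl le_rfl)
      hy₂ := (hI _ _).2 (Or.inr le_rfl)
      ne := hne
      max₁ := mx1
      max₂ := mx2
      nf := by
        intro z₁ hz₁ z₂ hz₂ e1 e2 b b' g1 g2 g3
        by_contra g4
        have hz : (z₁, z₂) ∈ P := by
          simp only [hP, Finset.mem_filter, Finset.mem_univ, true_and]
          exact ⟨b, b', g1, g2, g3, g4⟩
        have hsub : I (z₁, z₂) ⊆ I (y₁, y₂) := by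
          intro x hx
          rcases (hI _ x).1 hx with h | h
          · exact hlow z₁ hz₁ x h
          · exact hlow z₂ hz₂ x h
        have heq : I (z₁, z₂) = I (y₁, y₂) :=
          Finset.eq_of_subset_of_card_le hsub (hmin _ hz)
        have k1 : y₁ ≤ z₁ ∨ y₁ ≤ z₂ := by
          have : y₁ ∈ I (z₁, z₂) := by rw [heq]; exact (hI _ _).2 (Or.inl le_rfl)
          exact (hI _ _).1 this
        have k2 : y₂ ≤ z₁ ∨ y₂ ≤ z₂ := by
          have : y₂ ∈ I (z₁, z₂) := by rw [heq]; exact (hI _ _).2 (Or.inr le_rfl)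
          exact (hI _ _).1 this
        have q1 : ∀ z ∈ I (y₁, y₂), y₁ ≤ z → z = y₁ := by
          intro z hz h
          rcases h.eq_or_lt with h | h
          · exact h.symm
          · exact absurd h (mx1 z hz)
        have q2 : ∀ z ∈ I (y₁, y₂), y₂ ≤ z → z = y₂ := by
          intro z hz h
          rcases h.eq_or_lt with h | h
          · exact h.symm
          · exact absurd h (mx2 z hz)
        rcases k1 with k1 | k1 <;> rcases k2 with k2 | k2
        · exact hne ((q1 _ hz₁ k1).symm.trans (q2 _ hz₁ k2))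
        · exact e1 ⟨q1 _ hz₁ k1, q2 _ hz₂ k2⟩
        · exact e2 ⟨q2 _ hz₁ k2, q1 _ hz₂ k1⟩
        · exact hne ((q1 _ hz₂ k1).symm.trans (q2 _ hz₂ k2))
      h1 := h1
      h2 := h2
      h3 := h3
      h4 := h4 }
  refine hv.not_allEq (hall _ ?_)
  intro x w hwx hx
  exact hlow x hx w hwx

end

/-- covers in a convex subset -/
lemma covBy_subtype {α : Type*} [PartialOrder α] {S : Finset α}
    (hS : (S : Set α).OrdConnected) {x y : S} : x ⋖ y ↔ (x : α) ⋖ (y : α) := by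
  constructor
  · rintro ⟨h1, h2⟩
    refine ⟨h1, fun z hz1 hz2 => ?_⟩
    have hz : z ∈ (S : Set α) := hS.out x.2 y.2 ⟨hz1.le, hz2.le⟩
    exact h2 (c := ⟨z, hz⟩) hz1 hz2
  · rintro ⟨h1, h2⟩
    exact ⟨h1, fun z hz1 hz2 => h2 hz1 hz2⟩

/-- **Ideals and convex subsets.** -/
theorem ideals_iff {α : Type*} [PartialOrder α] [Fintype α] [DecidableEq α] :
    ((∀ D : Finset α, IsLowerSet (D : Set α) → IsGreedy D) ↔ NFree α) ∧
    ((∀ S : Finset α, (S : Set α).OrdConnected → IsGreedy S) ↔ NFree α) := by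
  have conv : NFree α → ∀ S : Finset α, (S : Set α).OrdConnected → IsGreedy S := by
    intro h S hS
    have hN : NFree S := by
      intro y₁ y₂ a a' h1 h2 h3
      rw [covBy_subtype hS] at *
      exact h _ _ _ _ h1 h2 h3
    rw [isGreedy_iff]
    exact hN.elim.allEq isUpperSet_univ'
  have low : (∀ D : Finset α, IsLowerSet (D : Set α) → IsGreedy D) → NFree α := by
    intro h
    exact nfree_of_ideals (fun D hD => (isGreedy_subtype D).1 (h D hD))
  exact ⟨⟨low, fun h D hD => conv h D hD.ordConnected⟩,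
    ⟨fun h => low (fun D hD => h D hD.ordConnected), conv⟩⟩

/-- **Filters.** -/
theorem filters_iff {α : Type*} [PartialOrder α] [Fintype α] [DecidableEq α] :
    (∀ U : Finset α, IsUpperSet (U : Set α) → IsGreedy U) ↔ Elim α := by
  rw [elim_iff]
  exact forall_congr' fun U => imp_congr_right fun _ => isGreedy_subtype U

end GreedyJump
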