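import Mathlib

/-!
Infinitary formulas with finitely many variables over partially ordered sets, and first-order
sentences.
-/

set_option autoImplicit false

namespace GreedyJump

/-- Formulas in the variables `0, ..., k - 1` over ordered sets: built from `i ≤ j` and `i = j` by
negation, conjunctions of arbitrary (also infinite) families and universal quantification over
one of the `k` variables. -/
inductive InfFormula (k : ℕ) : Type 1
  | le (i j : Fin k) : InfFormula k
  | eq (i j : Fin k) : InfFormula k
  | neg (φ : InfFormula k) : InfFormula k
  | conj (ι : Type) (φ : ι → InfFormula k) : InfFormula k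
  | all (i : Fin k) (φ : InfFormula k) : InfFormula k

/-- Truth of a formula in the poset `P` under an assignment of the variables. -/
def InfFormula.Holds {k : ℕ} (P : Type) [PartialOrder P] : InfFormula k → (Fin k → P) → Prop
  | .le i j, v => v i ≤ v j
  | .eq i j, v => v i = v j
  | .neg φ, v => ¬ φ.Holds P v
  | .conj _ φ, v => ∀ i, (φ i).Holds P v
  | .all i φ, v => ∀ p : P, φ.Holds P (Function.update v i p)

/-- The poset `P` satisfies the first-order sentence `ψ`, its binary symbol being read as `≤`. -/
def SatisfiesFO (P : Type) [PartialOrder P] (ψ : FirstOrder.Language.order.Sentence) : Prop :=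
  @FirstOrder.Language.Sentence.Realize FirstOrder.Language.order P
    (FirstOrder.Language.orderStructure P) ψ

end GreedyJump
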