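import Pool.Agent.GreedyJump.Bridge
import Pool.Agent.GreedyJump.InfDefs

/-!
No infinitary sentence with finitely many variables describes the greedy posets.
-/

open Finset FirstOrder

namespace GreedyJump

set_option linter.unusedSectionVars false

/-- Two assignments in the posets of `Fin N` and `Fin M` with a common support of at most
`20 * k` points. -/
def Match {N M k : ℕ} (v : Fin k → Elt (mcl (Fin N))) (w : Fin k → Elt (mcl (Fin M))) : Prop :=
  ∃ (S : Type) (_ : Fintype S) (f : S ↪ Fin N) (g : S ↪ Fin M) (z : Fin k → Elt (mcl S)),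
    Fintype.card S ≤ 20 * k ∧ v = eltMap f ∘ z ∧ w = eltMap g ∘ z

lemma Match.symm {N M k : ℕ} {v : Fin k → Elt (mcl (Fin N))} {w : Fin k → Elt (mcl (Fin M))}
    (h : Match v w) : Match w v := by
  obtain ⟨S, hS, f, g, z, h1, h2, h3⟩ := h
  exact ⟨S, hS, g, f, z, h1, h3, h2⟩

/-- forget the value of one variable -/
lemma shrink {k : ℕ} {S : Type} [Fintype S] (z : Fin k → Elt (mcl S)) (i : Fin k) :
    ∃ (S₁ : Type) (_ : Fintype S₁) (e : S₁ ↪ S) (z₁ : Fin k → Elt (mcl S₁)),
      Fintype.card S₁ ≤ 20 * (k - 1) ∧ ∀ j, j ≠ i → eltMap e (z₁ j) = z j := by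
  classical
  set T : Finset S := (univ.erase i).biUnion (fun j => supp (z j)) with hT
  have hcard : T.card ≤ 20 * (k - 1) := by
    have h1 := Finset.card_biUnion_le_card_mul (univ.erase i) (fun j => supp (z j)) 20
      (fun j _ => card_supp (z j))
    rw [Finset.card_erase_of_mem (Finset.mem_univ i), Finset.card_univ, Fintype.card_fin] at h1
    rw [mul_comm]; exact h1
  let e : {x // x ∈ T} ↪ S := Function.Embedding.subtype (fun x => x ∈ T)
  have hex : ∀ j, ∃ w : Elt (mcl {x // x ∈ T}), j ≠ i → eltMap e w = z j := by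
    intro j
    by_cases hj : j = i
    · exact ⟨.s, fun h => absurd hj h⟩
    · obtain ⟨w, hw⟩ := exists_eltMap e (z j) (by
        intro y hy
        exact ⟨⟨y, Finset.mem_biUnion.2 ⟨j, Finset.mem_erase.2 ⟨hj, Finset.mem_univ j⟩, hy⟩⟩,
          rfl⟩)
      exact ⟨w, fun _ => hw⟩
  choose z₁ hz₁ using hex
  refine ⟨{x // x ∈ T}, inferInstance, e, z₁, ?_, hz₁⟩
  rw [Fintype.card_coe]; exact hcard

/-- one move of the game -/
lemma Match.move {N M k : ℕ} {v : Fin k → Elt (mcl (Fin N))} {w : Fin k → Elt (mcl (Fin M))}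
    (h : Match v w) (hN : 20 * k ≤ N) (i : Fin k) (q : Elt (mcl (Fin M))) :
    ∃ p : Elt (mcl (Fin N)), Match (Function.update v i p) (Function.update w i q) := by
  obtain ⟨S, hS, f, g, z, h1, rfl, rfl⟩ := h
  obtain ⟨S₁, hS₁, e, z₁, h2, h3⟩ := shrink z i
  have hk : 0 < k := Fin.pos i
  have hq := card_supp q
  obtain ⟨S', hS', i', f', g', h4, h5, h6, h7⟩ := extend_common (e.trans f) (e.trans g) (supp q)
    (by omega)
  obtain ⟨u, hu⟩ := exists_eltMap g' q h6
  refine ⟨eltMap f' u, S', hS', f', g', Function.update (fun j => eltMap i' (z₁ j)) i u,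
    by omega, ?_, ?_⟩
  · funext j
    by_cases hj : j = i
    · subst hj; simp
    · simp only [Function.update_of_ne hj, Function.comp]
      rw [← eltMap_trans, h4, eltMap_trans, h3 j hj]
  · funext j
    by_cases hj : j = i
    · subst hj; simp [hu]
    · simp only [Function.update_of_ne hj, Function.comp]
      rw [← eltMap_trans, h5, eltMap_trans, h3 j hj]

lemma Match.holds {k : ℕ} (φ : InfFormula k) : ∀ {N M : ℕ} {v : Fin k → Elt (mcl (Fin N))}
    {w : Fin k → Elt (mcl (Fin M))}, 20 * k ≤ N → 20 * k ≤ M → Match v w →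
    (φ.Holds (Elt (mcl (Fin N))) v ↔ φ.Holds (Elt (mcl (Fin M))) w) := by
  induction φ with
  | le i j =>
    rintro N M v w _ _ ⟨S, hS, f, g, z, -, rfl, rfl⟩
    simp only [InfFormula.Holds, Function.comp]
    rw [(eltMap f).le_iff_le, (eltMap g).le_iff_le]
  | eq i j =>
    rintro N M v w _ _ ⟨S, hS, f, g, z, -, rfl, rfl⟩
    simp only [InfFormula.Holds, Function.comp]
    rw [(eltMap f).injective.eq_iff, (eltMap g).injective.eq_iff]
  | neg φ ih =>
    intro N M v w hN hM h
    simp only [InfFormula.Holds]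
    rw [ih hN hM h]
  | conj ι φ ih =>
    intro N M v w hN hM h
    simp only [InfFormula.Holds]
    exact forall_congr' fun i => ih i hN hM h
  | all i φ ih =>
    intro N M v w hN hM h
    simp only [InfFormula.Holds]
    constructor
    · intro hv q
      obtain ⟨p, hp⟩ := h.move hN i q
      exact (ih hN hM hp).1 (hv p)
    · intro hw p
      obtain ⟨q, hq⟩ := h.symm.move hM i p
      exact (ih hN hM hq.symm).2 (hw q)

/-- every assignment has a counterpart -/
lemma exists_match {N M k : ℕ} (hN : 20 * k ≤ N) (w : Fin k → Elt (mcl (Fin M))) :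
    ∃ v : Fin k → Elt (mcl (Fin N)), Match v w := by
  classical
  set T : Finset (Fin M) := univ.biUnion (fun j => supp (w j)) with hT
  have hcard : T.card ≤ 20 * k := by
    have h1 := Finset.card_biUnion_le_card_mul univ (fun j => supp (w j)) 20
      (fun j _ => card_supp (w j))
    rw [Finset.card_univ, Fintype.card_fin] at h1
    rw [mul_comm]; exact h1
  let g : {x // x ∈ T} ↪ Fin M := Function.Embedding.subtype (fun x => x ∈ T)
  obtain ⟨f⟩ : Nonempty ({x // x ∈ T} ↪ Fin N) :=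
    Function.Embedding.nonempty_of_card_le (by
      rw [Fintype.card_coe, Fintype.card_fin]; exact hcard.trans hN)
  have hex : ∀ j, ∃ u : Elt (mcl {x // x ∈ T}), eltMap g u = w j := by
    intro j
    exact exists_eltMap g (w j) (fun y hy =>
      ⟨⟨y, Finset.mem_biUnion.2 ⟨j, Finset.mem_univ j, hy⟩⟩, rfl⟩)
  choose z hz using hex
  refine ⟨eltMap f ∘ z, {x // x ∈ T}, inferInstance, f, g, z, ?_, rfl, ?_⟩
  · rw [Fintype.card_coe]; exact hcard
  · funext j; exact (hz j).symm

lemma inf_stable {k : ℕ} (φ : InfFormula k) {N M : ℕ} (hN : 20 * k ≤ N) (hM : 20 * k ≤ M) :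
    (∀ v, φ.Holds (Elt (mcl (Fin N))) v) ↔ (∀ w, φ.Holds (Elt (mcl (Fin M))) w) := by
  constructor
  · intro h w
    obtain ⟨v, hv⟩ := exists_match hN w
    exact (hv.holds φ hN hM).1 (h v)
  · intro h v
    obtain ⟨w, hw⟩ := exists_match hM v
    exact (hw.holds φ hM hN).1 (h w)

/-- the posets of the family are greedy exactly for odd `n` -/
lemma greedy_family (n : ℕ) (hn : 2 ≤ n) :
    Pool.Agent.Work.MP_02c6ed_co.IsGreedy (Set.univ : Set (Elt (mcl (Fin n)))) ↔ ¬ Even n := by
  classical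
  have hne : Nonempty (MI (Fin n)) := ⟨.one ⟨0, by omega⟩⟩
  rw [isGreedy_set_iff, isGreedy_iff, allEq_iff_unsat, sat_iff_even]
  intro c
  cases c with
  | one i =>
    have hex : ∃ j : Fin n, i ≠ j := by
      by_cases h0 : i.1 = 0
      · exact ⟨⟨1, by omega⟩, fun e => by rw [e] at h0; simp at h0⟩
      · exact ⟨⟨0, by omega⟩, fun e => by rw [e] at h0; simp at h0⟩
    obtain ⟨j, hj⟩ := hex
    exact ⟨(⟨(i, j), hj⟩, true), (mem_mcl _ _).2 ⟨rfl, rfl⟩⟩
  | sym p => exact ⟨(p, false), (mem_mcl _ _).2 (Or.inl ⟨rfl, rfl⟩)⟩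
  | inj i j k h1 h2 h3 =>
    exact ⟨(⟨(i, j), h1⟩, false), (mem_mcl _ _).2 ⟨rfl, Or.inl rfl⟩⟩

/-- **No infinitary sentence with finitely many variables describes the greedy posets.** -/
theorem no_infinitary (k : ℕ) (φ : InfFormula k) :
    ¬ ∀ (P : Type) [PartialOrder P] [Finite P], (∀ w x y z : P, w < x → x < y → ¬ y < z) →
      ((∀ v : Fin k → P, φ.Holds P v) ↔
        Pool.Agent.Work.MP_02c6ed_co.IsGreedy (Set.univ : Set P)) := by
  intro h
  have h4 : ∀ n, ∀ w x y z : Elt (mcl (Fin n)), w < x → x < y → ¬ y < z :=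
    fun n w x y z h1 h2 h3 => height_three w x y z ⟨h1, h2, h3⟩
  have h1 := (h (Elt (mcl (Fin (2 * (10 * k + 1))))) (h4 _)).trans
    (greedy_family (2 * (10 * k + 1)) (by omega))
  have h2 := (h (Elt (mcl (Fin (2 * (10 * k + 1) + 1)))) (h4 _)).trans
    (greedy_family (2 * (10 * k + 1) + 1) (by omega))
  have h3 := inf_stable φ (N := 2 * (10 * k + 1)) (M := 2 * (10 * k + 1) + 1)
    (by omega) (by omega)
  rw [h1, h2] at h3
  have e1 : Even (2 * (10 * k + 1)) := even_two_mul _
  have e2 : ¬ Even (2 * (10 * k + 1) + 1) := by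
    rw [Nat.even_add_one, not_not]; exact e1
  exact absurd e1 (h3.2 e2)

theorem no_first_order (ψ : Language.order.Sentence) :
    ¬ ∀ (P : Type) [PartialOrder P] [Finite P], (∀ w x y z : P, w < x → x < y → ¬ y < z) →
      (SatisfiesFO P ψ ↔ Pool.Agent.Work.MP_02c6ed_co.IsGreedy (Set.univ : Set P)) :=
  fun h => no_sentence_set ⟨ψ, h⟩

end GreedyJump
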