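import Pool.Agent.GreedyJump.Height
import Pool.Agent.GreedyJump.Size

/-!
The encoding as a quantifier-free interpretation.
-/

open Finset FirstOrder

namespace GreedyJump

set_option linter.unusedSectionVars false
set_option linter.constructorNameAsVariable false

/-- The relation symbols: for each sign `b`, a binary symbol `lit b`. -/
inductive CnfRel : ℕ → Type
  | lit : Bool → CnfRel 2

/-- The language of CNF formulas. -/
def cnfLang : Language := ⟨fun _ => Empty, CnfRel⟩

/-- In a structure for `cnfLang` on `A`, every element names a clause and a variable;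
`Lit b i v` says that clause `i` contains variable `v` with sign `b`. -/
def Lit {A : Type} [cnfLang.Structure A] (b : Bool) (i v : A) : Prop :=
  Language.Structure.RelMap (L := cnfLang) (CnfRel.lit b) ![i, v]

/-- the formula encoded by the structure is satisfiable -/
def Satisfiable (A : Type) [cnfLang.Structure A] : Prop :=
  ∃ τ : A → Bool, ∀ i : A, ∃ v : A, Lit (τ v) i v

/-- A quantifier-free interpretation of a binary relation in `cnfLang`-structures: finitely many
sorts `t`, of dimension `ar t`, with a domain formula for each sort and a formula for the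
relation between each pair of sorts. -/
structure Interp where
  ι : Type
  fin : Finite ι
  ar : ι → ℕ
  dom : ∀ t, cnfLang.Formula (Fin (ar t))
  rel : ∀ t t', cnfLang.Formula (Fin (ar t) ⊕ Fin (ar t'))
  domQF : ∀ t, (dom t).IsQF
  relQF : ∀ t t', (rel t t').IsQF

/-- the universe of the interpreted structure -/
def Interp.Carrier (J : Interp) (A : Type) [cnfLang.Structure A] : Type :=
  Σ t : J.ι, {x : Fin (J.ar t) → A // (J.dom t).Realize x}

/-- the interpreted relation -/
def Interp.Rel (J : Interp) {A : Type} [cnfLang.Structure A] (x y : J.Carrier A) : Prop :=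
  (J.rel x.1 y.1).Realize (Sum.elim x.2.1 y.2.1)

/-- the sorts -/
inductive Tag
  | a | s | u (b : Bool) | y | pair (b : Bool) | tri (b : Bool) | quad (b c : Bool)
  deriving DecidableEq

instance : Finite Tag := by
  refine Finite.of_injective (β := Fin 7 × Bool × Bool)
    (fun t => match t with
      | .a => (0, true, true)
      | .s => (1, true, true)
      | .u b => (2, b, true)
      | .y => (3, true, true)
      | .pair b => (4, b, true)
      | .tri b => (5, b, true)
      | .quad b c => (6, b, c)) ?_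
  intro x y h
  cases x <;> cases y <;> simp_all

def Tag.ar : Tag → ℕ
  | .a => 1
  | .s => 0
  | .u _ => 2
  | .y => 0
  | .pair _ => 3
  | .tri _ => 3
  | .quad _ _ => 6

/-- atomic formulas -/
def eqF {γ : Type} (i j : γ) : cnfLang.Formula γ := (Language.Term.var i).equal (Language.Term.var j)

def litF {γ : Type} (b : Bool) (i j : γ) : cnfLang.Formula γ :=
  Language.Relations.formula₂ (L := cnfLang) (CnfRel.lit b) (Language.Term.var i)
    (Language.Term.var j)

lemma realize_eqF {γ A : Type} [cnfLang.Structure A] (i j : γ) (x : γ → A) :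
    (eqF i j).Realize x ↔ x i = x j := by
  simp [eqF, Language.Formula.realize_equal]

lemma realize_litF {γ A : Type} [cnfLang.Structure A] (b : Bool) (i j : γ) (x : γ → A) :
    (litF b i j).Realize x ↔ Lit b (x i) (x j) := by
  exact Language.Formula.realize_rel₂

lemma eqF_qf {γ : Type} (i j : γ) : (eqF i j).IsQF :=
  (Language.BoundedFormula.IsAtomic.equal _ _).isQF

lemma litF_qf {γ : Type} (b : Bool) (i j : γ) : (litF b i j).IsQF :=
  (Language.BoundedFormula.IsAtomic.rel _ _).isQF


/-- the domain formulas -/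
def domF : (t : Tag) → cnfLang.Formula (Fin t.ar)
  | .a => ⊤
  | .s => ⊤
  | .u b => (litF b 0 1 : cnfLang.Formula (Fin 2))
  | .y => ⊤
  | .pair b => (litF b 0 2 ⊓ (litF b 1 2 ⊓ ∼(eqF 0 1)) : cnfLang.Formula (Fin 3))
  | .tri b => (litF b 0 2 ⊓ litF (!b) 1 2 : cnfLang.Formula (Fin 3))
  | .quad b c => (litF b 0 2 ⊓ (litF (!b) 1 2 ⊓ (litF c 3 5 ⊓
      (litF (!c) 4 5 ⊓ ∼(eqF 2 5)))) : cnfLang.Formula (Fin 6))

lemma realize_topF {γ A : Type} [cnfLang.Structure A] (x : γ → A) :
    (⊤ : cnfLang.Formula γ).Realize x := by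
  simp [Language.Formula.Realize]

lemma fin2 : ∀ i : Fin 2, i = 0 ∨ i = 1 := by decide
lemma fin3 : ∀ i : Fin 3, i = 0 ∨ i = 1 ∨ i = 2 := by decide
lemma fin6 : ∀ i : Fin 6, i = 0 ∨ i = 1 ∨ i = 2 ∨ i = 3 ∨ i = 4 ∨ i = 5 := by decide

lemma top_qf {γ : Type} : (⊤ : cnfLang.Formula γ).IsQF := Language.BoundedFormula.IsQF.top

lemma bot_qf {γ : Type} : (⊥ : cnfLang.Formula γ).IsQF := Language.BoundedFormula.IsQF.falsum

lemma domF_qf (t : Tag) : (domF t).IsQF := by
  cases t with
  | a => exact top_qf
  | s => exact top_qf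
  | u b => exact litF_qf _ _ _
  | y => exact top_qf
  | pair b => exact (litF_qf _ _ _).inf ((litF_qf _ _ _).inf (eqF_qf _ _).not)
  | tri b => exact (litF_qf _ _ _).inf (litF_qf _ _ _)
  | quad b c =>
    exact (litF_qf _ _ _).inf ((litF_qf _ _ _).inf ((litF_qf _ _ _).inf
      ((litF_qf _ _ _).inf (eqF_qf _ _).not)))

/-- the conjunction of two equalities if the signs agree, and falsity otherwise -/
def occF {γ : Type} (b c : Bool) (i j i' j' : γ) : cnfLang.Formula γ :=
  if b = c then eqF i i' ⊓ eqF j j' else ⊥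

lemma occF_qf {γ : Type} (b c : Bool) (i j i' j' : γ) : (occF b c i j i' j').IsQF := by
  unfold occF
  split_ifs
  · exact (eqF_qf _ _).inf (eqF_qf _ _)
  · exact bot_qf

lemma realize_occF {γ A : Type} [cnfLang.Structure A] (b c : Bool) (i j i' j' : γ) (x : γ → A) :
    (occF b c i j i' j').Realize x ↔ b = c ∧ x i = x i' ∧ x j = x j' := by
  unfold occF
  split_ifs with h
  · rw [Language.Formula.realize_inf, realize_eqF, realize_eqF]
    simp [h]
  · simp [h]

/-- the relation formulas -/
def relF : (t t' : Tag) → cnfLang.Formula (Fin t.ar ⊕ Fin t'.ar)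
  | .a, .u _ => eqF (.inl (0 : Fin 1)) (.inr (0 : Fin 2))
  | .a, .y => ⊤
  | .a, .pair _ => eqF (.inl (0 : Fin 1)) (.inr (0 : Fin 3)) ⊔
      eqF (.inl (0 : Fin 1)) (.inr (1 : Fin 3))
  | .a, .tri _ => eqF (.inl (0 : Fin 1)) (.inr (0 : Fin 3)) ⊔
      eqF (.inl (0 : Fin 1)) (.inr (1 : Fin 3))
  | .a, .quad _ _ => eqF (.inl (0 : Fin 1)) (.inr (0 : Fin 6)) ⊔
      (eqF (.inl (0 : Fin 1)) (.inr (1 : Fin 6)) ⊔
        (eqF (.inl (0 : Fin 1)) (.inr (3 : Fin 6)) ⊔ eqF (.inl (0 : Fin 1)) (.inr (4 : Fin 6))))
  | .s, .y => ⊤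
  | .s, .tri _ => ⊤
  | .u b, .pair c => occF b c (.inl (0 : Fin 2)) (.inl (1 : Fin 2)) (.inr (0 : Fin 3))
        (.inr (2 : Fin 3)) ⊔
      occF b c (.inl (0 : Fin 2)) (.inl (1 : Fin 2)) (.inr (1 : Fin 3)) (.inr (2 : Fin 3))
  | .u b, .tri c => occF b c (.inl (0 : Fin 2)) (.inl (1 : Fin 2)) (.inr (0 : Fin 3))
        (.inr (2 : Fin 3)) ⊔
      occF b (!c) (.inl (0 : Fin 2)) (.inl (1 : Fin 2)) (.inr (1 : Fin 3)) (.inr (2 : Fin 3))
  | .u b, .quad c d => occF b c (.inl (0 : Fin 2)) (.inl (1 : Fin 2)) (.inr (0 : Fin 6))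
        (.inr (2 : Fin 6)) ⊔
      (occF b (!c) (.inl (0 : Fin 2)) (.inl (1 : Fin 2)) (.inr (1 : Fin 6)) (.inr (2 : Fin 6)) ⊔
      (occF b d (.inl (0 : Fin 2)) (.inl (1 : Fin 2)) (.inr (3 : Fin 6)) (.inr (5 : Fin 6)) ⊔
      occF b (!d) (.inl (0 : Fin 2)) (.inl (1 : Fin 2)) (.inr (4 : Fin 6)) (.inr (5 : Fin 6))))
  | _, _ => ⊥

lemma relF_qf (t t' : Tag) : (relF t t').IsQF := by
  cases t <;> cases t' <;>
    first
      | exact bot_qf
      | exact top_qf
      | exact eqF_qf _ _
      | exact (eqF_qf _ _).sup (eqF_qf _ _)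
      | exact (eqF_qf _ _).sup ((eqF_qf _ _).sup ((eqF_qf _ _).sup (eqF_qf _ _)))
      | exact (occF_qf _ _ _ _ _ _).sup (occF_qf _ _ _ _ _ _)
      | exact (occF_qf _ _ _ _ _ _).sup ((occF_qf _ _ _ _ _ _).sup
          ((occF_qf _ _ _ _ _ _).sup (occF_qf _ _ _ _ _ _)))

/-- the interpretation -/
def theInterp : Interp where
  ι := Tag
  fin := inferInstance
  ar := Tag.ar
  dom := domF
  rel := relF
  domQF := domF_qf
  relQF := relF_qf

section

variable {A : Type} [cnfLang.Structure A]

open Classical in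
/-- the clauses of the formula encoded by a finite structure -/
noncomputable def clauses (A : Type) [Finite A] [cnfLang.Structure A] : A → Finset (A × Bool) :=
  fun i => (Set.toFinite {l : A × Bool | Lit l.2 i l.1}).toFinset

lemma mem_clauses [Finite A] (i : A) (l : A × Bool) : l ∈ clauses A i ↔ Lit l.2 i l.1 := by
  simp [clauses]

lemma sat_iff [Finite A] : Sat (clauses A) ↔ Satisfiable A := by
  unfold Sat Satisfiable
  constructor
  · rintro ⟨τ, h⟩
    refine ⟨τ, fun i => ?_⟩
    obtain ⟨l, h1, h2⟩ := h i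
    rw [mem_clauses, ← h2] at h1
    exact ⟨l.1, h1⟩
  · rintro ⟨τ, h⟩
    refine ⟨τ, fun i => ?_⟩
    obtain ⟨v, hv⟩ := h i
    exact ⟨(v, τ v), (mem_clauses i (v, τ v)).2 hv, rfl⟩

/-- an occurrence -/
def mkOcc [Finite A] (i v : A) (b : Bool) (h : Lit b i v) : Occ (clauses A) :=
  ⟨(i, (v, b)), (mem_clauses i (v, b)).2 h⟩

/-- the element of the poset of the formula coded by a point of the interpreted structure -/
def toElt [Finite A] : theInterp.Carrier A → Elt (clauses A)
  | ⟨.a, x⟩ => .a (x.1 (0 : Fin 1))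
  | ⟨.s, _⟩ => .s
  | ⟨.u b, x⟩ => .u (mkOcc (x.1 (0 : Fin 2)) (x.1 (1 : Fin 2)) b ((realize_litF _ _ _ _).1 x.2))
  | ⟨.y, _⟩ => .y
  | ⟨.pair b, x⟩ => .f (.pair
      (mkOcc (x.1 (0 : Fin 3)) (x.1 (2 : Fin 3)) b
        ((realize_litF _ _ _ _).1 (Language.Formula.realize_inf.1 x.2).1))
      (mkOcc (x.1 (1 : Fin 3)) (x.1 (2 : Fin 3)) b
        ((realize_litF _ _ _ _).1
          (Language.Formula.realize_inf.1 (Language.Formula.realize_inf.1 x.2).2).1))
      ⟨fun e => (Language.Formula.realize_not.1
          (Language.Formula.realize_inf.1 (Language.Formula.realize_inf.1 x.2).2).2)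
          ((realize_eqF _ _ _).2 (congrArg (fun p : Occ (clauses A) => p.1.1) e)), rfl⟩)
  | ⟨.tri b, x⟩ => .f (.tri
      (mkOcc (x.1 (0 : Fin 3)) (x.1 (2 : Fin 3)) b
        ((realize_litF _ _ _ _).1 (Language.Formula.realize_inf.1 x.2).1))
      (mkOcc (x.1 (1 : Fin 3)) (x.1 (2 : Fin 3)) (!b)
        ((realize_litF _ _ _ _).1 (Language.Formula.realize_inf.1 x.2).2))
      ⟨rfl, by cases b <;> simp [mkOcc, Occ.lit]⟩)
  | ⟨.quad b c, x⟩ => .f (.quad
      (mkOcc (x.1 (0 : Fin 6)) (x.1 (2 : Fin 6)) b
        ((realize_litF _ _ _ _).1 (Language.Formula.realize_inf.1 x.2).1))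
      (mkOcc (x.1 (1 : Fin 6)) (x.1 (2 : Fin 6)) (!b)
        ((realize_litF _ _ _ _).1
          (Language.Formula.realize_inf.1 (Language.Formula.realize_inf.1 x.2).2).1))
      (mkOcc (x.1 (3 : Fin 6)) (x.1 (5 : Fin 6)) c
        ((realize_litF _ _ _ _).1
          (Language.Formula.realize_inf.1 (Language.Formula.realize_inf.1
            (Language.Formula.realize_inf.1 x.2).2).2).1))
      (mkOcc (x.1 (4 : Fin 6)) (x.1 (5 : Fin 6)) (!c)
        ((realize_litF _ _ _ _).1
          (Language.Formula.realize_inf.1 (Language.Formula.realize_inf.1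
            (Language.Formula.realize_inf.1 (Language.Formula.realize_inf.1 x.2).2).2).2).1))
      ⟨⟨rfl, by cases b <;> simp [mkOcc, Occ.lit]⟩, ⟨rfl, by cases c <;> simp [mkOcc, Occ.lit]⟩,
        fun e => (Language.Formula.realize_not.1
          (Language.Formula.realize_inf.1 (Language.Formula.realize_inf.1
            (Language.Formula.realize_inf.1 (Language.Formula.realize_inf.1 x.2).2).2).2).2)
          ((realize_eqF _ _ _).2 e)⟩)

lemma mkOcc_inj [Finite A] {i v i' v' : A} {b b' : Bool} {h : Lit b i v} {h' : Lit b' i' v'}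
    (e : mkOcc i v b h = mkOcc i' v' b' h') : i = i' ∧ v = v' ∧ b = b' := by
  have := congrArg Subtype.val e
  simp only [mkOcc, Prod.mk.injEq] at this
  exact this

lemma toElt_inj [Finite A] : Function.Injective (toElt (A := A)) := by
  rintro ⟨t, x⟩ ⟨t', y⟩ h
  cases t with
  | a =>
    cases t' with
    | a =>
      have h0 : x.1 (0 : Fin 1) = y.1 (0 : Fin 1) := by
        simp only [toElt, Elt.a.injEq] at h
        exact h
      have h1 : ∀ i : Fin 1, x.1 i = y.1 i := fun i => by
        rw [Subsingleton.elim i (0 : Fin 1)]; exact h0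
      have : x = y := Subtype.ext (funext h1)
      rw [this]
    | _ => simp [toElt] at h
  | s =>
    cases t' with
    | s =>
      have : x = y := Subtype.ext (funext fun i => (Fin.elim0 i))
      rw [this]
    | _ => simp [toElt] at h
  | y =>
    cases t' with
    | y =>
      have : x = y := Subtype.ext (funext fun i => (Fin.elim0 i))
      rw [this]
    | _ => simp [toElt] at h
  | u b =>
    cases t' with
    | u c =>
      simp only [toElt, Elt.u.injEq] at h
      obtain ⟨h1, h2, h3⟩ := mkOcc_inj h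
      subst h3
      have h7 : ∀ i : Fin 2, x.1 i = y.1 i := fun i => by
        rcases fin2 i with rfl | rfl
        · exact h1
        · exact h2
      have : x = y := Subtype.ext (funext h7)
      rw [this]
    | _ => simp [toElt] at h
  | pair b =>
    cases t' with
    | pair c =>
      simp only [toElt, Elt.f.injEq, Gad.pair.injEq] at h
      obtain ⟨h1, h2, h3⟩ := mkOcc_inj h.1
      obtain ⟨h4, h5, h6⟩ := mkOcc_inj h.2
      subst h3
      have h7 : ∀ i : Fin 3, x.1 i = y.1 i := fun i => by
        rcases fin3 i with rfl | rfl | rfl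
        · exact h1
        · exact h4
        · exact h2
      have : x = y := Subtype.ext (funext h7)
      rw [this]
    | _ => simp [toElt] at h
  | tri b =>
    cases t' with
    | tri c =>
      simp only [toElt, Elt.f.injEq] at h
      have hh := Gad.tri.inj h
      obtain ⟨h1, h2, h3⟩ := mkOcc_inj hh.1
      obtain ⟨h4, h5, h6⟩ := mkOcc_inj hh.2
      subst h3
      have h7 : ∀ i : Fin 3, x.1 i = y.1 i := fun i => by
        rcases fin3 i with rfl | rfl | rfl
        · exact h1
        · exact h4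
        · exact h2
      have : x = y := Subtype.ext (funext h7)
      rw [this]
    | _ => simp [toElt] at h
  | quad b d =>
    cases t' with
    | quad c e =>
      simp only [toElt, Elt.f.injEq, Gad.quad.injEq] at h
      obtain ⟨h1, h2, h3⟩ := mkOcc_inj h.1
      obtain ⟨h4, h5, h6⟩ := mkOcc_inj h.2.1
      obtain ⟨h7, h8, h9⟩ := mkOcc_inj h.2.2.1
      obtain ⟨h10, h11, h12⟩ := mkOcc_inj h.2.2.2
      subst h3
      subst h9
      have hh : ∀ i : Fin 6, x.1 i = y.1 i := fun i => by
        rcases fin6 i with rfl | rfl | rfl | rfl | rfl | rfl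
        · exact h1
        · exact h4
        · exact h2
        · exact h7
        · exact h10
        · exact h8
      have : x = y := Subtype.ext (funext hh)
      rw [this]
    | _ => simp [toElt] at h

lemma occ_cases [Finite A] (p : Occ (clauses A)) : ∃ i v b, ∃ h : Lit b i v, p = mkOcc i v b h := by
  obtain ⟨⟨i, v, b⟩, h⟩ := p
  exact ⟨i, v, b, (mem_clauses i (v, b)).1 h, rfl⟩

lemma toElt_surj [Finite A] : Function.Surjective (toElt (A := A)) := by
  intro z
  cases z with
  | a i => exact ⟨⟨.a, ⟨fun _ => i, realize_topF _⟩⟩, rfl⟩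
  | s => exact ⟨⟨.s, ⟨fun j => Fin.elim0 j, realize_topF _⟩⟩, rfl⟩
  | y => exact ⟨⟨.y, ⟨fun j => Fin.elim0 j, realize_topF _⟩⟩, rfl⟩
  | u p =>
    obtain ⟨i, v, b, h, rfl⟩ := occ_cases p
    exact ⟨⟨.u b, ⟨![i, v], (realize_litF _ _ _ _).2 h⟩⟩, rfl⟩
  | f g =>
    cases g with
    | pair p q hpq =>
      obtain ⟨i, v, b, h, rfl⟩ := occ_cases p
      obtain ⟨i', v', b', h', rfl⟩ := occ_cases q
      obtain ⟨h1, h2⟩ := hpq
      obtain ⟨rfl, rfl⟩ : v = v' ∧ b = b' := by
        simpa [mkOcc, Occ.lit] using h2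
      have hii : i ≠ i' := by
        rintro rfl
        exact h1 rfl
      refine ⟨⟨.pair b, ⟨![i, i', v], ?_⟩⟩, rfl⟩
      refine Language.Formula.realize_inf.2 ⟨(realize_litF _ _ _ _).2 h,
        Language.Formula.realize_inf.2 ⟨(realize_litF _ _ _ _).2 h',
          Language.Formula.realize_not.2 (fun e => hii ((realize_eqF _ _ _).1 e))⟩⟩
    | tri p q hpq =>
      obtain ⟨i, v, b, h, rfl⟩ := occ_cases p
      obtain ⟨i', v', b', h', rfl⟩ := occ_cases q
      obtain ⟨rfl, h2⟩ : v = v' ∧ b ≠ b' := hpq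
      obtain rfl : b' = !b := by
        revert h2; cases b <;> cases b' <;> simp
      refine ⟨⟨.tri b, ⟨![i, i', v], ?_⟩⟩, rfl⟩
      exact Language.Formula.realize_inf.2 ⟨(realize_litF _ _ _ _).2 h,
        (realize_litF _ _ _ _).2 h'⟩
    | quad p q r t hpq =>
      obtain ⟨i, v, b, h, rfl⟩ := occ_cases p
      obtain ⟨i', v', b', h', rfl⟩ := occ_cases q
      obtain ⟨j, w, c, k, rfl⟩ := occ_cases r
      obtain ⟨j', w', c', k', rfl⟩ := occ_cases t
      obtain ⟨⟨rfl, h2⟩, ⟨rfl, h3⟩, h4⟩ : (v = v' ∧ b ≠ b') ∧ (w = w' ∧ c ≠ c') ∧ v ≠ w := hpq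
      obtain rfl : b' = !b := by
        revert h2; cases b <;> cases b' <;> simp
      obtain rfl : c' = !c := by
        revert h3; cases c <;> cases c' <;> simp
      refine ⟨⟨.quad b c, ⟨![i, i', v, j, j', w], ?_⟩⟩, rfl⟩
      exact Language.Formula.realize_inf.2 ⟨(realize_litF _ _ _ _).2 h,
        Language.Formula.realize_inf.2 ⟨(realize_litF _ _ _ _).2 h',
        Language.Formula.realize_inf.2 ⟨(realize_litF _ _ _ _).2 k,
        Language.Formula.realize_inf.2 ⟨(realize_litF _ _ _ _).2 k',
          Language.Formula.realize_not.2 (fun e => h4 ((realize_eqF _ _ _).1 e))⟩⟩⟩⟩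

lemma mkOcc_eq [Finite A] {i v i' v' : A} {b b' : Bool} {h : Lit b i v} {h' : Lit b' i' v'} :
    mkOcc i v b h = mkOcc i' v' b' h' ↔ b = b' ∧ i = i' ∧ v = v' := by
  constructor
  · intro e
    obtain ⟨h1, h2, h3⟩ := mkOcc_inj e
    exact ⟨h3, h1, h2⟩
  · rintro ⟨rfl, rfl, rfl⟩
    rfl

lemma rel_iff [Finite A] (x y : theInterp.Carrier A) :
    theInterp.Rel x y ↔ toElt x < toElt y := by
  obtain ⟨t, x⟩ := x
  obtain ⟨t', y⟩ := y
  rw [lt_def]
  cases t with
  | a =>
    cases t' with
    | a => exact Iff.rfl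
    | s => exact Iff.rfl
    | u b =>
      refine (realize_eqF _ _ _).trans ?_
      exact eq_comm
    | y => exact iff_of_true (realize_topF _) trivial
    | pair b =>
      refine (Language.Formula.realize_sup.trans (or_congr (realize_eqF _ _ _)
        (realize_eqF _ _ _))).trans ?_
      simp only [toElt, Elt.lt, Gad.low, Option.some.injEq]
      constructor
      · rintro (h | h)
        · exact ⟨_, Or.inl rfl, h.symm⟩
        · exact ⟨_, Or.inr rfl, h.symm⟩
      · rintro ⟨p, rfl | rfl, h⟩
        · exact Or.inl h.symm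
        · exact Or.inr h.symm
    | tri b =>
      refine (Language.Formula.realize_sup.trans (or_congr (realize_eqF _ _ _)
        (realize_eqF _ _ _))).trans ?_
      simp only [toElt, Elt.lt, Gad.low, Option.some.injEq]
      constructor
      · rintro (h | h)
        · exact ⟨_, Or.inr (Or.inl rfl), h.symm⟩
        · exact ⟨_, Or.inr (Or.inr rfl), h.symm⟩
      · rintro ⟨p, h' | rfl | rfl, h⟩
        · simp at h'
        · exact Or.inl h.symm
        · exact Or.inr h.symm
    | quad b c =>
      refine (Language.Formula.realize_sup.trans (or_congr (realize_eqF _ _ _)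
        (Language.Formula.realize_sup.trans (or_congr (realize_eqF _ _ _)
        (Language.Formula.realize_sup.trans (or_congr (realize_eqF _ _ _)
        (realize_eqF _ _ _))))))).trans ?_
      simp only [toElt, Elt.lt, Gad.low, Option.some.injEq]
      constructor
      · rintro (h | h | h | h)
        · exact ⟨_, Or.inl rfl, h.symm⟩
        · exact ⟨_, Or.inr (Or.inl rfl), h.symm⟩
        · exact ⟨_, Or.inr (Or.inr (Or.inl rfl)), h.symm⟩
        · exact ⟨_, Or.inr (Or.inr (Or.inr rfl)), h.symm⟩
      · rintro ⟨p, rfl | rfl | rfl | rfl, h⟩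
        · exact Or.inl h.symm
        · exact Or.inr (Or.inl h.symm)
        · exact Or.inr (Or.inr (Or.inl h.symm))
        · exact Or.inr (Or.inr (Or.inr h.symm))
  | s =>
    cases t' with
    | a => exact Iff.rfl
    | s => exact Iff.rfl
    | u b => exact Iff.rfl
    | y => exact iff_of_true (realize_topF _) trivial
    | pair b =>
      refine iff_of_false (fun h => h) ?_
      simp [toElt, Elt.lt, Gad.low]
    | tri b => exact iff_of_true (realize_topF _) (Or.inl rfl)
    | quad b c =>
      refine iff_of_false (fun h => h) ?_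
      simp [toElt, Elt.lt, Gad.low]
  | u b =>
    cases t' with
    | a => exact Iff.rfl
    | s => exact Iff.rfl
    | u b => exact Iff.rfl
    | y => exact Iff.rfl
    | pair c =>
      refine (Language.Formula.realize_sup.trans (or_congr (realize_occF _ _ _ _ _ _ _)
        (realize_occF _ _ _ _ _ _ _))).trans ?_
      simp only [toElt, Elt.lt, Gad.low, Option.some.injEq, mkOcc_eq]
      exact Iff.rfl
    | tri c =>
      refine (Language.Formula.realize_sup.trans (or_congr (realize_occF _ _ _ _ _ _ _)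
        (realize_occF _ _ _ _ _ _ _))).trans ?_
      simp only [toElt, Elt.lt, Gad.low, Option.some.injEq, mkOcc_eq, reduceCtorEq, false_or]
      exact Iff.rfl
    | quad c d =>
      refine (Language.Formula.realize_sup.trans (or_congr (realize_occF _ _ _ _ _ _ _)
        (Language.Formula.realize_sup.trans (or_congr (realize_occF _ _ _ _ _ _ _)
        (Language.Formula.realize_sup.trans (or_congr (realize_occF _ _ _ _ _ _ _)
        (realize_occF _ _ _ _ _ _ _))))))).trans ?_
      simp only [toElt, Elt.lt, Gad.low, Option.some.injEq, mkOcc_eq]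
      exact Iff.rfl
  | y => cases t' <;> exact Iff.rfl
  | pair b => cases t' <;> exact Iff.rfl
  | tri b => cases t' <;> exact Iff.rfl
  | quad b c => cases t' <;> exact Iff.rfl

/-- the interpreted partial order -/
@[instance_reducible] noncomputable def carrierOrder (A : Type) [Finite A] [cnfLang.Structure A] :
    PartialOrder (theInterp.Carrier A) := PartialOrder.lift toElt toElt_inj

end

instance (J : Interp) (A : Type) [Finite A] [cnfLang.Structure A] : Finite (J.Carrier A) := by
  have := J.fin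
  unfold Interp.Carrier
  infer_instance

noncomputable instance (J : Interp) (A : Type) [Finite A] [cnfLang.Structure A] :
    Fintype (J.Carrier A) := Fintype.ofFinite _

noncomputable instance (J : Interp) (A : Type) [cnfLang.Structure A] :
    DecidableEq (J.Carrier A) := Classical.decEq _

/-- **The reduction.** -/
theorem theInterp_spec (A : Type) [Finite A] [Nonempty A] [cnfLang.Structure A]
    (hne : ∀ i : A, ∃ b v, Lit b i v) :
    ∃ _ : PartialOrder (theInterp.Carrier A), (∀ x y : theInterp.Carrier A,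
        x < y ↔ theInterp.Rel x y) ∧
      (∀ w x y z : theInterp.Carrier A, ¬ (w < x ∧ x < y ∧ y < z)) ∧
      (IsGreedy (theInterp.Carrier A) ↔ ¬ Satisfiable A) := by
  classical
  let P := carrierOrder A
  have hlt : ∀ x y : theInterp.Carrier A, x < y ↔ toElt x < toElt y := fun x y => Iff.rfl
  refine ⟨P, fun x y => ((hlt x y).trans (rel_iff x y).symm), ?_, ?_⟩
  · intro w x y z h
    rw [hlt, hlt, hlt] at h
    exact height_three _ _ _ _ h
  · let e : theInterp.Carrier A ↪o Elt (clauses A) :=
      { toFun := toElt, inj' := toElt_inj, map_rel_iff' := Iff.rfl }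
    have hu : (univ : Finset (theInterp.Carrier A)).map e.toEmbedding = univ := by
      ext z
      simp only [Finset.mem_map, Finset.mem_univ, true_and, iff_true]
      exact toElt_surj z
    rw [isGreedy_iff, ← allEq_map e, hu, ← sat_iff]
    apply allEq_iff_unsat
    intro i
    obtain ⟨b, v, h⟩ := hne i
    exact ⟨(v, b), (mem_clauses i (v, b)).2 h⟩

end GreedyJump
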