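import Pool.Agent.GreedyJump.Filters

/-!
The local condition in terms of covers.
-/

open Finset

namespace GreedyJump

set_option linter.unusedSectionVars false

variable {α : Type*} [PartialOrder α] [DecidableEq α]

/-- `t` is the largest element of `C`. -/
def IsTop (C : Finset α) (t : α) : Prop := t ∈ C ∧ ∀ x ∈ C, x ≤ t

/-- Some element of `X` has exactly two lower covers in `X`: `t` and an element of `S`. -/
def Joined (X S : Finset α) (t : α) : Prop :=
  ∃ y ∈ X, ∃ c ∈ S, ∀ x ∈ X, x ⋖ y ↔ x = c ∨ x = t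

lemma exists_isTop {X C : Finset α} (hC : DownChain X C) (hne : C.Nonempty) :
    ∃ t, IsTop C t := by
  obtain ⟨t, h1, h2⟩ := exists_max_chain hC (Finset.Subset.refl _) hne
  exact ⟨t, h1, h2⟩

lemma ext_iff_joined [Fintype α] {X C C' : Finset α} (hX : IsUpperSet (X : Set α))
    (hC : GreedyChain X C) (hC' : GreedyChain X C') (hne : C ≠ C') {t' : α}
    (ht' : IsTop C' t') : Ext X C C' ↔ Joined X (C \ C') t' := by
  classical
  have ht'C : t' ∉ C := by
    intro h
    obtain ⟨v, hv⟩ := diff_nonempty hC hC' hne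
    rw [Finset.mem_sdiff] at hv
    exact hv.2 (hC.dc.down t' h v (hC'.dc.sub hv.1) (ht'.2 v hv.1))
  have ht'X : t' ∈ X := hC'.dc.sub ht'.1
  constructor
  · rintro ⟨y, h1, h2, h3, h4⟩
    rw [Finset.mem_sdiff] at h1 h2
    have hyC' : y ∉ C' := fun h => h2 ⟨h, h1.2⟩
    have hD : ∀ w ∈ X, w < y → w ∈ C ∨ w ∈ C' := by
      intro w hw hwy
      by_cases hwC : w ∈ C
      · exact Or.inl hwC
      · exact Or.inr (Finset.mem_sdiff.1 (h3 w (Finset.mem_sdiff.2 ⟨hw, hwC⟩) hwy)).1
    have ht'y : t' < y := h4 t' (Finset.mem_sdiff.2 ⟨ht'.1, ht'C⟩)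
    have hS : ((C \ C').filter (· < y)).Nonempty := by
      by_contra hS
      refine hC'.not_prolongs y ⟨h1.1, hyC', ?_, fun w hw => (ht'.2 w hw).trans_lt ht'y⟩
      intro w hw hwy
      by_contra hwC'
      have hwC := (hD w hw hwy).resolve_right hwC'
      exact hS ⟨w, Finset.mem_filter.2 ⟨Finset.mem_sdiff.2 ⟨hwC, hwC'⟩, hwy⟩⟩
    obtain ⟨c, hc, hcmax⟩ := exists_max_chain hC.dc
      ((Finset.filter_subset _ _).trans Finset.sdiff_subset) hS
    rw [Finset.mem_filter, Finset.mem_sdiff] at hc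
    refine ⟨y, h1.1, c, Finset.mem_sdiff.2 hc.1, fun x hx => ⟨fun hxy => ?_, ?_⟩⟩
    · rcases hD x hx hxy.lt with h5 | h5
      · by_cases h6 : x ∈ C'
        · right
          rcases (ht'.2 x h6).eq_or_lt with h7 | h7
          · exact h7
          · exact absurd ht'y (hxy.2 h7)
        · left
          have := hcmax x (Finset.mem_filter.2 ⟨Finset.mem_sdiff.2 ⟨h5, h6⟩, hxy.lt⟩)
          rcases this.eq_or_lt with h7 | h7
          · exact h7
          · exact absurd hc.2 (hxy.2 h7)
      · right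
        rcases (ht'.2 x h5).eq_or_lt with h7 | h7
        · exact h7
        · exact absurd ht'y (hxy.2 h7)
    · rintro (rfl | rfl)
      · refine ⟨hc.2, fun w hw1 hw2 => ?_⟩
        have hwX : w ∈ X := hX hw1.le hx
        rcases hD w hwX hw2 with h5 | h5
        · by_cases h6 : w ∈ C'
          · exact hc.1.2 (hC'.dc.down' h6 hx hw1)
          · have := hcmax w (Finset.mem_filter.2 ⟨Finset.mem_sdiff.2 ⟨h5, h6⟩, hw2⟩)
            exact absurd (hw1.trans_le this) (lt_irrefl _)
        · exact hc.1.2 (hC'.dc.down' h5 hx hw1)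
      · refine ⟨ht'y, fun w hw1 hw2 => ?_⟩
        have hwX : w ∈ X := hX hw1.le hx
        rcases hD w hwX hw2 with h5 | h5
        · exact ht'C (hC.dc.down' h5 hx hw1)
        · exact absurd (hw1.trans_le (ht'.2 w h5)) (lt_irrefl _)
  · rintro ⟨y, hy, c, hc, hcov⟩
    rw [Finset.mem_sdiff] at hc
    have hcX : c ∈ X := hC.dc.sub hc.1
    have hcy : c ⋖ y := (hcov c hcX).2 (Or.inl rfl)
    have ht'y : t' ⋖ y := (hcov t' ht'X).2 (Or.inr rfl)
    have hyC : y ∉ C := fun h => ht'C (hC.dc.down' h ht'X ht'y.lt)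
    have hlow : ∀ w ∈ X, w < y → w ≤ c ∨ w ≤ t' := by
      intro w hw hwy
      -- a lower cover of `y` above `w`
      set S : Finset α := univ.filter (fun z => w ≤ z ∧ z < y) with hS
      obtain ⟨z, hz⟩ := S.exists_maximal ⟨w, by simp [hS, hwy]⟩
      have hz1 : w ≤ z ∧ z < y := by simpa [hS] using hz.1
      have hzy : z ⋖ y := by
        refine ⟨hz1.2, fun v hv1 hv2 => ?_⟩
        have hv : v ∈ S := by simp [hS, hz1.1.trans hv1.le, hv2]
        exact absurd (hv1.trans_le (hz.2 hv hv1.le)) (lt_irrefl _)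
      rcases (hcov z (hX hz1.1 hw)).1 hzy with rfl | rfl
      · exact Or.inl hz1.1
      · exact Or.inr hz1.1
    refine ⟨y, Finset.mem_sdiff.2 ⟨hy, hyC⟩, ?_, ?_, ?_⟩
    · intro h
      exact absurd (ht'y.lt.trans_le (ht'.2 y (Finset.mem_sdiff.1 h).1)) (lt_irrefl _)
    · intro w hw hwy
      rw [Finset.mem_sdiff] at hw ⊢
      refine ⟨?_, hw.2⟩
      rcases hlow w hw.1 hwy with h5 | h5
      · exact absurd (hC.dc.down c hc.1 w hw.1 h5) hw.2
      · exact hC'.dc.down t' ht'.1 w hw.1 h5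
    · intro w hw
      exact (ht'.2 w (Finset.mem_sdiff.1 hw).1).trans_lt ht'y.lt

/-- `X` is what is left of the poset after some steps of the procedure. -/
def State [Fintype α] (X : Finset α) : Prop := ReachFrom univ X

/-- **Local characterisation.** -/
theorem isGreedy_iff_joined [Fintype α] : IsGreedy α ↔
    ∀ X : Finset α, State X → ∀ C C' : Finset α, GreedyChain X C → GreedyChain X C' → C ≠ C' →
      ∀ t t' : α, IsTop C t → IsTop C' t' → Joined X (C \ C') t' → Joined X (C' \ C) t := by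
  rw [isGreedy_iff, allEq_iff_loc]
  constructor
  · intro h X hX C C' hC hC' hne t t' ht ht' hj
    have hup : IsUpperSet (X : Set α) := ReachFrom.upper isUpperSet_univ' hX
    rw [← ext_iff_joined hup hC' hC (Ne.symm hne) ht]
    exact h X hX C C' hC hC' hne ((ext_iff_joined hup hC hC' hne ht').2 hj)
  · intro h X hX C C' hC hC' hne hE
    have hup : IsUpperSet (X : Set α) := ReachFrom.upper isUpperSet_univ' hX
    obtain ⟨t', ht'⟩ := exists_isTop hC'.dc
      ((diff_nonempty hC hC' hne).mono Finset.sdiff_subset)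
    obtain ⟨t, ht⟩ := exists_isTop hC.dc
      ((diff_nonempty hC' hC (Ne.symm hne)).mono Finset.sdiff_subset)
    rw [ext_iff_joined hup hC' hC (Ne.symm hne) ht]
    exact h X hX C C' hC hC' hne t t' ht ht' ((ext_iff_joined hup hC hC' hne ht').1 hE)

end GreedyJump
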