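import Pool.Agent.Work.MP_02c6ed_co.HeightOneAux

set_option autoImplicit false

namespace GreedyJump.MatroidForm

open Pool.Agent.Work.MP_02c6ed_co

open Set

variable {P : Type*} [PartialOrder P]

/-- independence: sets of minimal elements containing no nonempty down-neighbourhood -/
def Ind (I : Set P) : Prop :=
  I ⊆ {x | IsMin x} ∧ ∀ y, (Iio y).Nonempty → ¬ Iio y ⊆ I

lemma lower_of_min {A : Set P} (hA : A ⊆ {x | IsMin x}) : IsLowerSet A := by
  intro a b hba ha
  have := (hA ha).eq_of_le hba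
  rwa [this]

lemma min_not_lt {A : Set P} (hA : A ⊆ {x | IsMin x}) : ∀ a ∈ A, ∀ b : P, ¬ b < a :=
  fun _ ha _ hb => (hA ha).not_lt hb

section
variable (h1 : ∀ x y z : P, x < y → ¬ y < z)
include h1

/-- adding `x` to an independent set without closing anything -/
lemma not_closing_of_ind {I : Set P} {x : P} (hI : Ind (insert x I)) (S : Set P)
    (hS : S ⊆ I) : ¬ Closing ((univ : Set P) \ S) x := by
  rintro ⟨y, hxy, hy⟩
  apply hI.2 y ⟨x, hxy.lt⟩
  intro w hw
  by_cases hwS : w ∈ S
  · exact Or.inr (hS hwS)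
  · exact Or.inl (hy w (covBy_of_lt_one h1 hw) ⟨mem_univ _, hwS⟩)

lemma closing_of_not_ind {I : Set P} {x : P} (hI : Ind I) (hx : IsMin x)
    (hn : ¬ Ind (insert x I)) : Closing ((univ : Set P) \ I) x := by
  have hsub : insert x I ⊆ {x | IsMin x} := by
    rintro z (h | h)
    · rw [h]; exact hx
    · exact hI.1 h
  have : ∃ y, (Iio y).Nonempty ∧ Iio y ⊆ insert x I := by
    by_contra hcon
    push Not at hcon
    exact hn ⟨hsub, hcon⟩
  obtain ⟨y, hne, hy⟩ := this
  have hxy : x < y := by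
    by_contra hxy
    apply hI.2 y hne
    intro w hw
    rcases hy hw with h | h
    · exact absurd (h ▸ hw) hxy
    · exact h
  refine ⟨y, covBy_of_lt_one h1 hxy, fun w hw hwI => ?_⟩
  rcases hy hw.lt with h | h
  · exact h
  · exact absurd h hwI.2

lemma bcount_ind [Finite P] {I : Set P} (hI : Ind I) {K : List P} (hK : IsLinExt I K) :
    bcount univ K = 0 := by
  apply bcount_eq_zero
  intro x hx
  rw [hK.setOf_mem]
  have hxI := (hK.2.1 x).1 hx
  exact not_closing_of_ind h1 (I := I) (by rwa [insert_eq_of_mem hxI]) I Subset.rfl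

lemma ind_aug [Finite P] (hb : BConst (univ : Set P)) {I J : Set P} (hI : Ind I) (hJ : Ind J)
    (hlt : I.ncard < J.ncard) : ∃ e ∈ J, e ∉ I ∧ Ind (insert e I) := by
  by_contra hcon
  push Not at hcon
  obtain ⟨KI, hKI⟩ := exists_linExt I
  obtain ⟨KJ, hKJ⟩ := exists_linExt J
  obtain ⟨KJI, hKJI⟩ := exists_linExt (J \ I)
  obtain ⟨KIJ, hKIJ⟩ := exists_linExt (I \ J)
  have e1 := hKI.append hKJI disjoint_sdiff_right
    (fun a ha b _ => min_not_lt hI.1 a ha b)
  have e2 := hKJ.append hKIJ disjoint_sdiff_right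
    (fun a ha b _ => min_not_lt hJ.1 a ha b)
  have hu1 : I ∪ J \ I = I ∪ J := union_sdiff_self
  have hu2 : J ∪ I \ J = I ∪ J := by rw [union_sdiff_self, union_comm]
  rw [hu1] at e1
  rw [hu2] at e2
  have hlow : IsLowerSet (I ∪ J) := lower_of_min (union_subset hI.1 hJ.1)
  have h := bcount_prefix_eq hb hlow e1 e2
  rw [bcount_append, bcount_append, bcount_ind h1 hI hKI, bcount_ind h1 hJ hKJ,
    hKI.setOf_mem, hKJ.setOf_mem] at h
  have h2 : bcount ((univ : Set P) \ I) KJI = KJI.length := by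
    apply bcount_eq_length
    intro x hx
    have hxJ := (hKJI.2.1 x).1 hx
    exact closing_of_not_ind h1 hI (hJ.1 hxJ.1) (hcon x hxJ.1 hxJ.2)
  have h3 := bcount_le_length KIJ ((univ : Set P) \ J)
  rw [hKJI.length_eq] at h2
  rw [hKIJ.length_eq] at h3
  have c1 := Set.ncard_inter_add_ncard_sdiff_eq_ncard I J (Set.toFinite I)
  have c2 := Set.ncard_inter_add_ncard_sdiff_eq_ncard J I (Set.toFinite J)
  rw [inter_comm] at c2
  omega

/-- the matroid of a greedy poset of height one -/
noncomputable def circMat [Finite P] (hb : BConst (univ : Set P)) : Matroid P :=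
  (IndepMatroid.ofFinite (E := {x : P | IsMin x}) (Set.toFinite _) Ind
    ⟨by simp, fun y hy h => by
      obtain ⟨x, hx⟩ := hy
      exact absurd (h hx) (by simp)⟩
    (fun I J hJ hIJ => ⟨hIJ.trans hJ.1, fun y hy h => hJ.2 y hy (h.trans hIJ)⟩)
    (fun I J hI hJ hlt => ind_aug h1 hb hI hJ hlt)
    (fun I hI => hI.1)).matroid

lemma circMat_E [Finite P] (hb : BConst (univ : Set P)) : (circMat h1 hb).E = {x | IsMin x} := rfl

lemma mat_indep [Finite P] (hb : BConst (univ : Set P)) (I : Set P) :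
    (circMat h1 hb).Indep I ↔ Ind I := by
  unfold circMat
  rw [IndepMatroid.matroid_indep_iff, IndepMatroid.ofFinite_indep]

lemma Iio_sub_min {y : P} : Iio y ⊆ {x | IsMin x} := by
  intro x hx z hz
  by_contra hne
  exact h1 z x y (lt_of_le_not_ge hz hne) hx

lemma circMat_circuit [Finite P] (hb : BConst (univ : Set P)) {C : Set P}
    (hC : (circMat h1 hb).IsCircuit C) : ∃ y, C = Iio y := by
  have hdep := hC.dep
  have hni : ¬ Ind C := by
    rw [← mat_indep h1 hb]
    exact hdep.not_indep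
  have hCE : C ⊆ {x | IsMin x} := hdep.subset_ground
  have : ∃ y, (Iio y).Nonempty ∧ Iio y ⊆ C := by
    by_contra hcon
    push Not at hcon
    exact hni ⟨hCE, hcon⟩
  obtain ⟨y, hne, hy⟩ := this
  refine ⟨y, ?_⟩
  symm
  apply hC.eq_of_not_indep_subset _ hy
  rw [mat_indep h1 hb]
  exact fun h => h.2 y hne Subset.rfl

lemma mat_union [Finite P] (hb : BConst (univ : Set P)) {x y : P} (hxy : x < y) :
    ∃ C, (circMat h1 hb).IsCircuit C ∧ x ∈ C ∧ C ⊆ Iio y := by
  set M := circMat h1 hb with hM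
  set A : Set P := Iio y \ {x} with hA
  have hxA : x ∉ A := fun h => h.2 rfl
  have hins : insert x A = Iio y := by
    rw [hA, insert_sdiff_singleton, insert_eq_of_mem (show x ∈ Iio y from hxy)]
  by_cases hcl : x ∈ M.closure A
  · obtain ⟨C, h2, h3, h4⟩ := Matroid.exists_isCircuit_of_mem_closure hcl hxA
    rw [hins] at h2
    exact ⟨C, h3, h4, h2⟩
  · exfalso
    have hIioE : Iio y ⊆ {x | IsMin x} := Iio_sub_min h1
    have hAE : A ⊆ M.E := sdiff_subset.trans hIioE
    obtain ⟨I, hI⟩ := M.exists_isBasis A hAE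
    have hxI : x ∉ I := fun h => hxA (hI.subset h)
    have hxE : x ∈ M.E := hIioE hxy
    have hIx : M.Indep (insert x I) := by
      rw [hI.indep.insert_indep_iff_of_notMem hxI, hI.closure_eq_closure]
      exact ⟨hxE, hcl⟩
    have hII : Ind I := (mat_indep h1 hb I).1 hI.indep
    have hIIx : Ind (insert x I) := (mat_indep h1 hb _).1 hIx
    obtain ⟨KI, hKI⟩ := exists_linExt I
    obtain ⟨KA, hKA⟩ := exists_linExt (A \ I)
    have hKx : IsLinExt {x} [x] := by
      refine ⟨by simp, by simp, by simp⟩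
    -- first order
    have hIA : I ∪ A \ I = A := union_sdiff_cancel hI.subset
    have e1 := (hKI.append hKA disjoint_sdiff_right
      (fun a ha b _ => min_not_lt hII.1 a ha b))
    rw [hIA] at e1
    have hAm : A ⊆ {x | IsMin x} := hAE
    have e1' := e1.append hKx (by simpa using hxA) (fun a ha b _ => min_not_lt hAm a ha b)
    -- second order
    have e2 := hKI.append hKx (by simpa using hxI) (fun a ha b _ => min_not_lt hII.1 a ha b)
    have hd : Disjoint (I ∪ {x}) (A \ I) := by
      rw [disjoint_union_left]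
      refine ⟨disjoint_sdiff_right, ?_⟩
      rw [disjoint_singleton_left]
      exact fun h => hxA h.1
    have hIxm : I ∪ {x} ⊆ {x | IsMin x} :=
      union_subset hII.1 (by rw [singleton_subset_iff]; exact hxE)
    have e2' := e2.append hKA hd (fun a ha b _ => min_not_lt hIxm a ha b)
    have hset : I ∪ {x} ∪ A \ I = A ∪ {x} := by
      rw [union_right_comm, hIA]
    rw [hset] at e2'
    have hlow : IsLowerSet (A ∪ {x}) :=
      lower_of_min (union_subset hAm (by rw [singleton_subset_iff]; exact hxE))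
    have h := bcount_prefix_eq hb hlow e1' e2'
    have hAcount : bcount ((univ : Set P) \ I) KA = KA.length := by
      apply bcount_eq_length
      intro a ha
      have haA := (hKA.2.1 a).1 ha
      refine closing_of_not_ind h1 hII (hAm haA.1) ?_
      rw [← mat_indep h1 hb]
      exact (hI.insert_dep haA).not_indep
    have hx1 : bcount ((univ : Set P) \ A) [x] = 1 := by
      have hc : Closing ((univ : Set P) \ A) x := by
        refine ⟨y, covBy_of_lt_one h1 hxy, fun w hw hwA => ?_⟩
        by_contra hne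
        exact hwA.2 ⟨hw.lt, hne⟩
      simp [bcount, hc]
    have hx2 : bcount ((univ : Set P) \ I) [x] = 0 := by
      have hc : ¬ Closing ((univ : Set P) \ I) x := not_closing_of_ind h1 hIIx I Subset.rfl
      simp [bcount, hc]
    have h5 := bcount_le_length KA ((univ : Set P) \ (I ∪ {x}))
    rw [bcount_append, bcount_append, bcount_append, bcount_append, bcount_ind h1 hII hKI,
      hKI.setOf_mem, e1.setOf_mem, e2.setOf_mem, hAcount, hx1, hx2] at h
    omega

end

lemma exch_of_matroid (h1 : ∀ x y z : P, x < y → ¬ y < z) (M : Matroid P)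
    (hC : ∀ C, M.IsCircuit C → ∃ y, C = Iio y)
    (hU : ∀ x y, x < y → ∃ C, M.IsCircuit C ∧ x ∈ C ∧ C ⊆ Iio y) : Exch P := by
  rintro Q hQ x hx x' hx' hne hm hm' ⟨y', hxy', hy'⟩ ⟨y, hxy, hxy2, hy⟩
  set A : Set P := Qᶜ with hA
  have hxA : x ∉ A := fun h => h hx
  have hx'A : x' ∉ A := fun h => h hx'
  have hcl' : x' ∈ M.closure A := by
    rw [Matroid.mem_closure_iff_exists_isCircuit hx'A]
    obtain ⟨C, c1, c2, c3⟩ := hU x' y' hxy'.lt
    refine ⟨C, fun w hw => ?_, c1, c2⟩
    by_cases hwQ : w ∈ Q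
    · exact Or.inl (hy' w (covBy_of_lt_one h1 (c3 hw)) hwQ)
    · exact Or.inr hwQ
  have hcl : x ∈ M.closure (insert x' A) := by
    rw [Matroid.mem_closure_iff_exists_isCircuit (by
      rintro (h | h)
      · exact hne h
      · exact hxA h)]
    obtain ⟨C, c1, c2, c3⟩ := hU x y hxy.lt
    refine ⟨C, fun w hw => ?_, c1, c2⟩
    by_cases hwQ : w ∈ Q
    · rcases hy w (covBy_of_lt_one h1 (c3 hw)) hwQ with h | h
      · exact Or.inl h
      · exact Or.inr (Or.inl h)
    · exact Or.inr (Or.inr hwQ)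
  have hcl2 : x ∈ M.closure A := by
    rwa [Matroid.closure_insert_eq_of_mem_closure hcl'] at hcl
  obtain ⟨C, c1, c2, c3⟩ := Matroid.exists_isCircuit_of_mem_closure hcl2 hxA
  obtain ⟨u, rfl⟩ := hC C c2
  refine ⟨u, covBy_of_lt_one h1 c3, fun w hw hwQ => ?_⟩
  rcases c1 hw.lt with h | h
  · exact h
  · exact absurd hwQ h

theorem heightOne_iff [Finite P] (h1 : ∀ x y z : P, x < y → ¬ y < z) :
    IsGreedy (univ : Set P) ↔ ∃ M : Matroid P, M.E = {x | IsMin x} ∧
      (∀ C, M.IsCircuit C → ∃ y, C = Iio y) ∧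
      (∀ x y, x < y → ∃ C, M.IsCircuit C ∧ x ∈ C ∧ C ⊆ Iio y) := by
  constructor
  · intro hg
    have hb := bconst_univ_of_greedy h1 hg
    exact ⟨circMat h1 hb, circMat_E h1 hb, fun C hC => circMat_circuit h1 hb hC,
      fun x y hxy => mat_union h1 hb hxy⟩
  · rintro ⟨M, -, hC, hU⟩
    exact isGreedy_of_bconst isUpperSet_univ
      (bconst_of_exch (exch_of_matroid h1 M hC hU) isUpperSet_univ)

end GreedyJump.MatroidForm
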