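import Pool.Agent.GreedyJump.TowerDefs
import Pool.Agent.Work.MP_02c6ed_co.Local

/-!
The interchange characterisation in terms of the poset alone.
-/

set_option autoImplicit false

namespace GreedyJump

open Set Pool.Agent.Work.MP_02c6ed_co

variable {P : Type*} [PartialOrder P]

lemma closedOver_iff [Finite P] {A C : Set P} (hA : IsLowerSet A) :
    ClosedOver A C ↔ C.Nonempty ∧ IsGreedyChain Aᶜ C := by
  constructor
  · rintro ⟨h1, h2, h3, h4, h5⟩
    refine ⟨h1, ⟨?_, h2, ?_⟩, ?_⟩
    · intro x hx hxA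
      exact Set.disjoint_left.1 h3 hxA hx
    · intro x hx z hz hzx
      rcases hzx.eq_or_lt with rfl | h
      · exact hx
      · exact (h4 x hx z h).resolve_left hz
    · rintro C' ⟨g1, g2, g3⟩ hCC'
      by_contra hc
      have hne : {w | w ∈ C' ∧ w ∉ C}.Nonempty := by
        rw [Set.not_subset] at hc
        exact hc
      obtain ⟨z, ⟨hz1, hz2⟩, hz3⟩ := exists_minimal_mem hne
      have hz : ∀ x ∈ C, x < z := by
        intro x hx
        rcases g2.total (hCC' hx) hz1 with h | h
        · exact lt_of_le_of_ne h (fun e => hz2 (e ▸ hx))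
        · refine absurd ?_ hz2
          rcases h.eq_or_lt with rfl | h'
          · exact hx
          · exact (h4 x hx z h').resolve_left (g1 hz1)
      obtain ⟨y, hy1, hy2⟩ := h5 z hz
      rw [Set.mem_union, not_or] at hy2
      exact hz3 y ⟨g3 z hz1 y hy2.1 hy1.le, hy2.2⟩ hy1
  · rintro ⟨h1, ⟨h2, h3, h4⟩, h5⟩
    refine ⟨h1, h3, Set.disjoint_left.2 (fun x hx hxC => h2 hxC hx), ?_, ?_⟩
    · intro x hx y hy
      by_cases hyA : y ∈ A
      · exact Or.inl hyA
      · exact Or.inr (h4 x hx y hyA hy.le)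
    · intro z hz
      by_contra hc
      push Not at hc
      obtain ⟨x, hx⟩ := h1
      have hzA : z ∉ A := fun h => h2 hx (hA (hz x hx).le h)
      have hmem : z ∈ C := by
        refine h5 (y := insert z C) ⟨?_, ?_, ?_⟩ (Set.subset_insert _ _) (Set.mem_insert _ _)
        · exact Set.insert_subset hzA h2
        · exact h3.insert (fun b hb _ => Or.inr (hz b hb).le)
        · rintro y (rfl | hy) w hw hwy
          · rcases hwy.eq_or_lt with rfl | h
            · exact Set.mem_insert _ _
            · exact Or.inr ((hc w h).resolve_left hw)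
          · exact Or.inr (h4 y hy w hw hwy)
      exact lt_irrefl _ (hz z hmem)

lemma Tower.lower {A : Set P} (h : Tower A) : IsLowerSet A := by
  induction h with
  | empty => exact isLowerSet_empty
  | @step A C _ hC ih =>
    rintro x y hyx (hx | hx)
    · exact Or.inl (ih hyx hx)
    · rcases hyx.eq_or_lt with rfl | h
      · exact Or.inr hx
      · exact hC.2.2.2.1 x hx y h

lemma compl_diff (A C : Set P) : Aᶜ \ C = (A ∪ C)ᶜ := by
  ext x; simp [Set.mem_sdiff, not_or]

lemma Tower.stage [Finite P] {A : Set P} (h : Tower A) : Stage Aᶜ := by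
  induction h with
  | empty => rw [Set.compl_empty]; exact Stage.start
  | @step A C hA hC ih =>
    rw [← compl_diff]
    exact Stage.step ih ((closedOver_iff hA.lower).1 hC).2

lemma tower_of_stage [Finite P] {Q : Set P} (h : Stage Q) : Tower Qᶜ := by
  induction h with
  | start => rw [Set.compl_univ]; exact Tower.empty
  | @step Q C _ hC ih =>
    rcases C.eq_empty_or_nonempty with rfl | hne
    · rwa [Set.sdiff_empty]
    · have : (Q \ C)ᶜ = Qᶜ ∪ C := by
        ext x
        simp only [Set.mem_compl_iff, Set.mem_sdiff, not_and_or, not_not, Set.mem_union]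
      rw [this]
      refine Tower.step ih ((closedOver_iff ih.lower).2 ⟨hne, ?_⟩)
      rwa [compl_compl]

lemma chain_diff_iff [Finite P] {A C D : Set P} (hA : IsLowerSet A) (hC : ClosedOver A C)
    (hD : ClosedOver A D) (hne : C ≠ D) :
    IsGreedyChain (Aᶜ \ D) (C \ D) ↔
      ¬ ∃ z, (∀ x ∈ C, x < z) ∧ ∀ y, y < z → y ∈ A ∪ C ∪ D := by
  have hAD : IsLowerSet (A ∪ D) := by
    rintro x y hyx (hx | hx)
    · exact Or.inl (hA hyx hx)
    · rcases hyx.eq_or_lt with rfl | h
      · exact Or.inr hx
      · exact hD.2.2.2.1 x hx y h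
  have hCD : (C \ D).Nonempty := by
    rw [Set.nonempty_iff_ne_empty, Ne, Set.sdiff_eq_empty]
    intro hsub
    apply hne
    have h1 := ((closedOver_iff hA).1 hC).2
    have h2 := ((closedOver_iff hA).1 hD).2
    exact Set.Subset.antisymm hsub (h1.2 h2.1 hsub)
  obtain ⟨w, hwC, hwD⟩ := hCD
  have hup : ∀ z, (∀ x ∈ C \ D, x < z) ↔ ∀ x ∈ C, x < z := by
    intro z
    refine ⟨fun h x hx => ?_, fun h x hx => h x hx.1⟩
    by_cases hxD : x ∈ D
    · rcases hC.2.1.total hx hwC with h1 | h1
      · exact lt_of_le_of_lt h1 (h w ⟨hwC, hwD⟩)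
      · exfalso
        rcases h1.eq_or_lt with rfl | h2
        · exact hwD hxD
        · rcases hD.2.2.2.1 x hxD w h2 with h3 | h3
          · exact Set.disjoint_left.1 hC.2.2.1 h3 hwC
          · exact hwD h3
    · exact h x ⟨hx, hxD⟩
  have hset : ∀ y, y ∈ (A ∪ D) ∪ (C \ D) ↔ y ∈ A ∪ C ∪ D := by
    intro y
    simp only [Set.mem_union, Set.mem_sdiff]
    tauto
  rw [compl_diff]
  have h1 := closedOver_iff (C := C \ D) hAD
  have hnon : (C \ D).Nonempty := ⟨w, hwC, hwD⟩
  constructor
  · intro hg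
    have h2 := h1.2 ⟨hnon, hg⟩
    rintro ⟨z, hz1, hz2⟩
    obtain ⟨y, hy1, hy2⟩ := h2.2.2.2.2 z ((hup z).2 hz1)
    exact hy2 ((hset y).2 (hz2 y hy1))
  · intro hn
    refine (h1.1 ⟨hnon, ?_, ?_, ?_, ?_⟩).2
    · exact hC.2.1.mono Set.sdiff_subset
    · rw [Set.disjoint_left]
      rintro x (hx | hx) hx'
      · exact Set.disjoint_left.1 hC.2.2.1 hx hx'.1
      · exact hx'.2 hx
    · intro x hx y hy
      rw [hset]
      exact Or.inl (hC.2.2.2.1 x hx.1 y hy)
    · intro z hz
      by_contra hc
      push Not at hc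
      exact hn ⟨z, (hup z).1 hz, fun y hy => (hset y).1 (hc y hy)⟩

/-- **Greedy posets in terms of towers.** -/
theorem greedy_iff_tower [Finite P] :
    IsGreedy (univ : Set P) ↔
      ∀ A C D : Set P, Tower A → ClosedOver A C → ClosedOver A D →
        (∃ z, (∀ x ∈ D, x < z) ∧ ∀ y, y < z → y ∈ A ∪ C ∪ D) →
          ∃ z, (∀ x ∈ C, x < z) ∧ ∀ y, y < z → y ∈ A ∪ C ∪ D := by
  rw [greedy_iff_interch]
  constructor
  · intro h A C D hA hC hD hex
    by_contra hc
    have hne : C ≠ D := by
      rintro rfl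
      exact hc hex
    have h1 := (chain_diff_iff hA.lower hC hD hne).2 hc
    have h2 := h _ hA.stage C D ((closedOver_iff hA.lower).1 hC).2
      ((closedOver_iff hA.lower).1 hD).2 h1
    refine (chain_diff_iff hA.lower hD hC (Ne.symm hne)).1 h2 ?_
    obtain ⟨z, hz1, hz2⟩ := hex
    exact ⟨z, hz1, fun y hy => by rw [Set.union_right_comm]; exact hz2 y hy⟩
  · intro h Q hQ C D hC hD hCD
    have hT := tower_of_stage hQ
    rcases eq_or_ne C D with rfl | hne
    · exact hCD
    rw [← compl_compl Q] at hC hD hCD ⊢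
    rcases Q.eq_empty_or_nonempty with rfl | hQne
    · exfalso
      apply hne
      have h1 : C = ∅ := by
        have := hC.1.1
        simpa using this
      have h2 : D = ∅ := by
        have := hD.1.1
        simpa using this
      rw [h1, h2]
    have hC1 : C.Nonempty := by
      rw [compl_compl] at hC
      exact greedy_nonempty hQne hC
    have hD1 : D.Nonempty := by
      rw [compl_compl] at hD
      exact greedy_nonempty hQne hD
    have hC' := (closedOver_iff hT.lower).2 ⟨hC1, hC⟩
    have hD' := (closedOver_iff hT.lower).2 ⟨hD1, hD⟩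
    have h1 := (chain_diff_iff hT.lower hC' hD' hne).1 hCD
    refine (chain_diff_iff hT.lower hD' hC' (Ne.symm hne)).2 ?_
    rintro ⟨z, hz1, hz2⟩
    apply h1
    exact h _ C D hT hC' hD' ⟨z, hz1, fun y hy => by
      rw [Set.union_right_comm]; exact hz2 y hy⟩

end GreedyJump
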