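import Mathlib

/-!
Closed chains and towers in a partially ordered set.
-/

set_option autoImplicit false

namespace GreedyJump

variable {P : Type*} [PartialOrder P]

/-- The nonempty chain `C` is closed over the set `A`: it is disjoint from `A`, everything below an
element of `C` lies in `A ∪ C`, and every element above all of `C` has something below it outside
`A ∪ C`. -/
def ClosedOver (A C : Set P) : Prop :=
  C.Nonempty ∧ IsChain (· ≤ ·) C ∧ Disjoint A C ∧ (∀ x ∈ C, ∀ y, y < x → y ∈ A ∪ C) ∧
    ∀ z, (∀ x ∈ C, x < z) → ∃ y, y < z ∧ y ∉ A ∪ C

/-- Towers: the empty set is a tower, and `A ∪ C` is a tower when `A` is one and the chain `C` is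
closed over `A`. -/
inductive Tower : Set P → Prop
  | empty : Tower ∅
  | step {A C : Set P} : Tower A → ClosedOver A C → Tower (A ∪ C)

end GreedyJump
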